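import Pool.Agent.R245.WG.Stm

set_option autoImplicit false

/-! S_CO: derivatives of `cos √x` and `sin √x / √x` (integral representation). -/

open MeasureTheory Set

namespace Pool.Agent.R245.WG.COB

/-- `J m x = ∫_0^1 (1-s²)^m cos(s√x) ds` -/
noncomputable def J (m : ℕ) (x : ℝ) : ℝ :=
  ∫ s in (0 : ℝ)..1, (1 - s ^ 2) ^ m * Real.cos (s * Real.sqrt x)

lemma J_le (m : ℕ) (x : ℝ) : |J m x| ≤ 1 := by
  unfold J
  have h := intervalIntegral.norm_integral_le_of_norm_le_const (a := (0 : ℝ)) (b := 1)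
    (f := fun s => (1 - s ^ 2) ^ m * Real.cos (s * Real.sqrt x)) (C := 1) (by
      intro s hs
      rw [uIoc_of_le (by norm_num)] at hs
      rw [norm_mul, norm_pow, Real.norm_eq_abs, Real.norm_eq_abs]
      have h1 : |1 - s ^ 2| ≤ 1 := by
        rw [abs_le]
        constructor <;> nlinarith [hs.1, hs.2]
      have h2 : |1 - s ^ 2| ^ m ≤ 1 := pow_le_one₀ (abs_nonneg _) h1
      have h3 := Real.abs_cos_le_one (s * Real.sqrt x)
      calc |1 - s ^ 2| ^ m * |Real.cos (s * Real.sqrt x)| ≤ 1 * 1 :=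
            mul_le_mul h2 h3 (abs_nonneg _) (by norm_num)
        _ = 1 := by norm_num)
  simpa using h

lemma ibp (m : ℕ) (y : ℝ) :
    ∫ s in (0 : ℝ)..1, (1 - s ^ 2) ^ m * (s * Real.sin (s * y)) =
      y / (2 * (m + 1)) * ∫ s in (0 : ℝ)..1, (1 - s ^ 2) ^ (m + 1) * Real.cos (s * y) := by
  have hu : ∀ s ∈ uIcc (0 : ℝ) 1, HasDerivAt (fun s : ℝ => Real.sin (s * y))
      (Real.cos (s * y) * y) s := by
    intro s _
    have h1 : HasDerivAt (fun s : ℝ => s * y) y s := by
      simpa using (hasDerivAt_id s).mul_const y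
    exact h1.sin
  have hv : ∀ s ∈ uIcc (0 : ℝ) 1, HasDerivAt
      (fun s : ℝ => -((1 - s ^ 2) ^ (m + 1) / (2 * ((m : ℝ) + 1))))
      ((1 - s ^ 2) ^ m * s) s := by
    intro s _
    have h1 : HasDerivAt (fun s : ℝ => 1 - s ^ 2) (-(2 * s)) s := by
      simpa using ((hasDerivAt_pow 2 s).const_sub 1)
    have h2 := ((h1.pow (m + 1)).div_const (2 * ((m : ℝ) + 1))).neg
    have h0 : (m : ℝ) + 1 ≠ 0 := by positivity
    refine h2.congr_deriv ?_
    push_cast
    field_simp
  have h := intervalIntegral.integral_mul_deriv_eq_deriv_mul (a := (0 : ℝ)) (b := 1) hu hv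
    (by apply Continuous.intervalIntegrable; fun_prop)
    (by apply Continuous.intervalIntegrable; fun_prop)
  have e1 : ∀ s : ℝ, (1 - s ^ 2) ^ m * (s * Real.sin (s * y)) =
      Real.sin (s * y) * ((1 - s ^ 2) ^ m * s) := fun s => by ring
  simp_rw [e1]
  rw [h]
  have e2 : ∀ s : ℝ, Real.cos (s * y) * y * -((1 - s ^ 2) ^ (m + 1) / (2 * ((m : ℝ) + 1))) =
      -(y / (2 * ((m : ℝ) + 1)) * ((1 - s ^ 2) ^ (m + 1) * Real.cos (s * y))) := fun s => by ring
  simp_rw [e2]
  rw [intervalIntegral.integral_neg, intervalIntegral.integral_const_mul]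
  simp

lemma hasDerivAt_J (m : ℕ) (x : ℝ) (hx : 0 < x) :
    HasDerivAt (J m) (-(J (m + 1) x / (4 * (m + 1)))) x := by
  have hball : ∀ y ∈ Metric.ball x (x / 2), x / 2 < y := by
    intro y hy
    rw [Metric.mem_ball, Real.dist_eq, abs_lt] at hy
    linarith [hy.1]
  have hd : ∀ s : ℝ, ∀ y ∈ Metric.ball x (x / 2), HasDerivAt
      (fun y => (1 - s ^ 2) ^ m * Real.cos (s * Real.sqrt y))
      ((1 - s ^ 2) ^ m * (-Real.sin (s * Real.sqrt y) * (s * (1 / (2 * Real.sqrt y))))) y := by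
    intro s y hy
    have hy0 : 0 < y := by linarith [hball y hy]
    have h1 := Real.hasDerivAt_sqrt hy0.ne'
    exact ((h1.const_mul s).cos).const_mul _
  have h := intervalIntegral.hasDerivAt_integral_of_dominated_loc_of_deriv_le
    (μ := volume) (a := (0 : ℝ)) (b := 1)
    (F := fun y s => (1 - s ^ 2) ^ m * Real.cos (s * Real.sqrt y))
    (F' := fun y s => (1 - s ^ 2) ^ m *
      (-Real.sin (s * Real.sqrt y) * (s * (1 / (2 * Real.sqrt y)))))
    (x₀ := x) (s := Metric.ball x (x / 2)) (bound := fun _ => 1 / (2 * Real.sqrt (x / 2)))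
    (Metric.ball_mem_nhds x (by positivity))
    (by
      refine Filter.Eventually.of_forall fun y => ?_
      exact (by fun_prop : Continuous fun s : ℝ =>
        (1 - s ^ 2) ^ m * Real.cos (s * Real.sqrt y)).aestronglyMeasurable)
    (by apply Continuous.intervalIntegrable; fun_prop)
    (by exact (by fun_prop : Continuous fun s : ℝ => (1 - s ^ 2) ^ m *
      (-Real.sin (s * Real.sqrt x) * (s * (1 / (2 * Real.sqrt x))))).aestronglyMeasurable)
    (by
      refine Filter.Eventually.of_forall fun s hs y hy => ?_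
      rw [uIoc_of_le (by norm_num)] at hs
      have hy1 := hball y hy
      have h1 : |1 - s ^ 2| ≤ 1 := by
        rw [abs_le]
        constructor <;> nlinarith [hs.1, hs.2]
      have h2 : |1 - s ^ 2| ^ m ≤ 1 := pow_le_one₀ (abs_nonneg _) h1
      have h3 := Real.abs_sin_le_one (s * Real.sqrt y)
      have h4 : Real.sqrt (x / 2) ≤ Real.sqrt y := Real.sqrt_le_sqrt hy1.le
      have h5 : 0 < Real.sqrt (x / 2) := Real.sqrt_pos.2 (by positivity)
      rw [norm_mul, norm_pow, Real.norm_eq_abs, norm_mul, norm_neg, Real.norm_eq_abs, norm_mul,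
        Real.norm_eq_abs s, abs_of_pos hs.1, Real.norm_of_nonneg (by positivity)]
      have h6 : 1 / (2 * Real.sqrt y) ≤ 1 / (2 * Real.sqrt (x / 2)) := by gcongr
      have h7 : (0 : ℝ) ≤ 1 / (2 * Real.sqrt y) := by positivity
      have h8 : s * (1 / (2 * Real.sqrt y)) ≤ 1 / (2 * Real.sqrt (x / 2)) := by
        calc s * (1 / (2 * Real.sqrt y)) ≤ 1 * (1 / (2 * Real.sqrt (x / 2))) :=
              mul_le_mul hs.2 h6 h7 (by norm_num)
          _ = _ := one_mul _
      have h9 : 0 ≤ s * (1 / (2 * Real.sqrt y)) := mul_nonneg hs.1.le h7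
      calc |1 - s ^ 2| ^ m * (|Real.sin (s * Real.sqrt y)| * (s * (1 / (2 * Real.sqrt y))))
          ≤ 1 * (1 * (1 / (2 * Real.sqrt (x / 2)))) :=
            mul_le_mul h2 (mul_le_mul h3 h8 h9 (by norm_num))
              (mul_nonneg (abs_nonneg _) h9) (by norm_num)
        _ = _ := by ring)
    (by apply Continuous.intervalIntegrable; fun_prop)
    (by
      refine Filter.Eventually.of_forall fun s _ y hy => ?_
      exact hd s y hy)
  have h2 := h.2
  have e : (∫ s in (0 : ℝ)..1, (1 - s ^ 2) ^ m *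
      (-Real.sin (s * Real.sqrt x) * (s * (1 / (2 * Real.sqrt x))))) =
      -(J (m + 1) x / (4 * (m + 1))) := by
    have e1 : ∀ s : ℝ, (1 - s ^ 2) ^ m *
        (-Real.sin (s * Real.sqrt x) * (s * (1 / (2 * Real.sqrt x)))) =
        -(1 / (2 * Real.sqrt x)) * ((1 - s ^ 2) ^ m * (s * Real.sin (s * Real.sqrt x))) :=
      fun s => by ring
    simp_rw [e1]
    rw [intervalIntegral.integral_const_mul, ibp]
    have h5 : Real.sqrt x ≠ 0 := (Real.sqrt_pos.2 hx).ne'
    have h0 : (m : ℝ) + 1 ≠ 0 := by positivity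
    unfold J
    field_simp
    ring
  rw [e] at h2
  exact h2

lemma iter_J (m l : ℕ) : ∀ x : ℝ, 0 < x → |iteratedDeriv l (J m) x| ≤ 1 := by
  have key : ∀ l : ℕ, ∃ c : ℝ, |c| ≤ 1 ∧ ∀ x : ℝ, 0 < x →
      iteratedDeriv l (J m) x = c * J (m + l) x := by
    intro l
    induction l with
    | zero => exact ⟨1, by norm_num, fun x _ => by simp⟩
    | succ l ih =>
      obtain ⟨c, hc, h⟩ := ih
      refine ⟨-(c / (4 * ((m + l : ℕ) + 1))), ?_, ?_⟩
      · rw [abs_neg, abs_div, abs_of_pos (by positivity : (0 : ℝ) < 4 * ((m + l : ℕ) + 1))]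
        rw [div_le_one (by positivity)]
        have : (0 : ℝ) ≤ (m + l : ℕ) := by positivity
        linarith
      · intro x hx
        rw [iteratedDeriv_succ]
        have he : iteratedDeriv l (J m) =ᶠ[nhds x] fun x => c * J (m + l) x := by
          filter_upwards [Ioi_mem_nhds hx] with y hy
          exact h y hy
        rw [he.deriv_eq, ((hasDerivAt_J (m + l) x hx).const_mul c).deriv]
        rw [show m + (l + 1) = m + l + 1 by ring]
        ring
  intro x hx
  obtain ⟨c, hc, h⟩ := key l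
  rw [h x hx, abs_mul]
  calc |c| * |J (m + l) x| ≤ 1 * 1 := mul_le_mul hc (J_le _ _) (abs_nonneg _) (by norm_num)
    _ = 1 := by norm_num

lemma J_zero (x : ℝ) (hx : 0 < x) : J 0 x = Real.sin (Real.sqrt x) / Real.sqrt x := by
  unfold J
  have h5 : Real.sqrt x ≠ 0 := (Real.sqrt_pos.2 hx).ne'
  simp only [pow_zero, one_mul]
  rw [intervalIntegral.integral_comp_mul_right (fun y => Real.cos y) h5]
  rw [integral_cos]
  simp
  ring

lemma iter_congr {f g : ℝ → ℝ} (h : ∀ x, 0 < x → f x = g x) (l : ℕ) :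
    ∀ x, 0 < x → iteratedDeriv l f x = iteratedDeriv l g x := by
  induction l with
  | zero => simpa using h
  | succ l ih =>
    intro x hx
    rw [iteratedDeriv_succ, iteratedDeriv_succ]
    refine Filter.EventuallyEq.deriv_eq ?_
    filter_upwards [Ioi_mem_nhds hx] with y hy
    exact ih y hy

end Pool.Agent.R245.WG.COB

namespace Pool.Agent.R245.WG

open COB in
theorem cob_thm : S_CO := by
  intro l K
  refine ⟨1, ?_⟩
  intro ρ hρ _
  have hs : ∀ l : ℕ, ∀ x : ℝ, 0 < x →
      |iteratedDeriv l (fun x => Real.sin (Real.sqrt x) / Real.sqrt x) x| ≤ 1 := by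
    intro l x hx
    rw [← iter_congr (f := J 0) (fun x hx => J_zero x hx) l x hx]
    exact iter_J 0 l x hx
  refine ⟨?_, hs l ρ hρ⟩
  cases l with
  | zero => simpa using Real.abs_cos_le_one _
  | succ l =>
    rw [iteratedDeriv_succ']
    have hd : ∀ x : ℝ, 0 < x → deriv (fun x => Real.cos (Real.sqrt x)) x = -(1 / 2) * J 0 x := by
      intro x hx
      rw [((Real.hasDerivAt_sqrt hx.ne').cos).deriv, J_zero x hx]
      have h5 : Real.sqrt x ≠ 0 := (Real.sqrt_pos.2 hx).ne'
      field_simp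
    rw [iter_congr hd l ρ hρ]
    have h2 : iteratedDeriv l (fun x => -(1 / 2) * J 0 x) ρ = -(1 / 2) * iteratedDeriv l (J 0) ρ := by
      exact iteratedDeriv_const_mul_field _ _
    rw [h2, abs_mul]
    have h3 := iter_J 0 l ρ hρ
    have h4 : |(-(1 / 2) : ℝ)| = 1 / 2 := by norm_num
    rw [h4]
    linarith [abs_nonneg (iteratedDeriv l (J 0) ρ)]

end Pool.Agent.R245.WG
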