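import Pool.Agent.R245.WG.Stm

set_option autoImplicit false

/-! Project WG, piece DCG (helper865): the cosine symbol. -/

open MeasureTheory Set Filter
open scoped ENNReal RealInnerProductSpace ContDiff Topology

namespace Pool.Agent.R245.WG

open Pool.Agent.R245.WB

namespace DCGaux

/-- scaling of iterated derivatives -/
lemma scal (f : ℝ → ℝ) (c : ℝ) (l : ℕ) :
    iteratedDeriv l (fun x => f (c * x)) = fun x => c ^ l * iteratedDeriv l f (c * x) := by
  induction l with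
  | zero =>
    funext x
    simp
  | succ l ih =>
    rw [iteratedDeriv_succ, ih]
    funext x
    rw [deriv_const_mul_field]
    have h := deriv_comp_mul_left (f := iteratedDeriv l f) (c := c) (x := x)
    rw [h, iteratedDeriv_succ, smul_eq_mul, pow_succ]
    ring

/-- the product of a scaled function and another function -/
lemma prod_bd (F Q : ℝ → ℝ) (c K ρ : ℝ) (l : ℕ) (M N : ℕ → ℝ) (hc0 : 0 ≤ c) (hcK : c ≤ K)
    (hF : ContDiffAt ℝ ∞ (fun x => F (c * x)) ρ) (hQ : ContDiffAt ℝ ∞ Q ρ)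
    (hM : ∀ i, |iteratedDeriv i F (c * ρ)| ≤ M i) (hN : ∀ i, |iteratedDeriv i Q ρ| ≤ N i) :
    |iteratedDeriv l (fun x => F (c * x) * Q x) ρ| ≤
      ∑ i ∈ Finset.range (l + 1), (l.choose i : ℝ) * K ^ i * |M i| * N (l - i) := by
  have h1 : ContDiffAt ℝ l (fun x => F (c * x)) ρ := hF.of_le (by exact_mod_cast le_top)
  have h2 : ContDiffAt ℝ l Q ρ := hQ.of_le (by exact_mod_cast le_top)
  rw [iteratedDeriv_fun_mul h1 h2]
  refine (Finset.abs_sum_le_sum_abs _ _).trans (Finset.sum_le_sum fun i _ => ?_)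
  rw [abs_mul, abs_mul, Nat.abs_cast, scal F c i]
  have hN0 : 0 ≤ N (l - i) := (abs_nonneg _).trans (hN (l - i))
  have hK : 0 ≤ K := hc0.trans hcK
  have h3 : |c ^ i * iteratedDeriv i F (c * ρ)| ≤ K ^ i * |M i| := by
    rw [abs_mul, abs_of_nonneg (pow_nonneg hc0 i)]
    exact mul_le_mul (pow_le_pow_left₀ hc0 hcK i) ((hM i).trans (le_abs_self _)) (abs_nonneg _)
      (pow_nonneg hK i)
  calc (l.choose i : ℝ) * |c ^ i * iteratedDeriv i F (c * ρ)| * |iteratedDeriv (l - i) Q ρ|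
      ≤ (l.choose i : ℝ) * (K ^ i * |M i|) * N (l - i) := by
        apply mul_le_mul _ (hN _) (abs_nonneg _) (by positivity)
        exact mul_le_mul_of_nonneg_left h3 (Nat.cast_nonneg _)
    _ = _ := by ring

/-- monotonicity of the bound -/
lemma sum_mono_bd (n : ℕ) (K : ℝ) (hK : 0 ≤ K) (M N : ℕ → ℝ) (hN : ∀ i, 0 ≤ N i) (l : ℕ)
    (hl : l ≤ 2 * n) :
    ∑ i ∈ Finset.range (l + 1), (l.choose i : ℝ) * K ^ i * |M i| * N (l - i) ≤
    ∑ l ∈ Finset.range (2 * n + 1), ∑ i ∈ Finset.range (l + 1),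
      (l.choose i : ℝ) * K ^ i * |M i| * N (l - i) := by
  refine Finset.single_le_sum (f := fun l => ∑ i ∈ Finset.range (l + 1),
      (l.choose i : ℝ) * K ^ i * |M i| * N (l - i)) (fun l _ => ?_)
      (Finset.mem_range.mpr (by omega))
  refine Finset.sum_nonneg fun i _ => ?_
  have := hN (l - i)
  positivity

lemma q_pos (r : ℝ) : 0 < 1 + 4 * Real.pi ^ 2 * r ^ 2 := by positivity

end DCGaux

open DCGaux in
theorem dcg_thm (h1 : S_DECG) (h2 : S_SYM) (h3 : S_CO) : S_DCG := by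
  intro n s hn hs
  have hpi := Real.pi_pos
  choose M hM using fun l => h3 l (64 * Real.pi ^ 2)
  choose N hN0 hN using fun l => h2 (-(s / 2)) l
  set K : ℝ := 16 * Real.pi ^ 2 with hK
  have hK0 : 0 ≤ K := by positivity
  set S1 : ℝ := ∑ l ∈ Finset.range (2 * n + 1), N l with hS1
  set S2 : ℝ := ∑ l ∈ Finset.range (2 * n + 1), ∑ i ∈ Finset.range (l + 1),
      (l.choose i : ℝ) * K ^ i * |M i| * N (l - i) with hS2
  have hS10 : 0 ≤ S1 := Finset.sum_nonneg fun l _ => (hN0 l).le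
  have hS20 : 0 ≤ S2 := Finset.sum_nonneg fun l _ => Finset.sum_nonneg fun i _ => by
    have := (hN0 (l - i)).le
    positivity
  obtain ⟨C, hC, hmain⟩ := h1 n s (1 + S1 + S2) hn hs (by positivity)
  refine ⟨C, hC, fun t ht1 ht2 => ?_⟩
  have ht0 : 0 < t := by linarith
  apply hmain t (mc s t) (fun r => (1 + 4 * Real.pi ^ 2 * r ^ 2) ^ (-(s / 2))) ht1 ht2
  · apply ContDiff.contDiffOn
    apply ContDiff.rpow_const_of_ne
    · fun_prop
    · intro x
      exact (q_pos x).ne'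
  · left
    intro r _
    rfl
  · intro l hl r hr
    have hr0 : 0 < r := by linarith
    have h4 := ((hN l).1 r hr).1
    have e : 2 * (-(s / 2)) - (l : ℝ) = -s - l := by ring
    rw [e] at h4
    refine h4.trans ?_
    have h5 : N l ≤ S1 := Finset.single_le_sum (f := N) (fun i _ => (hN0 i).le)
      (Finset.mem_range.mpr (by omega))
    have h6 : 0 ≤ r ^ (-s - (l : ℝ)) := (Real.rpow_pos_of_pos hr0 _).le
    apply mul_le_mul_of_nonneg_right _ h6
    linarith
  · set c : ℝ := 4 * Real.pi ^ 2 * t ^ 2 with hc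
    have hc0 : 0 < c := by positivity
    have hcK : c ≤ K := by
      rw [hc, hK]
      nlinarith [mul_nonneg (mul_nonneg (sq_nonneg Real.pi) (sub_nonneg.mpr ht2))
        (show 0 ≤ 2 + t by linarith)]
    have hsm1 : ∀ ρ : ℝ, 0 < ρ → ContDiffAt ℝ ∞ (fun x : ℝ => Real.cos (Real.sqrt (c * x))) ρ := by
      intro ρ hρ
      have h7 : ContDiffAt ℝ ∞ (fun x : ℝ => Real.sqrt (c * x)) ρ :=
        ContDiffAt.sqrt (by fun_prop) (by positivity)
      exact h7.cos
    have hsm2 : ∀ ρ : ℝ, 0 < ρ →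
        ContDiffAt ℝ ∞ (fun x : ℝ => (1 + 4 * Real.pi ^ 2 * x) ^ (-(s / 2))) ρ := by
      intro ρ hρ
      apply ContDiffAt.rpow_const_of_ne
      · fun_prop
      · positivity
    refine ⟨fun x => Real.cos (Real.sqrt (c * x)) * (1 + 4 * Real.pi ^ 2 * x) ^ (-(s / 2)),
      ?_, ?_, ?_⟩
    · intro ρ hρ
      exact ((hsm1 ρ hρ).mul (hsm2 ρ hρ)).contDiffWithinAt
    · intro r hr
      have e : Real.sqrt (c * r ^ 2) = 2 * Real.pi * (t * r) := by
        have : c * r ^ 2 = (2 * Real.pi * (t * r)) ^ 2 := by rw [hc]; ring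
        rw [this, Real.sqrt_sq (by positivity)]
      simp only [mc]
      rw [e]
    · intro l hl ρ hρ hρ4
      have hb := prod_bd (fun x => Real.cos (Real.sqrt x))
        (fun x => (1 + 4 * Real.pi ^ 2 * x) ^ (-(s / 2))) c K ρ l M N hc0.le hcK
        (hsm1 ρ hρ) (hsm2 ρ hρ) (fun i => (hM i (c * ρ) (by positivity) (by
          calc c * ρ ≤ K * 4 := mul_le_mul hcK hρ4 hρ.le hK0
            _ = 64 * Real.pi ^ 2 := by rw [hK]; ring)).1)
        (fun i => (hN i).2 ρ hρ hρ4)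
      refine hb.trans ((sum_mono_bd n K hK0 M N (fun i => (hN0 i).le) l hl).trans ?_)
      rw [← hS2]
      linarith

end Pool.Agent.R245.WG
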