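import Pool.Agent.R245.WG.Stm

set_option autoImplicit false

/-!
# DECG: the dyadic decomposition of a symbol
-/

open Set Filter Topology
open scoped ContDiff

namespace Pool.Agent.R245.WG

open Pool.Agent.R245.WB

namespace DECGaux

/-! ### the cut-off functions -/

/-- the cut-off, as a function of `r²` -/
noncomputable def Th (ρ : ℝ) : ℝ := Real.smoothTransition ((4 - ρ) / 3)

theorem Th_cd : ContDiff ℝ ∞ Th := by
  have h : ContDiff ℝ ((⊤ : ℕ∞) : WithTop ℕ∞) Real.smoothTransition :=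
    Real.smoothTransition.contDiff
  exact h.comp ((contDiff_const.sub contDiff_id).div_const 3)

theorem Th_one {ρ : ℝ} (h : ρ ≤ 1) : Th ρ = 1 :=
  Real.smoothTransition.one_of_one_le (by rw [le_div_iff₀ (by norm_num)]; linarith)

theorem Th_zero {ρ : ℝ} (h : 4 ≤ ρ) : Th ρ = 0 :=
  Real.smoothTransition.zero_of_nonpos (by
    rw [div_le_iff₀ (by norm_num)]; linarith)

theorem Th_nonneg (ρ : ℝ) : 0 ≤ Th ρ := Real.smoothTransition.nonneg _

theorem Th_le_one (ρ : ℝ) : Th ρ ≤ 1 := Real.smoothTransition.le_one _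

theorem Th_anti {r s : ℝ} (h : r ≤ s) : Th s ≤ Th r :=
  Real.smoothTransition.monotone (by
    apply div_le_div_of_nonneg_right _ (by norm_num : (0 : ℝ) ≤ 3)
    linarith)

/-- the dyadic cut-off -/
noncomputable def ps (x : ℝ) : ℝ := Th (x ^ 2) - Th (4 * x ^ 2)

theorem ps_cd : ContDiff ℝ ∞ ps := by
  have h1 : ContDiff ℝ ∞ (fun x : ℝ => Th (x ^ 2)) := Th_cd.comp (contDiff_id.pow 2)
  have h2 : ContDiff ℝ ∞ (fun x : ℝ => Th (4 * x ^ 2)) :=
    Th_cd.comp (contDiff_const.mul (contDiff_id.pow 2))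
  exact h1.sub h2

theorem ps_low {x : ℝ} (h0 : 0 ≤ x) (h : x ≤ 1 / 2) : ps x = 0 := by
  unfold ps
  rw [Th_one (by nlinarith), Th_one (by nlinarith), sub_self]

theorem ps_high {x : ℝ} (h : 2 ≤ x) : ps x = 0 := by
  unfold ps
  rw [Th_zero (by nlinarith), Th_zero (by nlinarith), sub_self]

theorem ps_nonneg (x : ℝ) : 0 ≤ ps x := by
  unfold ps
  have := Th_anti (r := x ^ 2) (s := 4 * x ^ 2) (by nlinarith [sq_nonneg x])
  linarith

theorem exists_bd {f : ℝ → ℝ} (hf : ContDiff ℝ ∞ f) (a b : ℝ) (N : ℕ) :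
    ∃ D : ℝ, 1 ≤ D ∧ ∀ l ≤ N, ∀ x ∈ Icc a b, |iteratedDeriv l f x| ≤ D := by
  induction N with
  | zero =>
    obtain ⟨D, hD⟩ := (isCompact_Icc (a := a) (b := b)).exists_bound_of_continuousOn
      (hf.continuous_iteratedDeriv 0 (by exact_mod_cast le_top)).continuousOn
    refine ⟨max 1 D, le_max_left _ _, fun l hl x hx => ?_⟩
    have hl0 : l = 0 := by omega
    subst hl0
    exact (hD x hx).trans (le_max_right _ _)
  | succ N ih =>
    obtain ⟨D0, h1, h0⟩ := ih
    obtain ⟨D, hD⟩ := (isCompact_Icc (a := a) (b := b)).exists_bound_of_continuousOn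
      (hf.continuous_iteratedDeriv (N + 1) (by exact_mod_cast le_top)).continuousOn
    refine ⟨max D0 D, h1.trans (le_max_left _ _), fun l hl x hx => ?_⟩
    rcases Nat.lt_or_ge l (N + 1) with h | h
    · exact (h0 l (by omega) x hx).trans (le_max_left _ _)
    · have hl0 : l = N + 1 := by omega
      subst hl0
      exact (hD x hx).trans (le_max_right _ _)

theorem leib {f g : ℝ → ℝ} {x : ℝ} (hf : ContDiffAt ℝ ∞ f x) (hg : ContDiffAt ℝ ∞ g x) (l : ℕ)
    {A B p q : ℝ} (hA0 : 0 ≤ A) (hp : 0 ≤ p)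
    (hA : ∀ i ≤ l, |iteratedDeriv i f x| ≤ A * p ^ i)
    (hB : ∀ i ≤ l, |iteratedDeriv i g x| ≤ B * q ^ i) :
    |iteratedDeriv l (fun y => f y * g y) x| ≤ A * B * (p + q) ^ l := by
  have h1 : iteratedDeriv l (fun y => f y * g y) x = ∑ i ∈ Finset.range (l + 1),
      (l.choose i : ℝ) * iteratedDeriv i f x * iteratedDeriv (l - i) g x :=
    iteratedDeriv_fun_mul (hf.of_le (by exact_mod_cast le_top))
      (hg.of_le (by exact_mod_cast le_top))
  rw [h1, add_pow, Finset.mul_sum]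
  refine (Finset.abs_sum_le_sum_abs _ _).trans (Finset.sum_le_sum fun i hi => ?_)
  have hil : i ≤ l := by
    have := Finset.mem_range.1 hi
    omega
  rw [abs_mul, abs_mul, abs_of_nonneg (by positivity : (0 : ℝ) ≤ (l.choose i : ℝ))]
  have h2 := mul_le_mul (hA i hil) (hB (l - i) (Nat.sub_le _ _)) (abs_nonneg _)
    (by positivity)
  calc (l.choose i : ℝ) * |iteratedDeriv i f x| * |iteratedDeriv (l - i) g x|
      = (l.choose i : ℝ) * (|iteratedDeriv i f x| * |iteratedDeriv (l - i) g x|) := by ring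
    _ ≤ (l.choose i : ℝ) * (A * p ^ i * (B * q ^ (l - i))) :=
        mul_le_mul_of_nonneg_left h2 (by positivity)
    _ = A * B * (p ^ i * q ^ (l - i) * (l.choose i : ℝ)) := by ring

theorem iter_zero {f : ℝ → ℝ} {U : Set ℝ} (hU : IsOpen U) (h : ∀ y ∈ U, f y = 0) {x : ℝ}
    (hx : x ∈ U) (l : ℕ) : iteratedDeriv l f x = 0 := by
  have e : f =ᶠ[𝓝 x] fun _ => (0 : ℝ) := by
    filter_upwards [hU.mem_nhds hx] with y hy
    exact h y hy
  rw [(e.iteratedDeriv l).self_of_nhds]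
  simp

/-! ### the partition -/

/-- the partition of unity -/
noncomputable def chi : ℕ → ℝ → ℝ
  | 0, r => Th (r ^ 2)
  | j + 1, r => ps (r / 2 ^ (j + 1))

theorem chi_succ (j : ℕ) (r : ℝ) :
    chi (j + 1) r = Th ((r / 2 ^ (j + 1)) ^ 2) - Th ((r / 2 ^ j) ^ 2) := by
  have : 4 * (r / 2 ^ (j + 1)) ^ 2 = (r / 2 ^ j) ^ 2 := by
    rw [pow_succ]; field_simp; ring
  change Th ((r / 2 ^ (j + 1)) ^ 2) - Th (4 * (r / 2 ^ (j + 1)) ^ 2) = _
  rw [this]

theorem chi_nonneg (j : ℕ) (r : ℝ) : 0 ≤ chi j r := by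
  cases j with
  | zero => exact Th_nonneg _
  | succ j => exact ps_nonneg _

theorem chi_sum (r : ℝ) (J : ℕ) : ∑ j ∈ Finset.range (J + 1), chi j r = Th ((r / 2 ^ J) ^ 2) := by
  induction J with
  | zero =>
    rw [Finset.sum_range_one]
    unfold chi
    rw [pow_zero, div_one]
  | succ J ih =>
    rw [Finset.sum_range_succ, ih, chi_succ]
    ring

theorem chi_hasSum {r : ℝ} (hr : 0 < r) : HasSum (fun j => chi j r) 1 := by
  obtain ⟨J, hJ⟩ := pow_unbounded_of_one_lt r (one_lt_two : (1 : ℝ) < 2)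
  have hle : ∀ i, J ≤ i → (r / 2 ^ i) ^ 2 ≤ 1 := by
    intro i hi
    have h2 : r ≤ 2 ^ i := hJ.le.trans (pow_le_pow_right₀ one_le_two hi)
    have h3 : r / 2 ^ i ≤ 1 := by
      rw [div_le_one (by positivity)]; exact h2
    exact pow_le_one₀ (by positivity) h3
  have h1 : ∑ j ∈ Finset.range (J + 1), chi j r = 1 := by
    rw [chi_sum]
    exact Th_one (hle J le_rfl)
  rw [← h1]
  refine hasSum_sum_of_ne_finset_zero fun j hj => ?_
  rw [Finset.mem_range, not_lt] at hj
  obtain ⟨i, rfl⟩ : ∃ i, j = i + 1 := ⟨j - 1, by omega⟩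
  rw [chi_succ, Th_one (hle _ (by omega)), Th_one (hle _ (by omega)), sub_self]

theorem chi_zero (j : ℕ) {r : ℝ} (h : 2 * (2 : ℝ) ^ j < r) : chi j r = 0 := by
  cases j with
  | zero =>
    refine Th_zero ?_
    rw [pow_zero] at h
    nlinarith
  | succ j =>
    refine ps_high ?_
    rw [le_div_iff₀ (by positivity)]
    exact h.le

/-! ### the localised symbol -/

/-- the localised symbol, extended by zero -/
noncomputable def bb (β : ℝ → ℝ) (j : ℕ) (r : ℝ) : ℝ :=
  if 0 < r then β r * ps (r / 2 ^ (j + 1)) else 0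

theorem bb_pos (β : ℝ → ℝ) (j : ℕ) {r : ℝ} (hr : 0 < r) :
    bb β j r = β r * ps (r / 2 ^ (j + 1)) := if_pos hr

theorem bb_low (β : ℝ → ℝ) (j : ℕ) {r : ℝ} (hr : r < 2 ^ (j + 1) / 2) : bb β j r = 0 := by
  rcases lt_or_ge 0 r with h | h
  · rw [bb_pos β j h, ps_low (by positivity), mul_zero]
    rw [div_le_iff₀ (by positivity)]
    linarith
  · exact if_neg (not_lt.2 h)

theorem bb_high (β : ℝ → ℝ) (j : ℕ) {r : ℝ} (hr : 2 * 2 ^ (j + 1) < r) : bb β j r = 0 := by
  have h0 : 0 < r := lt_trans (by positivity) hr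
  rw [bb_pos β j h0, ps_high, mul_zero]
  rw [le_div_iff₀ (by positivity)]
  exact hr.le

theorem bb_eventually (β : ℝ → ℝ) (j : ℕ) {r : ℝ} (hr : 0 < r) :
    bb β j =ᶠ[𝓝 r] fun y => β y * ps (((2 : ℝ) ^ (j + 1))⁻¹ * y) := by
  filter_upwards [Ioi_mem_nhds hr] with y hy
  rw [bb_pos β j hy, div_eq_inv_mul]

theorem ps_scale_cd (j : ℕ) : ContDiff ℝ ∞ (fun y => ps (((2 : ℝ) ^ (j + 1))⁻¹ * y)) :=
  ps_cd.comp (contDiff_const.mul contDiff_id)

theorem bb_cd {β : ℝ → ℝ} (hβ : ContDiffOn ℝ ∞ β (Ioi 0)) (j : ℕ) : ContDiff ℝ ∞ (bb β j) := by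
  rw [contDiff_iff_contDiffAt]
  intro x
  rcases lt_or_ge x ((2 : ℝ) ^ (j + 1) / 2) with h | h
  · have e : bb β j =ᶠ[𝓝 x] fun _ => (0 : ℝ) := by
      filter_upwards [Iio_mem_nhds h] with y hy
      exact bb_low β j hy
    exact contDiffAt_const.congr_of_eventuallyEq e
  · have hx : 0 < x := lt_of_lt_of_le (by positivity) h
    exact ((hβ.contDiffAt (Ioi_mem_nhds hx)).mul (ps_scale_cd j).contDiffAt).congr_of_eventuallyEq
      (bb_eventually β j hx)

theorem bb_bound {s C₀ D : ℝ} {n : ℕ} (hs : 0 ≤ s) (hC : 0 < C₀) (hD1 : 1 ≤ D)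
    (hD : ∀ l ≤ 2 * n, ∀ x ∈ Icc (1 / 2 : ℝ) 2, |iteratedDeriv l ps x| ≤ D) {β : ℝ → ℝ}
    (hβ : ContDiffOn ℝ ∞ β (Ioi 0))
    (hb : ∀ l : ℕ, l ≤ 2 * n → ∀ r, 1 ≤ r → |iteratedDeriv l β r| ≤ C₀ * r ^ (-s - l)) (j : ℕ)
    (l : ℕ) (hl : l ≤ 2 * n) (r : ℝ) :
    |iteratedDeriv l (bb β j) r| ≤
      C₀ * 2 ^ s * D * 9 ^ n * (2 : ℝ) ^ (-(s * ((j + 1 : ℕ) : ℝ))) / (2 ^ (j + 1)) ^ l := by
  set lam : ℝ := (2 : ℝ) ^ (j + 1) with hlam
  have hl0 : 0 < lam := by positivity
  have hpos : 0 ≤ C₀ * 2 ^ s * D * 9 ^ n * (2 : ℝ) ^ (-(s * ((j + 1 : ℕ) : ℝ))) / lam ^ l := by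
    positivity
  rcases lt_or_ge r (lam / 2) with h | h
  · rw [iter_zero (U := Iio (lam / 2)) isOpen_Iio (fun y hy => bb_low β j hy) h, abs_zero]
    exact hpos
  rcases lt_or_ge (2 * lam) r with h' | h'
  · rw [iter_zero (U := Ioi (2 * lam)) isOpen_Ioi (fun y hy => bb_high β j hy) h', abs_zero]
    exact hpos
  have hr0 : 0 < r := lt_of_lt_of_le (by positivity) h
  have hmu : (1 : ℝ) ≤ 2 ^ j := one_le_pow₀ one_le_two
  have hmu0 : (0 : ℝ) < 2 ^ j := by positivity
  have e2 : lam / 2 = 2 ^ j := by rw [hlam, pow_succ]; ring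
  rw [e2] at h
  have hr1 : 1 ≤ r := hmu.trans h
  rw [((bb_eventually β j hr0).iteratedDeriv l).self_of_nhds]
  have q : ((2 : ℝ) ^ j) ^ (-s) = 2 ^ s * (2 : ℝ) ^ (-(s * ((j + 1 : ℕ) : ℝ))) := by
    rw [← Real.rpow_natCast, ← Real.rpow_mul (by norm_num), ← Real.rpow_add (by norm_num)]
    congr 1
    push_cast
    ring
  have hA : ∀ i ≤ l, |iteratedDeriv i β r| ≤
      (C₀ * (2 ^ s * (2 : ℝ) ^ (-(s * ((j + 1 : ℕ) : ℝ))))) * (2 / lam) ^ i := by
    intro i hi
    refine (hb i (hi.trans hl) r hr1).trans ?_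
    rw [← q, mul_assoc]
    refine mul_le_mul_of_nonneg_left ?_ hC.le
    have h4 : r ^ (-s - (i : ℝ)) ≤ ((2 : ℝ) ^ j) ^ (-s - (i : ℝ)) :=
      Real.rpow_le_rpow_of_nonpos hmu0 h (by
        have : (0 : ℝ) ≤ i := Nat.cast_nonneg i
        linarith)
    refine h4.trans (le_of_eq ?_)
    rw [Real.rpow_sub hmu0, Real.rpow_natCast]
    have e3 : 2 / lam = 1 / 2 ^ j := by rw [← e2]; field_simp
    rw [e3, div_pow, one_pow, mul_one_div]
  have hB : ∀ i ≤ l, |iteratedDeriv i (fun y => ps (lam⁻¹ * y)) r| ≤ D * (1 / lam) ^ i := by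
    intro i hi
    have h5 : ContDiff ℝ i ps := ps_cd.of_le (by exact_mod_cast le_top)
    rw [iteratedDeriv_comp_const_mul h5]
    rw [abs_mul, abs_of_nonneg (by positivity : 0 ≤ lam⁻¹ ^ i)]
    have h6 : lam⁻¹ * r ∈ Icc (1 / 2 : ℝ) 2 := by
      rw [← div_eq_inv_mul]
      constructor
      · rw [le_div_iff₀ hl0]; linarith
      · rw [div_le_iff₀ hl0]; exact h'
    have h7 := hD i (hi.trans hl) _ h6
    rw [one_div, mul_comm D]
    exact mul_le_mul_of_nonneg_left h7 (by positivity)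
  have hle := leib (hβ.contDiffAt (Ioi_mem_nhds hr0)) (ps_scale_cd j).contDiffAt l
    (by positivity : 0 ≤ C₀ * (2 ^ s * (2 : ℝ) ^ (-(s * ((j + 1 : ℕ) : ℝ)))))
    (by positivity : 0 ≤ 2 / lam) hA hB
  refine hle.trans ?_
  have e4 : (2 / lam + 1 / lam) ^ l = 3 ^ l / lam ^ l := by
    rw [← add_div, div_pow]; norm_num
  rw [e4]
  have h8 : (3 : ℝ) ^ l ≤ 9 ^ n := by
    have h9 : (3 : ℝ) ^ l ≤ 3 ^ (2 * n) := pow_le_pow_right₀ (by norm_num) hl
    rw [pow_mul] at h9
    norm_num at h9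
    exact h9
  have h10 : (3 : ℝ) ^ l / lam ^ l ≤ 9 ^ n / lam ^ l :=
    div_le_div_of_nonneg_right h8 (by positivity)
  calc C₀ * (2 ^ s * (2 : ℝ) ^ (-(s * ((j + 1 : ℕ) : ℝ)))) * D * (3 ^ l / lam ^ l)
      ≤ C₀ * (2 ^ s * (2 : ℝ) ^ (-(s * ((j + 1 : ℕ) : ℝ)))) * D * (9 ^ n / lam ^ l) :=
        mul_le_mul_of_nonneg_left h10 (by positivity)
    _ = C₀ * 2 ^ s * D * 9 ^ n * (2 : ℝ) ^ (-(s * ((j + 1 : ℕ) : ℝ))) / lam ^ l := by ring

end DECGaux

open DECGaux in
/-- DECG -/
theorem decg_thm (h1 : S_HI) (h2 : S_LO) : S_DECG := by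
  intro n s C₀ hn hs hC₀
  obtain ⟨C1, hC1, HI⟩ := h1 n n hn
  obtain ⟨C2, hC2, LO⟩ := h2 n n hn
  obtain ⟨D, hD1, hD⟩ := exists_bd ps_cd (1 / 2) 2 (2 * n)
  obtain ⟨D', hD1', hD'⟩ := exists_bd Th_cd 0 4 (2 * n)
  have hDp : 0 < D := by linarith
  have hDp' : 0 < D' := by linarith
  set Ka : ℝ := C₀ * 2 ^ s * D * 9 ^ n with hKa
  set Kb : ℝ := C₀ * D' * 4 ^ n with hKb
  have hKa0 : 0 < Ka := by positivity
  have hKb0 : 0 < Kb := by positivity
  refine ⟨C1 * Ka + C2 * Kb + C₀, by positivity, ?_⟩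
  intro t m β ht1 ht2 hβ hm hβb hG
  obtain ⟨G, hGs, hmG, hGb⟩ := hG
  obtain ⟨u, v, hu, hv, hmuv⟩ : ∃ u v : ℝ, |u| ≤ 1 ∧ |v| ≤ 1 ∧ ∀ r, 0 < r →
      m r = Real.cos (2 * Real.pi * (t * r)) * (u * β r) +
        Real.sin (2 * Real.pi * (t * r)) * (v * β r) := by
    rcases hm with hm | hm
    · refine ⟨1, 0, by simp, by simp, fun r hr => ?_⟩
      rw [hm r hr]; ring
    · refine ⟨0, 1, by simp, by simp, fun r hr => ?_⟩
      rw [hm r hr]; ring
  -- the bound of `m`
  have hmC : ∀ r, 0 < r → |m r| ≤ C₀ := by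
    intro r hr
    rcases le_or_gt r 2 with h | h
    · have h3 := hGb 0 (Nat.zero_le _) (r ^ 2) (by positivity) (by nlinarith)
      rw [iteratedDeriv_zero] at h3
      rw [hmG r hr]
      exact h3
    · have h3 := hβb 0 (Nat.zero_le _) r (by linarith)
      rw [iteratedDeriv_zero] at h3
      have h4 : r ^ (-s - ((0 : ℕ) : ℝ)) ≤ 1 :=
        Real.rpow_le_one_of_one_le_of_nonpos (by linarith) (by push_cast; linarith)
      have h5 : |β r| ≤ C₀ := by
        have := mul_le_mul_of_nonneg_left h4 hC₀.le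
        linarith
      rcases hm with hm | hm
      · rw [hm r hr, abs_mul]
        have := mul_le_mul (Real.abs_cos_le_one (2 * Real.pi * (t * r))) h5 (abs_nonneg _)
          zero_le_one
        linarith
      · rw [hm r hr, abs_mul]
        have := mul_le_mul (Real.abs_sin_le_one (2 * Real.pi * (t * r))) h5 (abs_nonneg _)
          zero_le_one
        linarith
  -- the pieces
  let G' : ℝ → ℝ := fun ρ => G ρ * Th ρ
  let g : ℕ → ℝ → ℝ := fun j => match j with
    | 0 => fun r => G' (r ^ 2)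
    | j + 1 => fun r => Real.cos (2 * Real.pi * (t * r)) * (u * bb β j r) +
        Real.sin (2 * Real.pi * (t * r)) * (v * bb β j r)
  have hg0 : g 0 = fun r => G' (r ^ 2) := rfl
  have hgs : ∀ j, g (j + 1) = fun r => Real.cos (2 * Real.pi * (t * r)) * (u * bb β j r) +
        Real.sin (2 * Real.pi * (t * r)) * (v * bb β j r) := fun _ => rfl
  have hgm : ∀ j r, 0 < r → g j r = m r * chi j r := by
    intro j r hr
    cases j with
    | zero =>
      change G (r ^ 2) * Th (r ^ 2) = m r * Th (r ^ 2)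
      rw [hmG r hr]
    | succ j =>
      rw [hgs]
      change Real.cos (2 * Real.pi * (t * r)) * (u * bb β j r) +
        Real.sin (2 * Real.pi * (t * r)) * (v * bb β j r) = m r * ps (r / 2 ^ (j + 1))
      rw [bb_pos β j hr, hmuv r hr]
      ring
  have hG's : ContDiffOn ℝ ∞ G' (Ioi 0) := hGs.mul Th_cd.contDiffOn
  -- the bounds of the iterates
  have hmain : ∀ i : ℕ, i ≤ n → ∀ (j : ℕ) (a r : ℝ), 0 < a → a ≤ r →
      |(H n t a)^[i] (g j) r| ≤ (C1 * Ka + C2 * Kb + C₀) * (2 : ℝ) ^ (-(s * j)) *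
        (a ^ 2 / (2 ^ j) ^ 2 + 1 / 2 ^ j) ^ i := by
    intro i hi j a r ha har
    cases j with
    | zero =>
      have h3 := LO t Kb a G' ht1 ht2 hKb0.le ha hG's
        (fun ρ hρ => by
          change G ρ * Th ρ = 0
          rw [Th_zero hρ, mul_zero])
        (by
          intro l hl ρ hρ
          rcases lt_or_ge 4 ρ with h4 | h4
          · rw [iter_zero (U := Ioi 4) isOpen_Ioi (fun y hy => by
              change G y * Th y = 0
              rw [Th_zero (le_of_lt hy), mul_zero]) h4, abs_zero]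
            exact hKb0.le
          · have h5 := leib (hGs.contDiffAt (Ioi_mem_nhds hρ)) Th_cd.contDiffAt l
              (A := C₀) (B := D') (p := 1) (q := 1) hC₀.le zero_le_one
              (fun i hi => by
                rw [one_pow, mul_one]
                exact hGb i (hi.trans hl) ρ hρ h4)
              (fun i hi => by
                rw [one_pow, mul_one]
                exact hD' i (hi.trans hl) ρ ⟨hρ.le, h4⟩)
            refine h5.trans ?_
            rw [hKb]
            refine mul_le_mul_of_nonneg_left ?_ (by positivity)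
            have h6 : ((1 : ℝ) + 1) ^ l ≤ (1 + 1) ^ (2 * n) :=
              pow_le_pow_right₀ (by norm_num) hl
            rw [pow_mul] at h6
            norm_num at h6 ⊢
            exact h6) i hi r har
      rw [hg0]
      refine h3.trans ?_
      have e1 : -(s * ((0 : ℕ) : ℝ)) = 0 := by push_cast; ring
      rw [e1, Real.rpow_zero, mul_one, pow_zero, one_pow, div_one, div_one]
      have h7 : (1 : ℝ) ≤ (a ^ 2 + 1) ^ i := one_le_pow₀ (by nlinarith [sq_nonneg a])
      have h8 : C2 * Kb ≤ C1 * Ka + C2 * Kb + C₀ := by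
        have : 0 < C1 * Ka := by positivity
        linarith
      exact h8.trans (le_mul_of_one_le_right (by positivity) h7)
    | succ j =>
      set lam : ℝ := (2 : ℝ) ^ (j + 1) with hlam
      have hl0 : 0 < lam := by positivity
      have hl1 : 1 ≤ lam := one_le_pow₀ one_le_two
      set K : ℝ := Ka * (2 : ℝ) ^ (-(s * ((j + 1 : ℕ) : ℝ))) with hK
      have hK0 : 0 ≤ K := by positivity
      have hbd := bb_bound hs hC₀ hD1 hD hβ hβb j
      have hcd := bb_cd hβ j
      have hw : ∀ w : ℝ, |w| ≤ 1 → ∀ l ≤ 2 * n, ∀ r,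
          |iteratedDeriv l (fun r => w * bb β j r) r| ≤ K / lam ^ l := by
        intro w hw l hl r
        rw [iteratedDeriv_const_mul_field, abs_mul]
        have h3 := hbd l hl r
        have h4 := mul_le_mul hw h3 (abs_nonneg _) zero_le_one
        rw [one_mul] at h4
        exact h4
      have h3 := HI t lam K a (fun r => u * bb β j r) (fun r => v * bb β j r) ht1 ht2 hl1 hK0 ha
        (contDiff_const.mul hcd) (contDiff_const.mul hcd)
        (by
          intro r hr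
          have h4 : bb β j r = 0 := by
            rcases hr with hr | hr
            · exact bb_low β j hr
            · exact bb_high β j hr
          rw [h4, mul_zero, mul_zero]
          exact ⟨rfl, rfl⟩)
        (fun l hl r => ⟨hw u hu l hl r, hw v hv l hl r⟩) i hi r har
      rw [hgs]
      refine h3.trans ?_
      refine mul_le_mul_of_nonneg_right ?_ (by positivity)
      have h5 : C1 * K = C1 * Ka * (2 : ℝ) ^ (-(s * ((j + 1 : ℕ) : ℝ))) := by rw [hK]; ring
      rw [h5]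
      refine mul_le_mul_of_nonneg_right ?_ (by positivity)
      have : 0 < C2 * Kb := by positivity
      linarith
  refine ⟨g, ?_, ?_, ?_, ?_, ?_, hmain⟩
  · intro j
    cases j with
    | zero =>
      rw [hg0]
      exact hG's.comp (contDiff_id.pow 2).contDiffOn (fun r hr => by
        have : (0 : ℝ) < r := hr
        change (0 : ℝ) < r ^ 2
        positivity)
    | succ j =>
      rw [hgs]
      have hcd := bb_cd hβ j
      have hc : ContDiff ℝ ∞ (fun r : ℝ => Real.cos (2 * Real.pi * (t * r))) :=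
        Real.contDiff_cos.comp (contDiff_const.mul (contDiff_const.mul contDiff_id))
      have hsn : ContDiff ℝ ∞ (fun r : ℝ => Real.sin (2 * Real.pi * (t * r))) :=
        Real.contDiff_sin.comp (contDiff_const.mul (contDiff_const.mul contDiff_id))
      exact ((hc.mul (contDiff_const.mul hcd)).add (hsn.mul (contDiff_const.mul hcd))).contDiffOn
  · intro r hr
    have h := (chi_hasSum hr).mul_left (m r)
    rw [mul_one] at h
    have e : (fun j => g j r) = fun j => m r * chi j r := by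
      funext j; exact hgm j r hr
    rw [e]
    exact h
  · intro r hr j
    have h3 := hmain 0 (Nat.zero_le _) j r r hr le_rfl
    rw [pow_zero, mul_one] at h3
    exact h3
  · intro r hr
    have h3 : (fun j => |g j r|) = fun j => |m r| * chi j r := by
      funext j
      rw [hgm j r hr, abs_mul, abs_of_nonneg (chi_nonneg j r)]
    have h4 : HasSum (fun j => |g j r|) |m r| := by
      rw [h3]
      have h := (chi_hasSum hr).mul_left |m r|
      rwa [mul_one] at h
    rw [← ENNReal.ofReal_tsum_of_nonneg (fun j => abs_nonneg _) h4.summable, h4.tsum_eq]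
    refine ENNReal.ofReal_le_ofReal ((hmC r hr).trans ?_)
    have : 0 < C1 * Ka := by positivity
    have : 0 < C2 * Kb := by positivity
    linarith
  · intro j r hr
    have h0 : 0 < r := lt_trans (by positivity) hr
    rw [hgm j r h0, chi_zero j hr, mul_zero]

end Pool.Agent.R245.WG
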