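import Pool.Agent.R245.WG.Stm

set_option autoImplicit false

/-!
Project WG (helper245), piece DSG: the sine symbol satisfies the hypotheses of `S_DECG`.
-/

open MeasureTheory Set
open scoped ENNReal RealInnerProductSpace ContDiff

namespace Pool.Agent.R245.WG

open Pool.Agent.R245.WB

namespace DSGaux

theorem scale (f : ℝ → ℝ) (c : ℝ) (i : ℕ) :
    iteratedDeriv i (fun x => f (c * x)) = fun x => c ^ i * iteratedDeriv i f (c * x) := by
  induction i with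
  | zero => simp
  | succ i ih =>
    rw [iteratedDeriv_succ, ih]
    funext x
    have h1 := deriv_comp_mul_left c (iteratedDeriv i f) x
    rw [deriv_const_mul_field, h1, iteratedDeriv_succ, smul_eq_mul, pow_succ]
    ring

/-- `sin √x / √x` -/
noncomputable def F1 (x : ℝ) : ℝ := Real.sin (Real.sqrt x) / Real.sqrt x

theorem F1_smooth {x : ℝ} (hx : 0 < x) : ContDiffAt ℝ ∞ F1 x := by
  unfold F1
  have h1 : ContDiffAt ℝ ∞ Real.sqrt x := Real.contDiffAt_sqrt hx.ne'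
  exact (Real.contDiff_sin.contDiffAt.comp x h1).div h1 (Real.sqrt_ne_zero'.2 hx)

theorem F1c_smooth {c x : ℝ} (hc : 0 < c) (hx : 0 < x) :
    ContDiffAt ℝ ∞ (fun x => F1 (c * x)) x := by
  have h1 : ContDiffAt ℝ ∞ (fun x : ℝ => c * x) x := by fun_prop
  exact (F1_smooth (mul_pos hc hx)).comp x h1

theorem W_smooth (γ : ℝ) {ρ : ℝ} (hρ : 0 < ρ) :
    ContDiffAt ℝ ∞ (fun ρ : ℝ => (1 + 4 * Real.pi ^ 2 * ρ) ^ γ) ρ := by
  apply ContDiffAt.rpow_const_of_ne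
  · fun_prop
  · positivity

theorem beta_smooth (γ : ℝ) {r : ℝ} (hr : 0 < r) :
    ContDiffAt ℝ ∞ (fun r : ℝ => (2 * Real.pi * r)⁻¹ * (1 + 4 * Real.pi ^ 2 * r ^ 2) ^ γ) r := by
  apply ContDiffAt.mul
  · apply ContDiffAt.inv
    · fun_prop
    · positivity
  · apply ContDiffAt.rpow_const_of_ne
    · fun_prop
    · positivity

theorem G_bound {γ c ρ t : ℝ} (hc : 0 < c) (hc2 : c ≤ 16 * Real.pi ^ 2) (hρ : 0 < ρ)
    (hρ4 : ρ ≤ 4) (ht : 1 ≤ t) (ht2 : t ≤ 2) (l : ℕ) (A B : ℕ → ℝ)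
    (hA : ∀ (i : ℕ) (x : ℝ), 0 < x → x ≤ 64 * Real.pi ^ 2 → |iteratedDeriv i F1 x| ≤ A i)
    (hB : ∀ (i : ℕ) (x : ℝ), 0 < x → x ≤ 4 →
      |iteratedDeriv i (fun ρ : ℝ => (1 + 4 * Real.pi ^ 2 * ρ) ^ γ) x| ≤ B i) :
    |iteratedDeriv l (fun ρ => t * (F1 (c * ρ) * (1 + 4 * Real.pi ^ 2 * ρ) ^ γ)) ρ| ≤
      2 * ∑ i ∈ Finset.range (l + 1),
        (l.choose i : ℝ) * ((16 * Real.pi ^ 2) ^ i * A i) * B (l - i) := by
  rw [iteratedDeriv_const_mul_field]
  have h1 := iteratedDeriv_mul (n := l) (x := ρ) (f := fun x => F1 (c * x))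
    (g := fun ρ : ℝ => (1 + 4 * Real.pi ^ 2 * ρ) ^ γ)
    ((F1c_smooth hc hρ).of_le (by exact_mod_cast le_top))
    ((W_smooth γ hρ).of_le (by exact_mod_cast le_top))
  have h2 : ((fun x => F1 (c * x)) * fun ρ : ℝ => (1 + 4 * Real.pi ^ 2 * ρ) ^ γ) =
      fun ρ => F1 (c * ρ) * (1 + 4 * Real.pi ^ 2 * ρ) ^ γ := rfl
  rw [h2] at h1
  rw [h1, abs_mul, abs_of_pos (by linarith : 0 < t)]
  have h3 : |∑ i ∈ Finset.range (l + 1), (l.choose i : ℝ) *
      iteratedDeriv i (fun x => F1 (c * x)) ρ *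
      iteratedDeriv (l - i) (fun ρ : ℝ => (1 + 4 * Real.pi ^ 2 * ρ) ^ γ) ρ| ≤
      ∑ i ∈ Finset.range (l + 1),
        (l.choose i : ℝ) * ((16 * Real.pi ^ 2) ^ i * A i) * B (l - i) := by
    refine (Finset.abs_sum_le_sum_abs _ _).trans (Finset.sum_le_sum fun i _ => ?_)
    rw [abs_mul, abs_mul, abs_of_nonneg (by positivity : (0 : ℝ) ≤ (l.choose i : ℝ)), scale]
    have h4 := hA i (c * ρ) (mul_pos hc hρ) (by nlinarith)
    have h5 := hB (l - i) ρ hρ hρ4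
    have h6 : c ^ i ≤ (16 * Real.pi ^ 2) ^ i := pow_le_pow_left₀ hc.le hc2 i
    rw [abs_mul, abs_of_nonneg (by positivity : 0 ≤ c ^ i)]
    have hA0 : 0 ≤ A i := (abs_nonneg _).trans h4
    refine mul_le_mul ?_ h5 (abs_nonneg _) (by positivity)
    refine mul_le_mul_of_nonneg_left ?_ (by positivity)
    exact mul_le_mul h6 h4 (abs_nonneg _) (by positivity)
  have h7 : 0 ≤ ∑ i ∈ Finset.range (l + 1),
        (l.choose i : ℝ) * ((16 * Real.pi ^ 2) ^ i * A i) * B (l - i) := (abs_nonneg _).trans h3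
  exact mul_le_mul ht2 h3 (abs_nonneg _) (by norm_num)

end DSGaux

open DSGaux in
theorem dsg_thm (h1 : S_DECG) (h2 : S_SYM) (h3 : S_CO) : S_DSG := by
  intro n s hn hs
  obtain ⟨γ, hγ⟩ : ∃ γ : ℝ, γ = (1 - s) / 2 := ⟨_, rfl⟩
  choose B hBpos hB using fun l => h2 γ l
  choose A hA using fun l => h3 l (64 * Real.pi ^ 2)
  have hA1 : ∀ (i : ℕ) (x : ℝ), 0 < x → x ≤ 64 * Real.pi ^ 2 → |iteratedDeriv i F1 x| ≤ |A i| :=
    fun i x hx hx2 => ((hA i x hx hx2).2).trans (le_abs_self _)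
  obtain ⟨S, hS⟩ : ∃ S : ℕ → ℝ, S = fun l => 2 * ∑ i ∈ Finset.range (l + 1),
        (l.choose i : ℝ) * ((16 * Real.pi ^ 2) ^ i * |A i|) * B (l - i) := ⟨_, rfl⟩
  have hS0 : ∀ l, 0 ≤ S l := by
    intro l
    rw [hS]
    refine mul_nonneg (by norm_num) (Finset.sum_nonneg fun i _ => ?_)
    have := (hBpos (l - i)).le
    positivity
  obtain ⟨C₀, hC₀⟩ : ∃ C₀ : ℝ, C₀ = 1 + ∑ l ∈ Finset.range (2 * n + 1), (B l + S l) := ⟨_, rfl⟩
  have hl : ∀ l : ℕ, l ≤ 2 * n → B l + S l ≤ C₀ := by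
    intro l hl
    have h4 := Finset.single_le_sum (f := fun l => B l + S l)
      (fun l _ => add_nonneg (hBpos l).le (hS0 l)) (Finset.mem_range.2 (by omega : l < 2 * n + 1))
    rw [hC₀]
    linarith
  have hC₀pos : 0 < C₀ := by
    rw [hC₀]
    have := Finset.sum_nonneg fun l (_ : l ∈ Finset.range (2 * n + 1)) =>
      add_nonneg (hBpos l).le (hS0 l)
    linarith
  obtain ⟨C, hC, hmain⟩ := h1 n s C₀ hn hs hC₀pos
  refine ⟨C, hC, fun t ht ht2 => ?_⟩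
  have ht0 : 0 < t := by linarith
  have hpi := Real.pi_pos
  refine hmain t (ms s t) (fun r => (2 * Real.pi * r)⁻¹ * (1 + 4 * Real.pi ^ 2 * r ^ 2) ^ γ)
    ht ht2 ?_ (Or.inr ?_) ?_ ?_
  · intro r hr
    exact (beta_smooth γ hr).contDiffWithinAt
  · intro r _
    unfold ms
    rw [← hγ]
    ring
  · intro l hl2 r hr
    have h4 := ((hB l).1 r hr).2
    have h5 : 2 * γ - 1 - (l : ℝ) = -s - l := by rw [hγ]; ring
    rw [h5] at h4
    refine h4.trans (mul_le_mul_of_nonneg_right ?_ (by positivity))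
    have := hl l hl2
    have := hS0 l
    linarith
  · refine ⟨fun ρ => t * (F1 (4 * Real.pi ^ 2 * t ^ 2 * ρ) * (1 + 4 * Real.pi ^ 2 * ρ) ^ γ),
      ?_, ?_, ?_⟩
    · intro ρ hρ
      have hρ' : 0 < ρ := hρ
      exact ((contDiffAt_const.mul ((F1c_smooth (by positivity) hρ').mul
        (W_smooth γ hρ')))).contDiffWithinAt
    · intro r hr
      unfold ms F1
      have h4 : Real.sqrt (4 * Real.pi ^ 2 * t ^ 2 * r ^ 2) = 2 * Real.pi * (t * r) := by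
        have : 4 * Real.pi ^ 2 * t ^ 2 * r ^ 2 = (2 * Real.pi * (t * r)) ^ 2 := by ring
        rw [this, Real.sqrt_sq (by positivity)]
      simp only
      rw [h4, ← hγ]
      field_simp
    · intro l hl2 ρ hρ hρ4
      have ht4 : t ^ 2 ≤ 4 := by nlinarith
      have hc16 : 4 * Real.pi ^ 2 * t ^ 2 ≤ 16 * Real.pi ^ 2 := by
        have := mul_le_mul_of_nonneg_left ht4 (by positivity : 0 ≤ 4 * Real.pi ^ 2)
        linarith
      have h4 := G_bound (γ := γ) (c := 4 * Real.pi ^ 2 * t ^ 2) (by positivity)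
        hc16 hρ hρ4 ht ht2 l (fun i => |A i|) B hA1
        (fun i x hx hx2 => (hB i).2 x hx hx2)
      refine h4.trans ?_
      have h5 := hl l hl2
      have h6 := (hBpos l).le
      have h7 : S l = 2 * ∑ i ∈ Finset.range (l + 1),
        (l.choose i : ℝ) * ((16 * Real.pi ^ 2) ^ i * |A i|) * B (l - i) := by rw [hS]
      rw [← h7]
      linarith

end Pool.Agent.R245.WG
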