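import Pool.Agent.R245.WG.Sumg
import Pool.Agent.R245.WB.Fin

set_option autoImplicit false

/-! Final assembly for MP_ee74d2_an (project WG). -/

open MeasureTheory Set
open scoped ENNReal RealInnerProductSpace FourierTransform SchwartzMap

namespace Pool.Agent.R245.WG

open Pool.Agent.R245.WB

/-- part (1) of the theorem -/
theorem part1 (hS : S_SUMG) (hc : S_DCG) (hd : S_DSG) (k n : ℕ) (p s α : ℝ) (hk : 1 ≤ k)
    (hn : 1 ≤ n) (hp : 2 < p) (hs : 0 < s) (hα : 0 < α)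
    (h1 : ((k : ℝ) + n) * (1 / 2 - 1 / p) - α < s)
    (h2 : ((n : ℝ) - 1) * (1 / 2 - 1 / p) < s) :
    ∃ C : ℝ, 0 < C ∧ ∀ (N : ℕ) (f₀ f₁ : Fin N → 𝓢(E (k + n), ℂ))
      (v₀ v₁ : Fin N → OrthonormalBasis (Fin k ⊕ Fin n) ℝ (E (k + n))) (t : ℝ), 1 ≤ t → t ≤ 2 →
      LN p (wave s ((∑ ν, f₀ ν : 𝓢(E (k + n), ℂ)) : E (k + n) → ℂ)
        ((∑ ν, f₁ ν : 𝓢(E (k + n), ℂ)) : E (k + n) → ℂ) t) ≤
      ENNReal.ofReal C * ∑ ν, (mix α p (v₀ ν) (f₀ ν : E (k + n) → ℂ) +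
        mix α p (v₁ ν) (f₁ ν : E (k + n) → ℂ)) := by
  obtain ⟨C0, hC0, hc⟩ := hc n s hn hs.le
  obtain ⟨C1, hC1, hd⟩ := hd n s hn hs.le
  obtain ⟨D0, hD0, hS0⟩ := hS k n p s α hk hn hp hs hα h1 h2 C0 hC0
  obtain ⟨D1, hD1, hS1⟩ := hS k n p s α hk hn hp hs hα h1 h2 C1 hC1
  refine ⟨max (D0 ^ (1 / p)) (D1 ^ (1 / p)), by positivity, ?_⟩
  intro N f₀ f₁ v₀ v₁ t ht1 ht2
  obtain ⟨g0, hg0⟩ := hc t ht1 ht2
  obtain ⟨g1, hg1⟩ := hd t ht1 ht2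
  have hdim : 1 ≤ k + n := by omega
  have hb0 : ∀ r, 0 < r → |mc s t r| ≤ max C0 C1 := fun r hr =>
    (sym_bound hC0 (dec_of hn hg0) r hr).trans (le_max_left _ _)
  have hb1 : ∀ r, 0 < r → |ms s t r| ≤ max C0 C1 := fun r hr =>
    (sym_bound hC1 (dec_of hn hg1) r hr).trans (le_max_right _ _)
  have hw : wave s ((∑ ν, f₀ ν : 𝓢(E (k + n), ℂ)) : E (k + n) → ℂ)
      ((∑ ν, f₁ ν : 𝓢(E (k + n), ℂ)) : E (k + n) → ℂ) t =
      fun z => (∑ ν, mu (mc s t) (f₀ ν : E (k + n) → ℂ) z) +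
        ∑ ν, mu (ms s t) (f₁ ν : E (k + n) → ℂ) z := by
    funext z
    rw [wave_eq s t hb0 hb1 hdim, mu_sum (meas_mc s t) hb0 hdim, mu_sum (meas_ms s t) hb1 hdim]
  have hm0 : ∀ ν, AEMeasurable (mu (mc s t) (f₀ ν : E (k + n) → ℂ)) := fun ν =>
    (cont_inv (int_sym (meas_mc s t) hb0 (f₀ ν) hdim)).measurable.aemeasurable
  have hm1 : ∀ ν, AEMeasurable (mu (ms s t) (f₁ ν : E (k + n) → ℂ)) := fun ν =>
    (cont_inv (int_sym (meas_ms s t) hb1 (f₁ ν) hdim)).measurable.aemeasurable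
  rw [hw]
  refine (LN_add (by linarith) (Finset.aemeasurable_fun_sum _ fun i _ => hm0 i)
    (Finset.aemeasurable_fun_sum _ fun i _ => hm1 i)).trans ?_
  refine (add_le_add (LN_sum (by linarith) _ _ hm0) (LN_sum (by linarith) _ _ hm1)).trans ?_
  rw [← Finset.sum_add_distrib, Finset.mul_sum]
  refine Finset.sum_le_sum fun ν _ => ?_
  rw [mul_add]
  refine add_le_add ?_ ?_
  · refine (one_bd hp hD0 (hS0 t _ g0 ht1 ht2 hg0) (v₀ ν) (f₀ ν)).trans ?_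
    gcongr
    exact le_max_left _ _
  · refine (one_bd hp hD1 (hS1 t _ g1 ht1 ht2 hg1) (v₁ ν) (f₁ ν)).trans ?_
    gcongr
    exact le_max_right _ _

theorem part2 (hS : S_SUMG) (hc : S_DCG) (hd : S_DSG) (k n : ℕ) (p s α : ℝ) (hk : 1 ≤ k)
    (hn : 1 ≤ n) (hp : 2 < p) (hs : 0 < s) (hα : 0 < α)
    (h1 : ((k : ℝ) + n) * (1 / 2 - 1 / p) - α < s)
    (h2 : ((n : ℝ) - 1) * (1 / 2 - 1 / p) < s) :
    ∃ C : ℝ, 0 < C ∧ ∀ (Λ : ℝ), 0 < Λ → ∀ (f₀ f₁ : 𝓢(E (k + n), ℂ)) (t : ℝ), 1 ≤ t → t ≤ 2 →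
      Reg (k := k) (n := n) α p Λ f₀ → Reg (k := k) (n := n) α p Λ f₁ →
      LN p (wave s (f₀ : E (k + n) → ℂ) (f₁ : E (k + n) → ℂ) t) ≤
      ENNReal.ofReal (C * Λ ^ (3 / 2 : ℝ)) *
        (LN p (f₀ : E (k + n) → ℂ) + LN p (f₁ : E (k + n) → ℂ)) := by
  obtain ⟨C, hC, h⟩ := part1 hS hc hd k n p s α hk hn hp hs hα h1 h2
  refine ⟨C, hC, ?_⟩
  intro Λ hΛ f₀ f₁ t ht1 ht2 hf0 hf1
  obtain ⟨N0, g0, v0, e0, r0, s0⟩ := hf0
  obtain ⟨N1, g1, v1, e1, r1, s1⟩ := hf1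
  -- one datum at a time
  have key : ∀ (N : ℕ) (g : Fin N → 𝓢(E (k + n), ℂ))
      (v : Fin N → OrthonormalBasis (Fin k ⊕ Fin n) ℝ (E (k + n))) (f : 𝓢(E (k + n), ℂ)),
      (∀ ν x, bes k α (slc (v ν) (g ν : E (k + n) → ℂ) x) ≤
        ENNReal.ofReal Λ * (∫⁻ y : E k, ‖slc (v ν) (g ν : E (k + n) → ℂ) x y‖ₑ ^ p) ^ (2 / p)) →
      ∑ ν, LN p (g ν : E (k + n) → ℂ) ≤ ENNReal.ofReal Λ * LN p (f : E (k + n) → ℂ) →
      ENNReal.ofReal C * ∑ ν, mix α p (v ν) (g ν : E (k + n) → ℂ) ≤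
        ENNReal.ofReal (C * Λ ^ (3 / 2 : ℝ)) * LN p (f : E (k + n) → ℂ) := by
    intro N g v f hr hsum
    have a1 : ∑ ν, mix α p (v ν) (g ν : E (k + n) → ℂ) ≤
        ENNReal.ofReal (Λ ^ (1 / 2 : ℝ)) * ∑ ν, LN p (g ν : E (k + n) → ℂ) := by
      rw [Finset.mul_sum]
      exact Finset.sum_le_sum fun ν _ => mix_reg hp hΛ (v ν) (g ν) (hr ν)
    calc ENNReal.ofReal C * ∑ ν, mix α p (v ν) (g ν : E (k + n) → ℂ)
        ≤ ENNReal.ofReal C * (ENNReal.ofReal (Λ ^ (1 / 2 : ℝ)) *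
            (ENNReal.ofReal Λ * LN p (f : E (k + n) → ℂ))) := by
          gcongr
          exact a1.trans (by gcongr)
      _ = _ := by
          rw [← mul_assoc, ← mul_assoc, ← ENNReal.ofReal_mul hC.le,
            ← ENNReal.ofReal_mul (by positivity)]
          congr 2
          rw [mul_assoc]
          congr 1
          nth_rewrite 2 [← Real.rpow_one Λ]
          rw [← Real.rpow_add hΛ]
          norm_num
  -- combine: the data with N0 + N1 pieces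
  have hz0 : ∑ ν, (Fin.append g0 (fun _ : Fin N1 => (0 : 𝓢(E (k + n), ℂ)))) ν = f₀ := by
    rw [Fin.sum_univ_add, e0]
    simp
  have hz1 : ∑ ν, (Fin.append (fun _ : Fin N0 => (0 : 𝓢(E (k + n), ℂ))) g1) ν = f₁ := by
    rw [Fin.sum_univ_add, e1]
    simp
  have hh := h (N0 + N1) (Fin.append g0 (fun _ : Fin N1 => (0 : 𝓢(E (k + n), ℂ))))
    (Fin.append (fun _ : Fin N0 => (0 : 𝓢(E (k + n), ℂ))) g1) (Fin.append v0 v1)
    (Fin.append v0 v1) t ht1 ht2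
  rw [hz0, hz1] at hh
  refine hh.trans ?_
  have hmix0 : ∀ v : OrthonormalBasis (Fin k ⊕ Fin n) ℝ (E (k + n)),
      mix α p v ((0 : 𝓢(E (k + n), ℂ)) : E (k + n) → ℂ) = 0 := by
    intro v
    have hp0 : 0 < p := by linarith
    have hb : ∀ x : E n, bes k α (slc v ((0 : 𝓢(E (k + n), ℂ)) : E (k + n) → ℂ) x) = 0 := by
      intro x
      unfold bes slc
      simp
    unfold mix
    simp only [hb]
    rw [ENNReal.zero_rpow_of_pos (by positivity), lintegral_zero,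
      ENNReal.zero_rpow_of_pos (by positivity)]
  rw [Fin.sum_univ_add]
  simp only [Fin.append_left, Fin.append_right, hmix0, add_zero, zero_add]
  rw [mul_add, mul_add]
  exact add_le_add (key N0 g0 v0 f₀ r0 s0) (key N1 g1 v1 f₁ r1 s1)

end Pool.Agent.R245.WG
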