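import Pool.Agent.R245.WG.Stm

set_option autoImplicit false

/-! # MP_ee74d2_an, project WG, piece HI: high frequency iterates -/

open MeasureTheory Set Filter Topology
open scoped ENNReal RealInnerProductSpace ContDiff

namespace Pool.Agent.R245.WG

open Pool.Agent.R245.WB

namespace HIaux

/-- smooth on `(0,∞)`, zero outside `[lam/2, 2 lam]`, bounded by `K` -/
def B (lam K : ℝ) (b : ℝ → ℝ) : Prop :=
  ContDiffOn ℝ ∞ b (Ioi 0) ∧ (∀ r, 0 < r → (r < lam / 2 ∨ 2 * lam < r) → b r = 0) ∧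
    ∀ r, 0 < r → |b r| ≤ K

/-- the `l`-th derivative is bounded by `K / lam ^ l`, `l ≤ L` -/
def Cl (lam : ℝ) : ℕ → ℝ → (ℝ → ℝ) → Prop
  | 0, K, b => B lam K b
  | L + 1, K, b => B lam K b ∧ Cl lam L (K / lam) (deriv b)

lemma eq_nhds {b c : ℝ → ℝ} (h : ∀ r, 0 < r → b r = c r) {r : ℝ} (hr : 0 < r) : b =ᶠ[𝓝 r] c :=
  Filter.eventually_of_mem (Ioi_mem_nhds hr) h

lemma B_congr {lam K : ℝ} {b c : ℝ → ℝ} (h : ∀ r, 0 < r → b r = c r) (hb : B lam K b) :
    B lam K c := by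
  refine ⟨hb.1.congr fun r hr => (h r hr).symm, fun r hr h2 => ?_, fun r hr => ?_⟩
  · rw [← h r hr]
    exact hb.2.1 r hr h2
  · rw [← h r hr]
    exact hb.2.2 r hr

lemma Cl_congr {lam : ℝ} (L : ℕ) : ∀ {K : ℝ} {b c : ℝ → ℝ}, (∀ r, 0 < r → b r = c r) →
    Cl lam L K b → Cl lam L K c := by
  induction L with
  | zero => intro K b c h hb; exact B_congr h hb
  | succ L ih =>
    intro K b c h hb
    exact ⟨B_congr h hb.1, ih (fun r hr => (eq_nhds h hr).deriv_eq) hb.2⟩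

lemma Cl_B {lam K : ℝ} {L : ℕ} {b : ℝ → ℝ} (h : Cl lam L K b) : B lam K b := by
  cases L with
  | zero => exact h
  | succ L => exact h.1

lemma Cl_mono {lam : ℝ} (hl : 0 < lam) (L : ℕ) : ∀ {K K' : ℝ} {b : ℝ → ℝ}, K ≤ K' →
    Cl lam L K b → Cl lam L K' b := by
  induction L with
  | zero =>
    intro K K' b h hb
    exact ⟨hb.1, hb.2.1, fun r hr => (hb.2.2 r hr).trans h⟩
  | succ L ih =>
    intro K K' b h hb
    exact ⟨⟨hb.1.1, hb.1.2.1, fun r hr => (hb.1.2.2 r hr).trans h⟩,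
      ih (div_le_div_of_nonneg_right h hl.le) hb.2⟩

lemma Cl_down {lam : ℝ} (L : ℕ) : ∀ {K : ℝ} {b : ℝ → ℝ}, Cl lam (L + 1) K b → Cl lam L K b := by
  induction L with
  | zero => intro K b hb; exact hb.1
  | succ L ih => intro K b hb; exact ⟨hb.1, ih hb.2⟩

lemma B_diff {lam K : ℝ} {b : ℝ → ℝ} (h : B lam K b) {r : ℝ} (hr : 0 < r) :
    DifferentiableAt ℝ b r :=
  (h.1.contDiffAt (Ioi_mem_nhds hr)).differentiableAt (by simp)

lemma Cl_add {lam : ℝ} (L : ℕ) : ∀ {K K' : ℝ} {b c : ℝ → ℝ}, Cl lam L K b → Cl lam L K' c →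
    Cl lam L (K + K') (fun r => b r + c r) := by
  have hB : ∀ {K K' : ℝ} {b c : ℝ → ℝ}, B lam K b → B lam K' c →
      B lam (K + K') (fun r => b r + c r) := by
    intro K K' b c hb hc
    refine ⟨hb.1.add hc.1, fun r hr h => ?_, fun r hr => ?_⟩
    · beta_reduce
      rw [hb.2.1 r hr h, hc.2.1 r hr h, add_zero]
    · exact (abs_add_le _ _).trans (add_le_add (hb.2.2 r hr) (hc.2.2 r hr))
  induction L with
  | zero => intro K K' b c hb hc; exact hB hb hc
  | succ L ih =>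
    intro K K' b c hb hc
    refine ⟨hB hb.1 hc.1, ?_⟩
    have h1 := ih hb.2 hc.2
    rw [← add_div] at h1
    refine Cl_congr L (fun r hr => ?_) h1
    exact (deriv_fun_add (B_diff hb.1 hr) (B_diff hc.1 hr)).symm

lemma Cl_smul {lam : ℝ} (k : ℝ) (L : ℕ) : ∀ {K : ℝ} {b : ℝ → ℝ}, Cl lam L K b →
    Cl lam L (|k| * K) (fun r => k * b r) := by
  have hB : ∀ {K : ℝ} {b : ℝ → ℝ}, B lam K b → B lam (|k| * K) (fun r => k * b r) := by
    intro K b hb
    refine ⟨contDiffOn_const.mul hb.1, fun r hr h => ?_, fun r hr => ?_⟩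
    · beta_reduce
      rw [hb.2.1 r hr h, mul_zero]
    · rw [abs_mul]
      exact mul_le_mul_of_nonneg_left (hb.2.2 r hr) (abs_nonneg _)
  induction L with
  | zero => intro K b hb; exact hB hb
  | succ L ih =>
    intro K b hb
    refine ⟨hB hb.1, ?_⟩
    have h1 := ih hb.2
    rw [← mul_div_assoc] at h1
    refine Cl_congr L (fun r hr => ?_) h1
    exact (deriv_const_mul k (B_diff hb.1 hr)).symm

lemma B_inv {lam K : ℝ} (hl : 0 < lam) (hK : 0 ≤ K) {b : ℝ → ℝ} (hb : B lam K b) :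
    B lam (2 * K / lam) (fun r => r⁻¹ * b r) := by
  refine ⟨ContDiffOn.mul (contDiffOn_id.inv fun r hr => (ne_of_gt hr)) hb.1,
    fun r hr h => by beta_reduce; rw [hb.2.1 r hr h, mul_zero], fun r hr => ?_⟩
  beta_reduce
  by_cases h : r < lam / 2
  · rw [hb.2.1 r hr (Or.inl h), mul_zero, abs_zero]
    positivity
  · rw [abs_mul, abs_of_pos (inv_pos.2 hr)]
    have h1 : r⁻¹ ≤ 2 / lam := by
      rw [inv_le_comm₀ hr (by positivity), inv_div]
      linarith
    calc r⁻¹ * |b r| ≤ 2 / lam * K :=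
          mul_le_mul h1 (hb.2.2 r hr) (abs_nonneg _) (by positivity)
      _ = 2 * K / lam := by ring

lemma Cl_inv (L : ℕ) : ∃ C : ℝ, 1 ≤ C ∧ ∀ {lam K : ℝ} {b : ℝ → ℝ}, 0 < lam → 0 ≤ K →
    Cl lam L K b → Cl lam L (C * K / lam) (fun r => r⁻¹ * b r) := by
  induction L with
  | zero => exact ⟨2, by norm_num, fun hl hK hb => B_inv hl hK hb⟩
  | succ L ih =>
    obtain ⟨C, hC1, hC⟩ := ih
    refine ⟨2 + C * (1 + C), by nlinarith, ?_⟩
    intro lam K b hl hK hb
    have h0 : Cl lam L (C * K / lam) (fun r => r⁻¹ * b r) := hC hl hK (Cl_down L hb)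
    have h1 := Cl_add L hb.2 (Cl_smul (-1) L h0)
    have h2 := hC hl (by positivity) h1
    refine ⟨?_, ?_⟩
    · have h3 := B_inv hl hK hb.1
      refine ⟨h3.1, h3.2.1, fun r hr => (h3.2.2 r hr).trans ?_⟩
      refine div_le_div_of_nonneg_right ?_ hl.le
      have : 0 ≤ C * (1 + C) * K := by positivity
      nlinarith
    · refine Cl_congr L (fun r hr => ?_) (Cl_mono hl L ?_ h2)
      · have hd : HasDerivAt (fun r => r⁻¹ * b r) (-(r ^ 2)⁻¹ * b r + r⁻¹ * deriv b r) r :=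
          (hasDerivAt_inv hr.ne').mul (B_diff hb.1 hr).hasDerivAt
        rw [hd.deriv]
        have hr' := hr.ne'
        field_simp
        ring
      · rw [abs_neg, abs_one, one_mul]
        have e1 : C * (K / lam + C * K / lam) / lam = (C * (1 + C) * K) / lam / lam := by ring
        rw [e1]
        refine div_le_div_of_nonneg_right (div_le_div_of_nonneg_right ?_ hl.le) hl.le
        nlinarith

lemma Cl_of (lam : ℝ) (L : ℕ) : ∀ (K : ℝ) (b : ℝ → ℝ), ContDiff ℝ ∞ b →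
    (∀ r, r < lam / 2 ∨ 2 * lam < r → b r = 0) →
    (∀ l : ℕ, l ≤ L → ∀ r, |iteratedDeriv l b r| ≤ K / lam ^ l) → Cl lam L K b := by
  have hB : ∀ (K : ℝ) (b : ℝ → ℝ), ContDiff ℝ ∞ b →
    (∀ r, r < lam / 2 ∨ 2 * lam < r → b r = 0) → (∀ r, |b r| ≤ K) → B lam K b :=
    fun K b h1 h2 h3 => ⟨h1.contDiffOn, fun r _ h => h2 r h, fun r _ => h3 r⟩
  induction L with
  | zero =>
    intro K b h1 h2 h3
    refine hB K b h1 h2 fun r => ?_
    have := h3 0 le_rfl r
    simpa using this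
  | succ L ih =>
    intro K b h1 h2 h3
    refine ⟨hB K b h1 h2 fun r => ?_, ih _ _ ?_ ?_ ?_⟩
    · have := h3 0 (Nat.zero_le _) r
      simpa using this
    · exact (contDiff_infty_iff_deriv.1 h1).2
    · rintro r (hr | hr)
      · have e : b =ᶠ[𝓝 r] fun _ => 0 :=
          Filter.eventually_of_mem (Iio_mem_nhds hr) fun x hx => h2 x (Or.inl hx)
        rw [e.deriv_eq]
        simp
      · have e : b =ᶠ[𝓝 r] fun _ => 0 :=
          Filter.eventually_of_mem (Ioi_mem_nhds hr) fun x hx => h2 x (Or.inr hx)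
        rw [e.deriv_eq]
        simp
    · intro l hl r
      have := h3 (l + 1) (by omega) r
      rw [iteratedDeriv_succ'] at this
      rw [div_div, ← pow_succ']
      exact this

/-- `cos(2πtr) b + sin(2πtr) c` -/
noncomputable def tg (t : ℝ) (b c : ℝ → ℝ) (r : ℝ) : ℝ :=
  Real.cos (2 * Real.pi * (t * r)) * b r + Real.sin (2 * Real.pi * (t * r)) * c r

lemma tg_deriv (t : ℝ) {b c : ℝ → ℝ} {r : ℝ} (hb : DifferentiableAt ℝ b r)
    (hc : DifferentiableAt ℝ c r) :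
    deriv (tg t b c) r = tg t (fun r => deriv b r + 2 * Real.pi * t * c r)
      (fun r => deriv c r - 2 * Real.pi * t * b r) r := by
  have hl : HasDerivAt (fun r : ℝ => 2 * Real.pi * (t * r)) (2 * Real.pi * t) r := by
    have := ((hasDerivAt_id r).const_mul t).const_mul (2 * Real.pi)
    simpa [mul_assoc] using this
  have h1 := (hl.cos.mul hb.hasDerivAt).add (hl.sin.mul hc.hasDerivAt)
  have h2 : deriv (tg t b c) r = _ := h1.deriv
  rw [h2]
  unfold tg
  ring

lemma H_congr (n : ℕ) (t a : ℝ) {g g' : ℝ → ℝ} {r : ℝ} (h : g =ᶠ[𝓝 r] g') :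
    H n t a g r = H n t a g' r := by
  unfold H
  rw [h.deriv.deriv_eq, h.deriv_eq, h.eq_of_nhds]

/-- the new first coefficient -/
noncomputable def nb (n : ℕ) (om a : ℝ) (b c : ℝ → ℝ) (r : ℝ) : ℝ :=
  om ^ 2 * a ^ 2 * (r⁻¹ * (r⁻¹ * b r)) +
  ((deriv (deriv b) r + 2 * om * deriv c r) +
  (-(a ^ 2) * (r⁻¹ * (r⁻¹ * (deriv (deriv b) r + 2 * om * deriv c r))) +
  (((n : ℝ) - 1) * (r⁻¹ * (deriv b r + om * c r)) +
  a ^ 2 * (r⁻¹ * (r⁻¹ * (r⁻¹ * (deriv b r + om * c r)))))))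

lemma H_tg (n : ℕ) (t a : ℝ) {b c : ℝ → ℝ} {lam K K' : ℝ} {L : ℕ}
    (hb : Cl lam (L + 2) K b) (hc : Cl lam (L + 2) K' c) {r : ℝ} (hr : 0 < r) :
    H n t a (tg t b c) r = tg t (nb n (2 * Real.pi * t) a b c)
      (nb n (-(2 * Real.pi * t)) a c b) r := by
  have d1 : ∀ x, 0 < x → DifferentiableAt ℝ b x := fun x hx => B_diff hb.1 hx
  have d2 : ∀ x, 0 < x → DifferentiableAt ℝ c x := fun x hx => B_diff hc.1 hx
  have d3 : ∀ x, 0 < x → DifferentiableAt ℝ (deriv b) x := fun x hx => B_diff hb.2.1 hx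
  have d4 : ∀ x, 0 < x → DifferentiableAt ℝ (deriv c) x := fun x hx => B_diff hc.2.1 hx
  have e1 : deriv (tg t b c) =ᶠ[𝓝 r] tg t (fun r => deriv b r + 2 * Real.pi * t * c r)
      (fun r => deriv c r - 2 * Real.pi * t * b r) :=
    Filter.eventually_of_mem (Ioi_mem_nhds hr) fun x hx => tg_deriv t (d1 x hx) (d2 x hx)
  have f1 : HasDerivAt (fun r => deriv b r + 2 * Real.pi * t * c r)
      (deriv (deriv b) r + 2 * Real.pi * t * deriv c r) r :=
    (d3 r hr).hasDerivAt.add ((d2 r hr).hasDerivAt.const_mul _)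
  have f2 : HasDerivAt (fun r => deriv c r - 2 * Real.pi * t * b r)
      (deriv (deriv c) r - 2 * Real.pi * t * deriv b r) r :=
    (d4 r hr).hasDerivAt.sub ((d1 r hr).hasDerivAt.const_mul _)
  have e2 : deriv (deriv (tg t b c)) r = tg t
      (fun _ => (deriv (deriv b) r + 2 * Real.pi * t * deriv c r) +
        2 * Real.pi * t * (deriv c r - 2 * Real.pi * t * b r))
      (fun _ => (deriv (deriv c) r - 2 * Real.pi * t * deriv b r) -
        2 * Real.pi * t * (deriv b r + 2 * Real.pi * t * c r)) r := by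
    rw [e1.deriv_eq, tg_deriv t f1.differentiableAt f2.differentiableAt]
    unfold tg
    beta_reduce
    rw [f1.deriv, f2.deriv]
  unfold H
  rw [e2, e1.eq_of_nhds]
  unfold tg nb
  have hr' := hr.ne'
  field_simp
  ring

lemma nb_Cl (n L : ℕ) : ∃ C : ℝ, 0 < C ∧ ∀ {om lam K a : ℝ} {b c : ℝ → ℝ}, |om| ≤ 13 →
    1 ≤ lam → 0 ≤ K → 0 < a → a ≤ 2 * lam → Cl lam (L + 2) K b → Cl lam (L + 2) K c →
    Cl lam L (C * K * (a ^ 2 / lam ^ 2 + 1 / lam)) (nb n om a b c) := by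
  obtain ⟨C, hC1, hC⟩ := Cl_inv L
  refine ⟨169 * C ^ 2 + 27 + 4 * C ^ 2 * 27 + n * C * 14 + C ^ 3 * 14 + C * 14, by positivity, ?_⟩
  intro om lam K a b c hom hlam hK ha hal hb hc
  have hl0 : 0 < lam := by linarith
  set δ : ℝ := a ^ 2 / lam ^ 2 + 1 / lam with hδ
  have hδ1 : a ^ 2 / lam ^ 2 ≤ δ := by
    rw [hδ]
    have : 0 ≤ 1 / lam := by positivity
    linarith
  have hδ2 : 1 / lam ≤ δ := by
    rw [hδ]
    have : 0 ≤ a ^ 2 / lam ^ 2 := by positivity
    linarith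
  have hδ0 : 0 < δ := by positivity
  have hil : 1 / lam ≤ 1 := by
    rw [div_le_one hl0]
    exact hlam
  have hil0 : 0 < 1 / lam := by positivity
  have ha4 : a ^ 2 / lam ^ 2 ≤ 4 := by
    rw [div_le_iff₀ (by positivity)]
    nlinarith
  have ha0 : 0 ≤ a ^ 2 / lam ^ 2 := by positivity
  have hom0 := abs_nonneg om
  have hom2 : om ^ 2 ≤ 169 := by
    rw [← sq_abs]
    nlinarith
  -- pieces
  have b0 : Cl lam L K b := Cl_down L (Cl_down (L + 1) hb)
  have c0 : Cl lam L K c := Cl_down L (Cl_down (L + 1) hc)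
  have b1 : Cl lam L (K / lam) (deriv b) := Cl_down L hb.2
  have c1 : Cl lam L (K / lam) (deriv c) := Cl_down L hc.2
  have b2 : Cl lam L (K / lam / lam) (deriv (deriv b)) := hb.2.2
  -- first
  have t1 := Cl_smul (om ^ 2 * a ^ 2) L (hC hl0 (by positivity) (hC hl0 hK b0))
  -- second
  have s2 : Cl lam L (27 * K * (1 / lam)) (fun r => deriv (deriv b) r + 2 * om * deriv c r) := by
    refine Cl_mono hl0 L ?_ (Cl_add L b2 (Cl_smul (2 * om) L c1))
    rw [abs_mul, abs_two]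
    have e1 : K / lam / lam = K * (1 / lam) * (1 / lam) := by ring
    have e2 : 2 * |om| * (K / lam) = 2 * |om| * (K * (1 / lam)) := by ring
    rw [e1, e2]
    have p0 : 0 ≤ K * (1 / lam) := by positivity
    nlinarith
  have t3 := Cl_smul (-(a ^ 2)) L (hC hl0 (by positivity) (hC hl0 (by positivity) s2))
  -- third
  have s3 : Cl lam L (14 * K) (fun r => deriv b r + om * c r) := by
    refine Cl_mono hl0 L ?_ (Cl_add L b1 (Cl_smul om L c0))
    have e1 : K / lam = K * (1 / lam) := by ring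
    rw [e1]
    nlinarith
  have t4 := Cl_smul ((n : ℝ) - 1) L (hC hl0 (by positivity) s3)
  have t5 := Cl_smul (a ^ 2) L (hC hl0 (by positivity) (hC hl0 (by positivity)
    (hC hl0 (by positivity) s3)))
  have h := Cl_add L t1 (Cl_add L s2 (Cl_add L t3 (Cl_add L t4 t5)))
  refine Cl_mono hl0 L ?_ h
  rw [abs_neg, abs_of_nonneg (show (0 : ℝ) ≤ om ^ 2 * a ^ 2 by positivity),
    abs_of_nonneg (show (0 : ℝ) ≤ a ^ 2 by positivity)]
  have hC0 : 0 < C := by linarith
  have q1 : om ^ 2 * a ^ 2 * (C * (C * K / lam) / lam) ≤ 169 * C ^ 2 * K * δ := by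
    have e1 : om ^ 2 * a ^ 2 * (C * (C * K / lam) / lam) =
        om ^ 2 * (C ^ 2 * K) * (a ^ 2 / lam ^ 2) := by
      field_simp
    rw [e1]
    calc om ^ 2 * (C ^ 2 * K) * (a ^ 2 / lam ^ 2) ≤ 169 * (C ^ 2 * K) * δ := by
          refine mul_le_mul (mul_le_mul_of_nonneg_right hom2 (by positivity)) hδ1 ha0
            (by positivity)
      _ = _ := by ring
  have q2 : 27 * K * (1 / lam) ≤ 27 * K * δ := mul_le_mul_of_nonneg_left hδ2 (by positivity)
  have q3 : a ^ 2 * (C * (C * (27 * K * (1 / lam)) / lam) / lam) ≤ 4 * C ^ 2 * 27 * K * δ := by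
    have e1 : a ^ 2 * (C * (C * (27 * K * (1 / lam)) / lam) / lam) =
        (a ^ 2 / lam ^ 2) * (C ^ 2 * 27 * K) * (1 / lam) := by
      field_simp
    rw [e1]
    calc (a ^ 2 / lam ^ 2) * (C ^ 2 * 27 * K) * (1 / lam) ≤ 4 * (C ^ 2 * 27 * K) * δ := by
          refine mul_le_mul (mul_le_mul_of_nonneg_right ha4 (by positivity)) hδ2 hil0.le
            (by positivity)
      _ = _ := by ring
  have q4 : |(n : ℝ) - 1| * (C * (14 * K) / lam) ≤ (n * C * 14 + C * 14) * K * δ := by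
    have e0 : |(n : ℝ) - 1| ≤ n + 1 := by
      rw [abs_le]
      have : (0 : ℝ) ≤ n := Nat.cast_nonneg n
      constructor <;> linarith
    have e1 : C * (14 * K) / lam = C * (14 * K) * (1 / lam) := by ring
    rw [e1]
    calc |(n : ℝ) - 1| * (C * (14 * K) * (1 / lam)) ≤ ((n : ℝ) + 1) * (C * (14 * K) * δ) := by
          refine mul_le_mul e0 (mul_le_mul_of_nonneg_left hδ2 (by positivity)) (by positivity)
            (by positivity)
      _ = _ := by ring
  have q5 : a ^ 2 * (C * (C * (C * (14 * K) / lam) / lam) / lam) ≤ C ^ 3 * 14 * K * δ := by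
    have e1 : a ^ 2 * (C * (C * (C * (14 * K) / lam) / lam) / lam) =
        (C ^ 3 * 14 * K) * (a ^ 2 / lam ^ 2) * (1 / lam) := by
      field_simp
    rw [e1]
    calc (C ^ 3 * 14 * K) * (a ^ 2 / lam ^ 2) * (1 / lam) ≤ (C ^ 3 * 14 * K) * δ * 1 := by
          refine mul_le_mul (mul_le_mul_of_nonneg_left hδ1 (by positivity)) hil hil0.le
            (by positivity)
      _ = _ := by ring
  calc _ ≤ 169 * C ^ 2 * K * δ + (27 * K * δ + (4 * C ^ 2 * 27 * K * δ +
        ((n * C * 14 + C * 14) * K * δ + C ^ 3 * 14 * K * δ))) :=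
        add_le_add q1 (add_le_add q2 (add_le_add q3 (add_le_add q4 q5)))
    _ = _ := by ring

lemma iter_Cl (n i : ℕ) : ∀ L : ℕ, ∃ C : ℝ, 0 < C ∧ ∀ {t lam K a : ℝ} {b c : ℝ → ℝ}, 1 ≤ t →
    t ≤ 2 → 1 ≤ lam → 0 ≤ K → 0 < a → a ≤ 2 * lam → Cl lam (L + 2 * i) K b →
    Cl lam (L + 2 * i) K c → ∃ b' c' : ℝ → ℝ,
      Cl lam L (C * K * (a ^ 2 / lam ^ 2 + 1 / lam) ^ i) b' ∧
      Cl lam L (C * K * (a ^ 2 / lam ^ 2 + 1 / lam) ^ i) c' ∧
      ∀ r, 0 < r → (H n t a)^[i] (tg t b c) r = tg t b' c' r := by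
  induction i with
  | zero =>
    intro L
    refine ⟨1, one_pos, ?_⟩
    intro t lam K a b c _ _ _ _ _ _ hb hc
    refine ⟨b, c, ?_, ?_, fun r _ => rfl⟩
    · simpa using hb
    · simpa using hc
  | succ i ih =>
    intro L
    obtain ⟨C, hC0, hC⟩ := ih (L + 2)
    obtain ⟨D, hD0, hD⟩ := nb_Cl n L
    refine ⟨D * C, by positivity, ?_⟩
    intro t lam K a b c ht1 ht2 hlam hK ha hal hb hc
    have e : L + 2 * (i + 1) = L + 2 + 2 * i := by ring
    rw [e] at hb hc
    obtain ⟨b', c', hb', hc', hH⟩ := hC ht1 ht2 hlam hK ha hal hb hc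
    have hl0 : 0 < lam := by linarith
    have hom : |2 * Real.pi * t| ≤ 13 := by
      have h1 := Real.pi_pos
      have h2 := Real.pi_lt_d2
      rw [abs_of_nonneg (by positivity)]
      nlinarith
    have hKK : 0 ≤ C * K * (a ^ 2 / lam ^ 2 + 1 / lam) ^ i := by positivity
    have g1 := hD hom hlam hKK ha hal hb' hc'
    have g2 := hD (by rw [abs_neg]; exact hom) hlam hKK ha hal hc' hb'
    have e2 : D * (C * K * (a ^ 2 / lam ^ 2 + 1 / lam) ^ i) * (a ^ 2 / lam ^ 2 + 1 / lam) =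
        D * C * K * (a ^ 2 / lam ^ 2 + 1 / lam) ^ (i + 1) := by ring
    rw [e2] at g1 g2
    refine ⟨_, _, g1, g2, fun r hr => ?_⟩
    rw [Function.iterate_succ_apply']
    rw [H_congr n t a (eq_nhds hH hr)]
    exact H_tg n t a hb' hc' hr

lemma iter_zero (n : ℕ) (t a M : ℝ) (g : ℝ → ℝ) (hg : ∀ r, M < r → g r = 0) (i : ℕ) :
    ∀ r, M < r → (H n t a)^[i] g r = 0 := by
  induction i with
  | zero => exact hg
  | succ i ih =>
    intro r hr
    rw [Function.iterate_succ_apply']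
    have e : (H n t a)^[i] g =ᶠ[𝓝 r] fun _ => 0 :=
      Filter.eventually_of_mem (Ioi_mem_nhds hr) ih
    rw [H_congr n t a e]
    unfold H
    simp

end HIaux

open HIaux in
theorem hi_thm : S_HI := by
  intro n N _
  choose C hC0 hC using fun i => iter_Cl n i 0
  refine ⟨2 * ∑ i ∈ Finset.range (N + 1), C i, ?_, ?_⟩
  · have : 0 < ∑ i ∈ Finset.range (N + 1), C i :=
      Finset.sum_pos (fun i _ => hC0 i) ⟨0, by simp⟩
    positivity
  · intro t lam K a b₁ b₂ ht1 ht2 hlam hK ha hb1 hb2 hsupp hder i hi r hr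
    have hr0 : 0 < r := ha.trans_le hr
    have hl0 : 0 < lam := by linarith
    have hCi : C i ≤ ∑ i ∈ Finset.range (N + 1), C i :=
      Finset.single_le_sum (fun j _ => (hC0 j).le) (Finset.mem_range.2 (by omega))
    have hδ : 0 ≤ (a ^ 2 / lam ^ 2 + 1 / lam) ^ i := by positivity
    by_cases hal : a ≤ 2 * lam
    · have h1 : Cl lam (0 + 2 * i) K b₁ := by
        refine Cl_of lam _ K b₁ hb1 (fun r h => (hsupp r h).1) fun l hl r => ?_
        exact (hder l (by omega) r).1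
      have h2 : Cl lam (0 + 2 * i) K b₂ := by
        refine Cl_of lam _ K b₂ hb2 (fun r h => (hsupp r h).2) fun l hl r => ?_
        exact (hder l (by omega) r).2
      obtain ⟨b', c', hb', hc', hH⟩ := hC i ht1 ht2 hlam hK ha hal h1 h2
      have h3 : (H n t a)^[i] (fun r => Real.cos (2 * Real.pi * (t * r)) * b₁ r +
          Real.sin (2 * Real.pi * (t * r)) * b₂ r) r = tg t b' c' r := hH r hr0
      rw [h3]
      have k1 := (Cl_B hb').2.2 r hr0
      have k2 := (Cl_B hc').2.2 r hr0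
      unfold tg
      calc |Real.cos (2 * Real.pi * (t * r)) * b' r + Real.sin (2 * Real.pi * (t * r)) * c' r|
          ≤ |Real.cos (2 * Real.pi * (t * r))| * |b' r| +
            |Real.sin (2 * Real.pi * (t * r))| * |c' r| := by
            rw [← abs_mul, ← abs_mul]
            exact abs_add_le _ _
        _ ≤ 1 * |b' r| + 1 * |c' r| := by
            gcongr
            · exact Real.abs_cos_le_one _
            · exact Real.abs_sin_le_one _
        _ ≤ 2 * (C i * K * (a ^ 2 / lam ^ 2 + 1 / lam) ^ i) := by linarith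
        _ = 2 * C i * (K * (a ^ 2 / lam ^ 2 + 1 / lam) ^ i) := by ring
        _ ≤ 2 * (∑ i ∈ Finset.range (N + 1), C i) * (K * (a ^ 2 / lam ^ 2 + 1 / lam) ^ i) := by
            refine mul_le_mul_of_nonneg_right (by linarith) (by positivity)
        _ = _ := by ring
    · push Not at hal
      rw [iter_zero n t a (2 * lam) _ ?_ i r (hal.trans_le hr), abs_zero]
      · have : 0 < C i := hC0 i
        have h5 : 0 ≤ ∑ i ∈ Finset.range (N + 1), C i := this.le.trans hCi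
        positivity
      · intro r hr
        rw [(hsupp r (Or.inr hr)).1, (hsupp r (Or.inr hr)).2]
        simp

end Pool.Agent.R245.WG
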