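import Pool.Agent.R245.WG.Stm
import Pool.Agent.R245.WB.Lap

set_option autoImplicit false

/-! LAPG: the weighted `L²` bound for the kernel, from Plancherel's theorem -/

open MeasureTheory Set
open scoped ENNReal RealInnerProductSpace ContDiff

namespace Pool.Agent.R245.WG

open Pool.Agent.R245.WB

namespace LAPGaux

open LAPaux

lemma deriv_smooth {g : ℝ → ℝ} (hg : ContDiffOn ℝ ∞ g (Ioi 0)) :
    ContDiffOn ℝ ∞ (deriv g) (Ioi 0) :=
  ((contDiffOn_infty_iff_deriv_of_isOpen isOpen_Ioi).1 hg).2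

lemma H_smooth {n : ℕ} {t a : ℝ} {g : ℝ → ℝ} (hg : ContDiffOn ℝ ∞ g (Ioi 0)) :
    ContDiffOn ℝ ∞ (H n t a g) (Ioi 0) := by
  have g1 := deriv_smooth hg
  have g2 := deriv_smooth g1
  have hid : ContDiffOn ℝ ∞ (fun r : ℝ => r) (Ioi 0) := contDiffOn_id
  have hc : ∀ c : ℝ, ContDiffOn ℝ ∞ (fun _ : ℝ => c) (Ioi 0) := fun c => contDiffOn_const
  have hne : ∀ x ∈ Ioi (0 : ℝ), x ≠ 0 := fun x hx => (ne_of_gt hx)
  have q2 : ContDiffOn ℝ ∞ (fun r : ℝ => 1 - a ^ 2 / r ^ 2) (Ioi 0) :=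
    (hc 1).sub ((hc (a ^ 2)).div (hid.pow 2) fun x hx => pow_ne_zero 2 (hne x hx))
  have q1 : ContDiffOn ℝ ∞ (fun r : ℝ => ((n : ℝ) - 1) / r + a ^ 2 / r ^ 3) (Ioi 0) :=
    ((hc ((n : ℝ) - 1)).div hid hne).add
      ((hc (a ^ 2)).div (hid.pow 3) fun x hx => pow_ne_zero 3 (hne x hx))
  unfold H
  exact ((g2.mul q2).add (g1.mul q1)).add ((hc (4 * Real.pi ^ 2 * t ^ 2)).mul hg)

lemma H_zero {n : ℕ} {t a Λ : ℝ} {g : ℝ → ℝ} (h : ∀ r, Λ < r → g r = 0) :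
    ∀ r, Λ < r → H n t a g r = 0 := by
  intro r hr
  have z1 := deriv_zero h
  have z2 := deriv_zero z1
  unfold H
  rw [h r hr, z1 r hr, z2 r hr]
  simp

lemma iter_smooth {n : ℕ} {t a : ℝ} {g : ℝ → ℝ} (hg : ContDiffOn ℝ ∞ g (Ioi 0)) (N : ℕ) :
    ContDiffOn ℝ ∞ ((H n t a)^[N] g) (Ioi 0) := by
  induction N with
  | zero => simpa using hg
  | succ N ih =>
    rw [Function.iterate_succ_apply']
    exact H_smooth ih

lemma iter_zero {n : ℕ} {t a Λ : ℝ} {g : ℝ → ℝ} (h : ∀ r, Λ < r → g r = 0) (N : ℕ) :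
    ∀ r, Λ < r → (H n t a)^[N] g r = 0 := by
  induction N with
  | zero => simpa using h
  | succ N ih =>
    rw [Function.iterate_succ_apply']
    exact H_zero ih

lemma Ker_iter {n : ℕ} {a t Λ : ℝ} {g : ℝ → ℝ} (ha : 0 < a) (hg : ContDiffOn ℝ ∞ g (Ioi 0))
    (h0 : ∀ r, Λ < r → g r = 0) (u : E n) (N : ℕ) :
    Ker n ((H n t a)^[N] g) a u =
      (((4 * Real.pi ^ 2 * (t ^ 2 - ‖u‖ ^ 2)) ^ N : ℝ) : ℂ) * Ker n g a u := by
  induction N with
  | zero => simp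
  | succ N ih =>
    rw [Function.iterate_succ_apply']
    have h1 : Ker n (H n t a ((H n t a)^[N] g)) a u =
        (4 * Real.pi ^ 2 * (t ^ 2 - ‖u‖ ^ 2) : ℝ) * Ker n ((H n t a)^[N] g) a u :=
      fourier_id ha (contDiffOn_infty.1 (iter_smooth hg N) 2) (iter_zero h0 N) u
    rw [h1, ih, pow_succ]
    push_cast
    ring

end LAPGaux

open LAPaux LAPGaux in
theorem lapg_thm : S_LAPG := by
  intro n N hn
  have v0 : 0 < (volume (Metric.ball (0 : E n) 1)).toReal :=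
    ENNReal.toReal_pos (Metric.measure_ball_pos _ _ one_pos).ne' measure_ball_lt_top.ne
  refine ⟨2 * (volume (Metric.ball (0 : E n) 1)).toReal, by positivity, ?_⟩
  intro a t A δ Λ g ha hδ hA hΛ hg h0 hgA hH
  set φ : ℝ → ℝ := (H n t a)^[N] g with hφ
  have sφ : ContDiffOn ℝ ∞ φ (Ioi 0) := iter_smooth hg N
  have zφ : ∀ r, Λ < r → φ r = 0 := iter_zero h0 N
  set G : E n → ℂ := fun x => ((g (Real.sqrt (a ^ 2 + ‖x‖ ^ 2)) : ℝ) : ℂ) with hG
  set K : E n → ℂ := fun x => ((φ (Real.sqrt (a ^ 2 + ‖x‖ ^ 2)) : ℝ) : ℂ) with hK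
  have cG : Continuous G := Complex.continuous_ofReal.comp (comp_cont ha hg.continuousOn)
  have cK : Continuous K := Complex.continuous_ofReal.comp (comp_cont ha sφ.continuousOn)
  have G0 : ∀ x, Λ < ‖x‖ → G x = 0 := fun x hx => by
    simp only [hG]
    rw [h0 _ (hx.trans_le (rge' x))]; simp
  have K0 : ∀ x, Λ < ‖x‖ → K x = 0 := fun x hx => by
    simp only [hK]
    rw [zφ _ (hx.trans_le (rge' x))]; simp
  have sG := supp_of G G0
  have sK := supp_of K K0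
  have bG : ∀ x, ‖G x‖ ≤ A := fun x => by
    simp only [hG]
    rw [Complex.norm_real, Real.norm_eq_abs]
    exact hgA _ (rge x)
  have bK : ∀ x, ‖K x‖ ≤ A * δ ^ N := fun x => by
    simp only [hK]
    rw [Complex.norm_real, Real.norm_eq_abs]
    exact hH _ (rge x)
  have pG := (pl_thm n G (cG.integrable_of_hasCompactSupport sG)
    (cG.memLp_of_hasCompactSupport sG)).2
  have pK := (pl_thm n K (cK.integrable_of_hasCompactSupport sK)
    (cK.memLp_of_hasCompactSupport sK)).2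
  have lG := l2_bound hΛ G G0 bG
  have lK := l2_bound hΛ K K0 bK
  have mK : Measurable (fun u : E n => Ker n g a u) := by
    have hc : Continuous (Function.uncurry fun (u ξ : E n) => e ⟪u, ξ⟫ * G ξ) := by
      have h1 : Continuous (fun p : E n × E n => e ⟪p.1, p.2⟫) :=
        continuous_e.comp (by fun_prop)
      exact h1.mul (cG.comp continuous_snd)
    exact (hc.stronglyMeasurable.integral_prod_right).measurable
  have mf : Measurable (fun u : E n => ENNReal.ofReal (δ ^ (2 * N)) * ‖Ker n g a u‖ₑ ^ 2) :=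
    (mK.enorm.pow_const 2).const_mul _
  have hK2 : ∀ u : E n, ENNReal.ofReal ((‖u‖ ^ 2 - t ^ 2) ^ (2 * N)) * ‖Ker n g a u‖ₑ ^ 2 ≤
      ‖∫ ξ : E n, e ⟪u, ξ⟫ * K ξ‖ₑ ^ 2 := by
    intro u
    have h1 : ∫ ξ : E n, e ⟪u, ξ⟫ * K ξ =
        (((4 * Real.pi ^ 2 * (t ^ 2 - ‖u‖ ^ 2)) ^ N : ℝ) : ℂ) * Ker n g a u :=
      Ker_iter ha hg h0 u N
    rw [h1, enorm_mul, mul_pow]
    gcongr
    rw [← ofReal_norm, Complex.norm_real, ← ENNReal.ofReal_pow (norm_nonneg _)]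
    refine ENNReal.ofReal_le_ofReal ?_
    rw [Real.norm_eq_abs, sq_abs]
    have hpi : 1 ≤ ((4 * Real.pi ^ 2) ^ N) ^ 2 := by
      have := Real.pi_gt_three
      have h3 : 1 ≤ 4 * Real.pi ^ 2 := by nlinarith
      exact one_le_pow₀ (one_le_pow₀ h3)
    have : ((4 * Real.pi ^ 2 * (t ^ 2 - ‖u‖ ^ 2)) ^ N) ^ 2 =
        ((4 * Real.pi ^ 2) ^ N) ^ 2 * (‖u‖ ^ 2 - t ^ 2) ^ (2 * N) := by
      rw [mul_pow, mul_pow, ← pow_mul (t ^ 2 - ‖u‖ ^ 2) N 2, mul_comm N 2,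
        pow_mul (t ^ 2 - ‖u‖ ^ 2) 2 N, pow_mul (‖u‖ ^ 2 - t ^ 2) 2 N]
      congr 2
      ring
    rw [this]
    refine le_mul_of_one_le_left ?_ hpi
    rw [pow_mul]
    positivity
  have hvol : volume (Metric.ball (0 : E n) 1) =
      ENNReal.ofReal (volume (Metric.ball (0 : E n) 1)).toReal :=
    (ENNReal.ofReal_toReal measure_ball_lt_top.ne).symm
  set c := (volume (Metric.ball (0 : E n) 1)).toReal with hc
  calc ∫⁻ u : E n, ENNReal.ofReal (δ ^ (2 * N) + (‖u‖ ^ 2 - t ^ 2) ^ (2 * N)) *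
        ‖Ker n g a u‖ₑ ^ 2
      = ∫⁻ u : E n, (ENNReal.ofReal (δ ^ (2 * N)) * ‖Ker n g a u‖ₑ ^ 2 +
          ENNReal.ofReal ((‖u‖ ^ 2 - t ^ 2) ^ (2 * N)) * ‖Ker n g a u‖ₑ ^ 2) := by
        refine lintegral_congr fun u => ?_
        rw [ENNReal.ofReal_add (by positivity) (by rw [pow_mul]; positivity), add_mul]
    _ = (∫⁻ u : E n, ENNReal.ofReal (δ ^ (2 * N)) * ‖Ker n g a u‖ₑ ^ 2) +
          ∫⁻ u : E n, ENNReal.ofReal ((‖u‖ ^ 2 - t ^ 2) ^ (2 * N)) * ‖Ker n g a u‖ₑ ^ 2 :=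
        lintegral_add_left mf _
    _ ≤ ENNReal.ofReal (δ ^ (2 * N)) * (ENNReal.ofReal (A ^ 2) *
          (ENNReal.ofReal (Λ ^ n) * ENNReal.ofReal c)) +
        ENNReal.ofReal ((A * δ ^ N) ^ 2) * (ENNReal.ofReal (Λ ^ n) * ENNReal.ofReal c) := by
        refine add_le_add ?_ ?_
        · rw [lintegral_const_mul _ (mK.enorm.pow_const 2), ← hvol]
          gcongr
          calc ∫⁻ u : E n, ‖Ker n g a u‖ₑ ^ 2 = ∫⁻ y, ‖G y‖ₑ ^ 2 := pG
            _ ≤ _ := lG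
        · rw [← hvol]
          calc ∫⁻ u : E n, ENNReal.ofReal ((‖u‖ ^ 2 - t ^ 2) ^ (2 * N)) * ‖Ker n g a u‖ₑ ^ 2
              ≤ ∫⁻ u : E n, ‖∫ ξ : E n, e ⟪u, ξ⟫ * K ξ‖ₑ ^ 2 := lintegral_mono hK2
            _ = ∫⁻ y, ‖K y‖ₑ ^ 2 := pK
            _ ≤ _ := lK
    _ = ENNReal.ofReal (2 * c * A ^ 2 * δ ^ (2 * N) * Λ ^ n) := by
        rw [← ENNReal.ofReal_mul (by positivity), ← ENNReal.ofReal_mul (by positivity),
          ← ENNReal.ofReal_mul (by positivity), ← ENNReal.ofReal_mul (by positivity),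
          ← ENNReal.ofReal_add (by positivity) (by positivity)]
        congr 1
        rw [mul_pow A, ← pow_mul δ N 2, mul_comm N 2]
        ring

end Pool.Agent.R245.WG
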