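import Pool.Agent.R245.WG.Stm

set_option autoImplicit false

/-! S_LO: iterates of `H` on `G(r²)`. -/

open MeasureTheory Set
open scoped ContDiff

namespace Pool.Agent.R245.WG.LOB

open Pool.Agent.R245.WB

/-- the operator in the variable `ρ = r²` -/
noncomputable def Φ (n : ℕ) (t a : ℝ) (G : ℝ → ℝ) (ρ : ℝ) : ℝ :=
  4 * (ρ - a ^ 2) * iteratedDeriv 2 G ρ + 2 * n * iteratedDeriv 1 G ρ +
    4 * Real.pi ^ 2 * t ^ 2 * iteratedDeriv 0 G ρ

lemma smooth_at {G : ℝ → ℝ} (hG : ContDiffOn ℝ ∞ G (Ioi 0)) {x : ℝ} (hx : 0 < x) :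
    ContDiffAt ℝ ∞ G x := hG.contDiffAt (Ioi_mem_nhds hx)

lemma hi {G : ℝ → ℝ} (hG : ContDiffOn ℝ ∞ G (Ioi 0)) (l : ℕ) :
    ContDiffOn ℝ ∞ (iteratedDeriv l G) (Ioi 0) := by
  induction l with
  | zero => simpa using hG
  | succ l ih =>
    rw [iteratedDeriv_succ]
    exact ih.deriv_of_isOpen isOpen_Ioi (by simp)

lemma hd {G : ℝ → ℝ} (hG : ContDiffOn ℝ ∞ G (Ioi 0)) (l : ℕ) {x : ℝ} (hx : 0 < x) :
    HasDerivAt (iteratedDeriv l G) (iteratedDeriv (l + 1) G x) x := by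
  rw [iteratedDeriv_succ]
  exact ((smooth_at (hi hG l) hx).differentiableAt (by simp)).hasDerivAt

lemma Φ_iter {n : ℕ} {t a : ℝ} {G : ℝ → ℝ} (hG : ContDiffOn ℝ ∞ G (Ioi 0)) (l : ℕ) :
    ∀ x, 0 < x → iteratedDeriv l (Φ n t a G) x =
      4 * (x - a ^ 2) * iteratedDeriv (l + 2) G x + (4 * l + 2 * n) * iteratedDeriv (l + 1) G x +
        4 * Real.pi ^ 2 * t ^ 2 * iteratedDeriv l G x := by
  induction l with
  | zero =>
    intro x _
    simp only [iteratedDeriv_zero, Φ, Nat.cast_zero]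
    ring
  | succ l ih =>
    intro x hx
    rw [iteratedDeriv_succ]
    have he : iteratedDeriv l (Φ n t a G) =ᶠ[nhds x] fun x =>
        4 * (x - a ^ 2) * iteratedDeriv (l + 2) G x +
          (4 * l + 2 * n) * iteratedDeriv (l + 1) G x +
          4 * Real.pi ^ 2 * t ^ 2 * iteratedDeriv l G x := by
      filter_upwards [Ioi_mem_nhds hx] with y hy
      exact ih y hy
    rw [he.deriv_eq]
    have h1 : HasDerivAt (fun x : ℝ => 4 * (x - a ^ 2)) 4 x := by
      simpa using ((hasDerivAt_id x).sub_const (a ^ 2)).const_mul 4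
    have h2 := ((h1.mul (hd hG (l + 2) hx)).add ((hd hG (l + 1) hx).const_mul
      (4 * (l : ℝ) + 2 * n))).add ((hd hG l hx).const_mul (4 * Real.pi ^ 2 * t ^ 2))
    refine h2.deriv.trans ?_
    push_cast
    ring

lemma Φ_smooth {n : ℕ} {t a : ℝ} {G : ℝ → ℝ} (hG : ContDiffOn ℝ ∞ G (Ioi 0)) :
    ContDiffOn ℝ ∞ (Φ n t a G) (Ioi 0) := by
  have hi := hi hG
  unfold Φ
  exact (((contDiffOn_const.mul (contDiffOn_id.sub contDiffOn_const)).mul (hi 2)).add
    (contDiffOn_const.mul (hi 1))).add (contDiffOn_const.mul (hi 0))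

lemma iter_zero {G : ℝ → ℝ} (h : ∀ ρ, 4 < ρ → G ρ = 0) (l : ℕ) :
    ∀ ρ, 4 < ρ → iteratedDeriv l G ρ = 0 := by
  induction l with
  | zero => simpa using h
  | succ l ih =>
    intro x hx
    rw [iteratedDeriv_succ]
    have he : iteratedDeriv l G =ᶠ[nhds x] fun _ => 0 := by
      filter_upwards [Ioi_mem_nhds hx] with y hy
      exact ih y hy
    rw [he.deriv_eq]
    simp

lemma Φ_zero {n : ℕ} {t a : ℝ} {G : ℝ → ℝ} (h : ∀ ρ, 4 < ρ → G ρ = 0) :
    ∀ ρ, 4 < ρ → Φ n t a G ρ = 0 := by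
  intro ρ hρ
  simp only [Φ, iter_zero h _ ρ hρ]
  ring

/-- `H` in the variable `ρ = r²` -/
lemma H_sq {n : ℕ} {t a : ℝ} {G g : ℝ → ℝ} (hG : ContDiffOn ℝ ∞ G (Ioi 0))
    (hg : ∀ r, 0 < r → g r = G (r ^ 2)) (r : ℝ) (hr : 0 < r) :
    H n t a g r = Φ n t a G (r ^ 2) := by
  have hsq : ∀ x : ℝ, HasDerivAt (fun x : ℝ => x ^ 2) (2 * x) x := by
    intro x
    simpa using hasDerivAt_pow 2 x
  have h1 : ∀ x, 0 < x → HasDerivAt g (iteratedDeriv 1 G (x ^ 2) * (2 * x)) x := by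
    intro x hx
    have h2 : HasDerivAt G (iteratedDeriv 1 G (x ^ 2)) (x ^ 2) := by
      have := hd hG 0 (show 0 < x ^ 2 by positivity)
      simpa using this
    have h3 := HasDerivAt.comp (h := fun x : ℝ => x ^ 2) x h2 (hsq x)
    refine h3.congr_of_eventuallyEq ?_
    filter_upwards [Ioi_mem_nhds hx] with y hy
    exact hg y hy
  have hd1 : ∀ x, 0 < x → deriv g x = iteratedDeriv 1 G (x ^ 2) * (2 * x) :=
    fun x hx => (h1 x hx).deriv
  have h2 : deriv (deriv g) r =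
      iteratedDeriv 2 G (r ^ 2) * (2 * r) * (2 * r) + iteratedDeriv 1 G (r ^ 2) * 2 := by
    have he : deriv g =ᶠ[nhds r] fun x => iteratedDeriv 1 G (x ^ 2) * (2 * x) := by
      filter_upwards [Ioi_mem_nhds hr] with y hy
      exact hd1 y hy
    rw [he.deriv_eq]
    have h3 := HasDerivAt.comp (h := fun x : ℝ => x ^ 2) r
      (hd hG 1 (show 0 < r ^ 2 by positivity)) (hsq r)
    have h4 : HasDerivAt (fun x : ℝ => 2 * x) 2 r := by
      simpa using (hasDerivAt_id r).const_mul 2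
    exact (h3.mul h4).deriv
  unfold H Φ
  rw [h2, hd1 r hr, hg r hr, iteratedDeriv_zero]
  field_simp
  ring

lemma H_iter {n : ℕ} {t a : ℝ} (i : ℕ) : ∀ {G g : ℝ → ℝ}, ContDiffOn ℝ ∞ G (Ioi 0) →
    (∀ r, 0 < r → g r = G (r ^ 2)) → ∀ r, 0 < r →
    (H n t a)^[i] g r = (Φ n t a)^[i] G (r ^ 2) := by
  induction i with
  | zero =>
    intro G g _ hg r hr
    exact hg r hr
  | succ i ih =>
    intro G g hG hg r hr
    rw [Function.iterate_succ_apply, Function.iterate_succ_apply]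
    exact ih (Φ_smooth hG) (fun x hx => H_sq hG hg x hx) r hr

lemma main {n : ℕ} {t a : ℝ} (ht1 : 1 ≤ t) (ht2 : t ≤ 2) (ha : 0 < a) (ha2 : a ≤ 2) (N : ℕ)
    (i : ℕ) : ∀ (L : ℕ) (K : ℝ) (G : ℝ → ℝ), 0 ≤ K → L + 2 * i ≤ 2 * N →
    ContDiffOn ℝ ∞ G (Ioi 0) → (∀ ρ, 4 < ρ → G ρ = 0) →
    (∀ l : ℕ, l ≤ L + 2 * i → ∀ ρ, 0 < ρ → |iteratedDeriv l G ρ| ≤ K) →
    ∀ ρ, 0 < ρ → |(Φ n t a)^[i] G ρ| ≤ (16 + 8 * N + 2 * n + 16 * Real.pi ^ 2) ^ i * K := by
  induction i with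
  | zero =>
    intro L K G _ _ _ _ h ρ hρ
    have := h 0 (by omega) ρ hρ
    simpa using this
  | succ i ih =>
    intro L K G hK hL hG hz h ρ hρ
    rw [Function.iterate_succ_apply]
    set C : ℝ := 16 + 8 * N + 2 * n + 16 * Real.pi ^ 2 with hC
    have hC0 : 0 ≤ C := by positivity
    have := ih L (C * K) (Φ n t a G) (by positivity) (by omega) (Φ_smooth hG) (Φ_zero hz) (by
      intro l hl x hx
      rw [Φ_iter hG l x hx]
      have hKl : ∀ q : ℕ, q ≤ l + 2 → |iteratedDeriv q G x| ≤ K := fun q hq =>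
        h q (by omega) x hx
      have hlN : (l : ℝ) ≤ 2 * N := by
        have : l ≤ 2 * N := by omega
        exact_mod_cast this
      by_cases hx4 : 4 < x
      · rw [iter_zero hz _ x hx4, iter_zero hz _ x hx4, iter_zero hz _ x hx4]
        simp only [mul_zero, add_zero, abs_zero]
        positivity
      · push Not at hx4
        have hb : |4 * (x - a ^ 2)| ≤ 16 := by
          rw [abs_le]
          constructor <;> nlinarith
        have hb2 : |4 * (l : ℝ) + 2 * n| ≤ 8 * N + 2 * n := by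
          rw [abs_of_nonneg (by positivity)]
          linarith
        have hb3 : |4 * Real.pi ^ 2 * t ^ 2| ≤ 16 * Real.pi ^ 2 := by
          rw [abs_of_nonneg (by positivity)]
          have : t ^ 2 ≤ 4 := by nlinarith
          nlinarith [sq_nonneg Real.pi]
        calc |4 * (x - a ^ 2) * iteratedDeriv (l + 2) G x +
              (4 * l + 2 * n) * iteratedDeriv (l + 1) G x +
              4 * Real.pi ^ 2 * t ^ 2 * iteratedDeriv l G x|
            ≤ |4 * (x - a ^ 2) * iteratedDeriv (l + 2) G x| +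
              |(4 * l + 2 * n) * iteratedDeriv (l + 1) G x| +
              |4 * Real.pi ^ 2 * t ^ 2 * iteratedDeriv l G x| := abs_add_three _ _ _
          _ ≤ 16 * K + (8 * N + 2 * n) * K + 16 * Real.pi ^ 2 * K := by
              rw [abs_mul, abs_mul (4 * (l : ℝ) + 2 * n), abs_mul (4 * Real.pi ^ 2 * t ^ 2)]
              have k1 := hKl (l + 2) le_rfl
              have k2 := hKl (l + 1) (by omega)
              have k3 := hKl l (by omega)
              gcongr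
          _ = C * K := by rw [hC]; ring) ρ hρ
    calc |(Φ n t a)^[i] (Φ n t a G) ρ| ≤ C ^ i * (C * K) := this
      _ = C ^ (i + 1) * K := by ring

lemma van {n : ℕ} {t a : ℝ} (i : ℕ) : ∀ {G : ℝ → ℝ}, (∀ ρ, 4 < ρ → G ρ = 0) → ∀ ρ, 4 < ρ →
    (Φ n t a)^[i] G ρ = 0 := by
  induction i with
  | zero =>
    intro G h ρ hρ
    exact h ρ hρ
  | succ i ih =>
    intro G h ρ hρ
    rw [Function.iterate_succ_apply]
    exact ih (Φ_zero h) ρ hρ

end Pool.Agent.R245.WG.LOB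

namespace Pool.Agent.R245.WG

open Pool.Agent.R245.WB LOB in
theorem lob_thm : S_LO := by
  intro n N _
  refine ⟨(16 + 8 * N + 2 * n + 16 * Real.pi ^ 2) ^ N, by positivity, ?_⟩
  intro t K a G ht1 ht2 hK ha hG hz hb i hi r hr
  have hr0 : 0 < r := lt_of_lt_of_le ha hr
  have hz' : ∀ ρ, 4 < ρ → G ρ = 0 := fun ρ hρ => hz ρ hρ.le
  rw [H_iter i hG (fun r _ => rfl) r hr0]
  have hC1 : (1 : ℝ) ≤ 16 + 8 * N + 2 * n + 16 * Real.pi ^ 2 := by
    have : (0 : ℝ) ≤ 8 * N + 2 * n + 16 * Real.pi ^ 2 := by positivity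
    linarith
  by_cases ha2 : a ≤ 2
  · have h := main (n := n) ht1 ht2 ha ha2 N i (2 * N - 2 * i) K G hK (by omega) hG hz'
      (fun l hl ρ hρ => hb l (by omega) ρ hρ) (r ^ 2) (by positivity)
    refine h.trans ?_
    gcongr
  · push Not at ha2
    rw [van i hz' (r ^ 2) (by nlinarith)]
    simp only [abs_zero]
    positivity

end Pool.Agent.R245.WG
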