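import Pool.Agent.R245.WG.Stm

set_option autoImplicit false

/-!
# MP_ee74d2_an, project WG, step QG: the square function of the kernels
-/

open MeasureTheory Set
open scoped ENNReal RealInnerProductSpace ContDiff

namespace Pool.Agent.R245.WG

open Pool.Agent.R245.WB

namespace QGaux

lemma e_cont : Continuous e := by
  unfold e
  fun_prop

lemma ker_congr (n : ℕ) (g g' : ℝ → ℝ) (h : ∀ r, 0 < r → g' r = g r) (a : ℝ) (ha : 0 < a)
    (u : E n) : Ker n g' a u = Ker n g a u := by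
  unfold Ker
  refine integral_congr_ae (Filter.Eventually.of_forall fun ξ => ?_)
  simp only
  rw [h _ (Real.sqrt_pos.mpr (by positivity))]

lemma ker_meas (n : ℕ) (g : ℝ → ℝ) (hg : Measurable g) :
    Measurable (fun p : ℝ × E n => Ker n g p.1 p.2) := by
  have h1 : Measurable (Function.uncurry fun (p : ℝ × E n) (ξ : E n) =>
      e ⟪p.2, ξ⟫ * ((g (Real.sqrt (p.1 ^ 2 + ‖ξ‖ ^ 2)) : ℝ) : ℂ)) := by
    refine Measurable.mul ?_ ?_
    · exact (e_cont.comp (f := fun w : (ℝ × E n) × E n => ⟪w.1.2, w.2⟫) (by fun_prop)).measurable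
    · refine Complex.measurable_ofReal.comp (hg.comp
        (f := fun w : (ℝ × E n) × E n => Real.sqrt (w.1.1 ^ 2 + ‖w.2‖ ^ 2)) ?_)
      exact Continuous.measurable (by fun_prop)
  exact h1.stronglyMeasurable.integral_prod_right.measurable

/-- Cauchy-Schwarz with a weight -/
lemma cs {X : Type*} [MeasurableSpace X] (μ : Measure X) (W F : X → ℝ≥0∞) (hW : Measurable W)
    (hF : Measurable F) (hW0 : ∀ x, W x ≠ 0) (hWt : ∀ x, W x ≠ ⊤) :
    ∫⁻ x, F x ^ (1 / 2 : ℝ) ∂μ ≤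
      (∫⁻ x, (W x)⁻¹ ∂μ) ^ (1 / 2 : ℝ) * (∫⁻ x, W x * F x ∂μ) ^ (1 / 2 : ℝ) := by
  have h := ENNReal.lintegral_mul_le_Lp_mul_Lq μ (Real.HolderConjugate.two_two)
    (f := fun x => (W x)⁻¹ ^ (1 / 2 : ℝ)) (g := fun x => (W x * F x) ^ (1 / 2 : ℝ))
    (hW.inv.pow_const _).aemeasurable ((hW.mul hF).pow_const _).aemeasurable
  have e1 : ∀ x, ((fun x => (W x)⁻¹ ^ (1 / 2 : ℝ)) * fun x => (W x * F x) ^ (1 / 2 : ℝ)) x =
      F x ^ (1 / 2 : ℝ) := by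
    intro x
    show (W x)⁻¹ ^ (1 / 2 : ℝ) * (W x * F x) ^ (1 / 2 : ℝ) = _
    rw [← ENNReal.mul_rpow_of_nonneg _ _ (by norm_num), ← mul_assoc,
      ENNReal.inv_mul_cancel (hW0 x) (hWt x), one_mul]
  have e2 : ∀ y : ℝ≥0∞, (y ^ (1 / 2 : ℝ)) ^ (2 : ℝ) = y := by
    intro y
    rw [← ENNReal.rpow_mul]; norm_num
  simp only [e1, e2] at h
  exact h

lemma vol_le (k : ℕ) (R : ℝ) (hR : 0 < R) (M : Set (E k)) (hM : ∀ η ∈ M, 0 < ‖η‖ ∧ ‖η‖ < R) :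
    volume M ≤ ENNReal.ofReal (R ^ k * (volume (Metric.ball (0 : E k) 1)).toReal) := by
  calc volume M ≤ volume (Metric.ball (0 : E k) R) := measure_mono fun η hη => by
        rw [Metric.mem_ball, dist_zero_right]; exact (hM η hη).2
    _ = ENNReal.ofReal (R ^ k) * volume (Metric.ball (0 : E k) 1) := by
        rw [Measure.addHaar_ball_of_pos _ _ hR]; simp
    _ = _ := by
        rw [ENNReal.ofReal_mul (by positivity), ENNReal.ofReal_toReal measure_ball_lt_top.ne]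

lemma real_eq (k n : ℕ) (C1 C2 v A δ Λ R : ℝ) (hC1 : 0 < C1) (hC2 : 0 < C2) (hv : 0 ≤ v)
    (hA : 0 ≤ A) (hδ : 0 < δ) (hΛ : 0 < Λ) (hR : 0 < R) :
    ((C2 * δ / δ ^ (2 * n)) * (C1 * A ^ 2 * δ ^ (2 * n) * Λ ^ n * (R ^ k * v))) ^ (1 / 2 : ℝ) ≤
      (C2 * C1 * (v + 1)) ^ (1 / 2 : ℝ) * A * δ ^ (1 / 2 : ℝ) * Λ ^ ((n : ℝ) / 2) *
        R ^ ((k : ℝ) / 2) := by
  have e1 : A = (A ^ 2) ^ (1 / 2 : ℝ) := by
    rw [← Real.sqrt_eq_rpow, Real.sqrt_sq hA]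
  have e2 : Λ ^ ((n : ℝ) / 2) = (Λ ^ n) ^ (1 / 2 : ℝ) := by
    rw [← Real.rpow_natCast Λ n, ← Real.rpow_mul hΛ.le]; congr 1; ring
  have e3 : R ^ ((k : ℝ) / 2) = (R ^ k) ^ (1 / 2 : ℝ) := by
    rw [← Real.rpow_natCast R k, ← Real.rpow_mul hR.le]; congr 1; ring
  rw [e2, e3]
  calc _ ≤ (C2 * C1 * (v + 1) * A ^ 2 * δ * Λ ^ n * R ^ k) ^ (1 / 2 : ℝ) := by
        apply Real.rpow_le_rpow (by positivity) _ (by norm_num)
        have : (C2 * δ / δ ^ (2 * n)) * (C1 * A ^ 2 * δ ^ (2 * n) * Λ ^ n * (R ^ k * v)) =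
            C2 * C1 * v * A ^ 2 * δ * Λ ^ n * R ^ k := by
          field_simp
        rw [this]
        gcongr
        linarith
    _ = _ := by
        rw [Real.mul_rpow (by positivity) (by positivity),
          Real.mul_rpow (by positivity) (by positivity),
          Real.mul_rpow (by positivity) (by positivity),
          Real.mul_rpow (by positivity) (by positivity), ← e1]

end QGaux

open QGaux in
theorem qg_thm (h1 : S_LAPG) (h2 : S_WTG) : S_QG := by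
  classical
  intro k n hk hn
  obtain ⟨C1, hC1, hL⟩ := h1 n n hn
  obtain ⟨C2, hC2, hW⟩ := h2 n n hn (by omega)
  obtain ⟨v, hv⟩ : ∃ v : ℝ, v = (volume (Metric.ball (0 : E k) 1)).toReal := ⟨_, rfl⟩
  have hv0 : 0 ≤ v := by rw [hv]; exact ENNReal.toReal_nonneg
  refine ⟨(C2 * C1 * (v + 1)) ^ (1 / 2 : ℝ), by positivity, ?_⟩
  intro t A δ Λ R g M ht1 ht2 hδ hδ20 hA hΛ hR hg hg0 hgb hgH hM hMη
  -- measurable version of `g`
  obtain ⟨g', hg'm, hgg⟩ : ∃ g' : ℝ → ℝ, Measurable g' ∧ ∀ r, 0 < r → g' r = g r :=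
    ⟨(Ioi (0 : ℝ)).piecewise g (fun _ => 0),
      hg.continuousOn.measurable_piecewise continuousOn_const measurableSet_Ioi,
      fun r hr => piecewise_eq_of_mem _ _ _ hr⟩
  have hK : ∀ η ∈ M, ∀ u : E n, Ker n g ‖η‖ u = Ker n g' ‖η‖ u := fun η hη u =>
    (ker_congr n g g' hgg ‖η‖ (hMη η hη).1 u).symm
  have hmeas : Measurable (Function.uncurry fun (u : E n) (η : E k) => ‖Ker n g' ‖η‖ u‖ₑ ^ 2) := by
    have h5 : Measurable (fun w : E n × E k => Ker n g' ‖w.2‖ w.1) :=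
      (ker_meas n g' hg'm).comp (f := fun w : E n × E k => ((‖w.2‖ : ℝ), w.1))
        (Continuous.measurable (by fun_prop))
    exact h5.enorm.pow_const 2
  have hin : ∀ u : E n, ∫⁻ η in M, ‖Ker n g ‖η‖ u‖ₑ ^ 2 = ∫⁻ η in M, ‖Ker n g' ‖η‖ u‖ₑ ^ 2 :=
    fun u => setLIntegral_congr_fun hM fun η hη => by
      show ‖Ker n g ‖η‖ u‖ₑ ^ 2 = ‖Ker n g' ‖η‖ u‖ₑ ^ 2
      rw [hK η hη u]
  simp only [hin]
  -- the weight
  obtain ⟨W, hWdef⟩ : ∃ W : E n → ℝ≥0∞, W = fun u =>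
    ENNReal.ofReal (δ ^ (2 * n) + (‖u‖ ^ 2 - t ^ 2) ^ (2 * n)) := ⟨_, rfl⟩
  have hWm : Measurable W := by
    rw [hWdef]
    exact ENNReal.measurable_ofReal.comp (Continuous.measurable (by fun_prop))
  have hWpos : ∀ u : E n, 0 < δ ^ (2 * n) + (‖u‖ ^ 2 - t ^ 2) ^ (2 * n) := fun u => by
    have : 0 ≤ (‖u‖ ^ 2 - t ^ 2) ^ (2 * n) := by
      rw [pow_mul]; positivity
    positivity
  have hW0 : ∀ u, W u ≠ 0 := fun u => by
    rw [hWdef]; exact (ENNReal.ofReal_pos.mpr (hWpos u)).ne'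
  have hWt : ∀ u, W u ≠ ⊤ := fun u => by rw [hWdef]; exact ENNReal.ofReal_ne_top
  have hFm : Measurable (fun u : E n => ∫⁻ η in M, ‖Ker n g' ‖η‖ u‖ₑ ^ 2) :=
    hmeas.lintegral_prod_right
  refine (cs volume W _ hWm hFm hW0 hWt).trans ?_
  have hI1 : ∫⁻ u, (W u)⁻¹ ≤ ENNReal.ofReal (C2 * δ / δ ^ (2 * n)) := by
    rw [hWdef]; exact hW t δ ht1 ht2 hδ hδ20
  have hI2 : ∫⁻ u, W u * ∫⁻ η in M, ‖Ker n g' ‖η‖ u‖ₑ ^ 2 ≤
      ENNReal.ofReal (C1 * A ^ 2 * δ ^ (2 * n) * Λ ^ n * (R ^ k * v)) := by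
    calc ∫⁻ u, W u * ∫⁻ η in M, ‖Ker n g' ‖η‖ u‖ₑ ^ 2
        = ∫⁻ u, ∫⁻ η in M, W u * ‖Ker n g' ‖η‖ u‖ₑ ^ 2 := by
          refine lintegral_congr fun u => ?_
          rw [lintegral_const_mul' _ _ (hWt u)]
      _ = ∫⁻ η in M, ∫⁻ u, W u * ‖Ker n g' ‖η‖ u‖ₑ ^ 2 := by
          apply lintegral_lintegral_swap
          exact ((hWm.comp measurable_fst).mul hmeas).aemeasurable
      _ ≤ ∫⁻ _η in M, ENNReal.ofReal (C1 * A ^ 2 * δ ^ (2 * n) * Λ ^ n) := by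
          refine setLIntegral_mono measurable_const fun η hη => ?_
          have h6 := hL ‖η‖ t A δ Λ g (hMη η hη).1 hδ hA hΛ hg hg0
            (fun r hr => hgb r ((hMη η hη).1.trans_le hr))
            (fun r hr => hgH ‖η‖ r (hMη η hη).1 (hMη η hη).2 hr)
          simp only [hK η hη] at h6
          rw [hWdef]
          exact h6
      _ = ENNReal.ofReal (C1 * A ^ 2 * δ ^ (2 * n) * Λ ^ n) * volume M := by
          rw [setLIntegral_const]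
      _ ≤ ENNReal.ofReal (C1 * A ^ 2 * δ ^ (2 * n) * Λ ^ n) * ENNReal.ofReal (R ^ k * v) := by
          gcongr
          rw [hv]
          exact vol_le k R hR M hMη
      _ = _ := by rw [← ENNReal.ofReal_mul (by positivity)]
  calc _ ≤ (ENNReal.ofReal (C2 * δ / δ ^ (2 * n))) ^ (1 / 2 : ℝ) *
        (ENNReal.ofReal (C1 * A ^ 2 * δ ^ (2 * n) * Λ ^ n * (R ^ k * v))) ^ (1 / 2 : ℝ) := by
        gcongr
    _ = ENNReal.ofReal (((C2 * δ / δ ^ (2 * n)) *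
        (C1 * A ^ 2 * δ ^ (2 * n) * Λ ^ n * (R ^ k * v))) ^ (1 / 2 : ℝ)) := by
        rw [← ENNReal.mul_rpow_of_nonneg _ _ (by norm_num), ← ENNReal.ofReal_mul (by positivity),
          ENNReal.ofReal_rpow_of_nonneg (by positivity) (by norm_num)]
    _ ≤ _ := ENNReal.ofReal_le_ofReal (real_eq k n C1 C2 v A δ Λ R hC1 hC2 hv0 hA hδ hΛ hR)

end Pool.Agent.R245.WG
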