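import Pool.Agent.R245.WB.Stm

set_option autoImplicit false

/-!
# MP_ee74d2_an, project WG: the theorem of project WB for every `n ≥ 1`

Statements of the steps which replace those of project WB. See NOTES.md in this directory.
`(H n t a)^[i] g` is the `i`-th iterate of the operator `H n t a` applied to `g`.
-/

open MeasureTheory Set
open scoped ENNReal RealInnerProductSpace ContDiff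

namespace Pool.Agent.R245.WG

open Pool.Agent.R245.WB

/-- LAPG: weighted `L²` bound for the kernel -/
def S_LAPG : Prop := ∀ n N : ℕ, 1 ≤ n → ∃ C : ℝ, 0 < C ∧ ∀ (a t A δ Λ : ℝ) (g : ℝ → ℝ),
  0 < a → 0 < δ → 0 ≤ A → 0 < Λ → ContDiffOn ℝ ∞ g (Ioi 0) → (∀ r, Λ < r → g r = 0) →
  (∀ r, a ≤ r → |g r| ≤ A) → (∀ r, a ≤ r → |(H n t a)^[N] g r| ≤ A * δ ^ N) →
  ∫⁻ u : E n, ENNReal.ofReal (δ ^ (2 * N) + (‖u‖ ^ 2 - t ^ 2) ^ (2 * N)) * ‖Ker n g a u‖ₑ ^ 2 ≤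
    ENNReal.ofReal (C * A ^ 2 * δ ^ (2 * N) * Λ ^ n)

/-- WTG: the integral of the inverse of the weight -/
def S_WTG : Prop := ∀ n N : ℕ, 1 ≤ n → n < 4 * N → ∃ C : ℝ, 0 < C ∧ ∀ (t δ : ℝ), 1 ≤ t → t ≤ 2 →
  0 < δ → δ ≤ 20 →
  ∫⁻ u : E n, (ENNReal.ofReal (δ ^ (2 * N) + (‖u‖ ^ 2 - t ^ 2) ^ (2 * N)))⁻¹ ≤
    ENNReal.ofReal (C * δ / δ ^ (2 * N))

/-- QG: the square function of the kernels -/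
def S_QG : Prop := ∀ k n : ℕ, 1 ≤ k → 1 ≤ n → ∃ C : ℝ, 0 < C ∧
  ∀ (t A δ Λ R : ℝ) (g : ℝ → ℝ) (M : Set (E k)), 1 ≤ t → t ≤ 2 → 0 < δ → δ ≤ 20 → 0 ≤ A →
  0 < Λ → 0 < R → ContDiffOn ℝ ∞ g (Ioi 0) → (∀ r, Λ < r → g r = 0) →
  (∀ r, 0 < r → |g r| ≤ A) →
  (∀ a r, 0 < a → a < R → a ≤ r → |(H n t a)^[n] g r| ≤ A * δ ^ n) →
  MeasurableSet M → (∀ η ∈ M, 0 < ‖η‖ ∧ ‖η‖ < R) →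
  ∫⁻ u : E n, (∫⁻ η in M, ‖Ker n g ‖η‖ u‖ₑ ^ 2) ^ (1 / 2 : ℝ) ≤
    ENNReal.ofReal (C * A * δ ^ (1 / 2 : ℝ) * Λ ^ ((n : ℝ) / 2) * R ^ ((k : ℝ) / 2))

/-- decompositions of a symbol of order `-s` into dyadic pieces -/
def DecG (n : ℕ) (s t C : ℝ) (m : ℝ → ℝ) (g : ℕ → ℝ → ℝ) : Prop :=
  (∀ j, ContDiffOn ℝ ∞ (g j) (Ioi 0)) ∧ (∀ r, 0 < r → HasSum (fun j => g j r) (m r)) ∧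
  (∀ r, 0 < r → ∀ j, |g j r| ≤ C * (2 : ℝ) ^ (-(s * j))) ∧
  (∀ r, 0 < r → ∑' j, ENNReal.ofReal |g j r| ≤ ENNReal.ofReal C) ∧
  (∀ j r, 2 * (2 : ℝ) ^ j < r → g j r = 0) ∧
  ∀ i : ℕ, i ≤ n → ∀ (j : ℕ) (a r : ℝ), 0 < a → a ≤ r →
    |(H n t a)^[i] (g j) r| ≤ C * (2 : ℝ) ^ (-(s * j)) * (a ^ 2 / (2 ^ j) ^ 2 + 1 / 2 ^ j) ^ i

/-- HI: iterates of `H` on `cos(2πtr) b₁(r) + sin(2πtr) b₂(r)`, high frequency -/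
def S_HI : Prop := ∀ n N : ℕ, 1 ≤ n → ∃ C : ℝ, 0 < C ∧ ∀ (t lam K a : ℝ) (b₁ b₂ : ℝ → ℝ),
  1 ≤ t → t ≤ 2 → 1 ≤ lam → 0 ≤ K → 0 < a → ContDiff ℝ ∞ b₁ → ContDiff ℝ ∞ b₂ →
  (∀ r, r < lam / 2 ∨ 2 * lam < r → b₁ r = 0 ∧ b₂ r = 0) →
  (∀ l : ℕ, l ≤ 2 * N → ∀ r, |iteratedDeriv l b₁ r| ≤ K / lam ^ l ∧
    |iteratedDeriv l b₂ r| ≤ K / lam ^ l) →
  ∀ i : ℕ, i ≤ N → ∀ r, a ≤ r →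
    |(H n t a)^[i] (fun r => Real.cos (2 * Real.pi * (t * r)) * b₁ r +
      Real.sin (2 * Real.pi * (t * r)) * b₂ r) r| ≤ C * K * (a ^ 2 / lam ^ 2 + 1 / lam) ^ i

/-- LO: iterates of `H` on `G(r²)`, low frequency -/
def S_LO : Prop := ∀ n N : ℕ, 1 ≤ n → ∃ C : ℝ, 0 < C ∧ ∀ (t K a : ℝ) (G : ℝ → ℝ),
  1 ≤ t → t ≤ 2 → 0 ≤ K → 0 < a → ContDiffOn ℝ ∞ G (Ioi 0) → (∀ ρ, 4 ≤ ρ → G ρ = 0) →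
  (∀ l : ℕ, l ≤ 2 * N → ∀ ρ, 0 < ρ → |iteratedDeriv l G ρ| ≤ K) →
  ∀ i : ℕ, i ≤ N → ∀ r, a ≤ r → |(H n t a)^[i] (fun r => G (r ^ 2)) r| ≤ C * K

/-- CO: `cos √x` and `sin √x / √x` have bounded derivatives near `0` -/
def S_CO : Prop := ∀ (l : ℕ) (K : ℝ), ∃ C : ℝ, ∀ ρ, 0 < ρ → ρ ≤ K →
  |iteratedDeriv l (fun x => Real.cos (Real.sqrt x)) ρ| ≤ C ∧
  |iteratedDeriv l (fun x => Real.sin (Real.sqrt x) / Real.sqrt x) ρ| ≤ C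

/-- SYM: derivatives of the symbols -/
def S_SYM : Prop := ∀ (γ : ℝ) (l : ℕ), ∃ C : ℝ, 0 < C ∧
  (∀ r, 1 ≤ r →
    |iteratedDeriv l (fun r : ℝ => (1 + 4 * Real.pi ^ 2 * r ^ 2) ^ γ) r| ≤
      C * r ^ (2 * γ - l) ∧
    |iteratedDeriv l (fun r : ℝ => (2 * Real.pi * r)⁻¹ * (1 + 4 * Real.pi ^ 2 * r ^ 2) ^ γ) r| ≤
      C * r ^ (2 * γ - 1 - l)) ∧
  ∀ ρ, 0 < ρ → ρ ≤ 4 →
    |iteratedDeriv l (fun ρ : ℝ => (1 + 4 * Real.pi ^ 2 * ρ) ^ γ) ρ| ≤ C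

/-- DECG: the dyadic decomposition of `cos(2πtr) β(r)` or `sin(2πtr) β(r)`, `β` of order `-s` -/
def S_DECG : Prop := ∀ (n : ℕ) (s C₀ : ℝ), 1 ≤ n → 0 ≤ s → 0 < C₀ → ∃ C : ℝ, 0 < C ∧
  ∀ (t : ℝ) (m β : ℝ → ℝ), 1 ≤ t → t ≤ 2 → ContDiffOn ℝ ∞ β (Ioi 0) →
  ((∀ r, 0 < r → m r = Real.cos (2 * Real.pi * (t * r)) * β r) ∨
    (∀ r, 0 < r → m r = Real.sin (2 * Real.pi * (t * r)) * β r)) →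
  (∀ l : ℕ, l ≤ 2 * n → ∀ r, 1 ≤ r → |iteratedDeriv l β r| ≤ C₀ * r ^ (-s - l)) →
  (∃ G : ℝ → ℝ, ContDiffOn ℝ ∞ G (Ioi 0) ∧ (∀ r, 0 < r → m r = G (r ^ 2)) ∧
    ∀ l : ℕ, l ≤ 2 * n → ∀ ρ, 0 < ρ → ρ ≤ 4 → |iteratedDeriv l G ρ| ≤ C₀) →
  ∃ g : ℕ → ℝ → ℝ, DecG n s t C m g

/-- DCG, DSG: the decompositions of the symbols -/
def S_DCG : Prop := ∀ (n : ℕ) (s : ℝ), 1 ≤ n → 0 ≤ s → ∃ C : ℝ, 0 < C ∧ ∀ t : ℝ, 1 ≤ t →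
  t ≤ 2 → ∃ g : ℕ → ℝ → ℝ, DecG n s t C (mc s t) g

def S_DSG : Prop := ∀ (n : ℕ) (s : ℝ), 1 ≤ n → 0 ≤ s → ∃ C : ℝ, 0 < C ∧ ∀ t : ℝ, 1 ≤ t →
  t ≤ 2 → ∃ g : ℕ → ℝ → ℝ, DecG n s t C (ms s t) g

/-- TERMG: the `L^p` bound for each piece -/
def S_TERMG : Prop := ∀ (k n : ℕ) (p s α : ℝ), 1 ≤ k → 1 ≤ n → 2 < p → 0 < s → 0 < α →
  ((k : ℝ) + n) * (1 / 2 - 1 / p) - α < s → ((n : ℝ) - 1) * (1 / 2 - 1 / p) < s →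
  ∃ ε : ℝ, 0 < ε ∧ ∀ C : ℝ, 0 < C → ∃ C' : ℝ, 0 < C' ∧
  ∀ (t : ℝ) (m : ℝ → ℝ) (g : ℕ → ℝ → ℝ), 1 ≤ t → t ≤ 2 → DecG n s t C m g →
  ∀ (f : SchwartzMap (E k × E n) ℂ) (j i : ℕ),
  (∫⁻ z : E k × E n, ‖T k n (g j) (Mi k i) (pft k n f) z‖ₑ ^ p ≤
    ENNReal.ofReal (C' * (2 : ℝ) ^ (-(ε * j))) *
      ∫⁻ x : E n, (bes k α fun y => f (y, x)) ^ (p / 2)) ∧
  (j + 2 < i → ∀ z, T k n (g j) (Mi k i) (pft k n f) z = 0)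

/-- SUMG: the `L^p` bound for the multiplier operator -/
def S_SUMG : Prop := ∀ (k n : ℕ) (p s α : ℝ), 1 ≤ k → 1 ≤ n → 2 < p → 0 < s → 0 < α →
  ((k : ℝ) + n) * (1 / 2 - 1 / p) - α < s → ((n : ℝ) - 1) * (1 / 2 - 1 / p) < s →
  ∀ C : ℝ, 0 < C → ∃ C' : ℝ, 0 < C' ∧ ∀ (t : ℝ) (m : ℝ → ℝ) (g : ℕ → ℝ → ℝ), 1 ≤ t → t ≤ 2 →
  DecG n s t C m g → ∀ f : SchwartzMap (E k × E n) ℂ,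
  ∫⁻ z : E k × E n, ‖mult k n m f z‖ₑ ^ p ≤
    ENNReal.ofReal C' * ∫⁻ x : E n, (bes k α fun y => f (y, x)) ^ (p / 2)

end Pool.Agent.R245.WG
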