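import Pool.Agent.R245.WG.Stm
import Pool.Agent.R245.WB.Sum

set_option autoImplicit false

/-! S_SUMG from S_TM, S_ADM, S_REP, S_TERMG -/

open MeasureTheory Set
open scoped ENNReal RealInnerProductSpace ContDiff

namespace Pool.Agent.R245.WG

open Pool.Agent.R245.WB Pool.Agent.R245.WB.SUMaux

theorem dec_of {n : ℕ} {s t C : ℝ} {m : ℝ → ℝ} {g : ℕ → ℝ → ℝ} (hn : 1 ≤ n)
    (h : DecG n s t C m g) : Dec n s t C m g := by
  obtain ⟨h1, h2, h3, h4, h5, h6⟩ := h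
  refine ⟨fun j => (h1 j).of_le ENat.LEInfty.out, h2, h3, h4, h5, ?_⟩
  intro j a r ha har
  have := h6 1 hn j a r ha har
  simpa using this

theorem sumg_thm (h1 : S_TM) (h2 : S_ADM) (h3 : S_REP) (h4 : S_TERMG) : S_SUMG := by
  intro k n p s α hk hn hp hs hα ha hb C hC
  obtain ⟨ε, hε, h4⟩ := h4 k n p s α hk hn hp hs hα ha hb
  obtain ⟨C', hC', h4⟩ := h4 C hC
  have hp0 : 0 < p := by linarith
  set W : ℝ≥0∞ := ∑' q : ℕ × ℕ, ENNReal.ofReal ((2 : ℝ) ^ (-(ε / 4 / (p - 1) *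
    ((q.1 : ℝ) + q.2)))) with hW
  set V : ℝ≥0∞ := ∑' q : ℕ × ℕ, ENNReal.ofReal ((2 : ℝ) ^ (-(ε / 4 * ((q.1 : ℝ) + q.2)))) with hV
  have hWt : W ≠ ⊤ := geo _ (by
    have : 0 < p - 1 := by linarith
    positivity)
  have hVt : V ≠ ⊤ := geo _ (by positivity)
  set K : ℝ≥0∞ := W ^ (p - 1) * (V * ENNReal.ofReal (C' * 2 ^ ε)) with hK
  have hKt : K ≠ ⊤ := ENNReal.mul_ne_top (ENNReal.rpow_ne_top_of_nonneg (by linarith) hWt)
    (ENNReal.mul_ne_top hVt ENNReal.ofReal_ne_top)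
  refine ⟨K.toReal + 1, by positivity, ?_⟩
  intro t m g ht1 ht2 hDG f
  have hD : Dec n s t C m g := dec_of hn hDG
  set B : ℝ≥0∞ := ∫⁻ x : E n, (bes k α fun y => f (y, x)) ^ (p / 2) with hB
  have h4 := h4 t m g ht1 ht2 hDG f
  obtain ⟨hadm, -, -, -⟩ := h2 k n f hk hn
  have h3 := h3 k n s t C m g hk hn hs.le hC hD f
  have hTm : ∀ q : ℕ × ℕ, Measurable (T k n (g q.1) (Mi k q.2) (pft k n f)) := fun q =>
    (h1 k n _ _ _ (g q.1) (Mi k q.2) hk hn (admG hC hD q.1 q.2)).1 _ hadm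
  set w : ℕ × ℕ → ℝ≥0∞ := fun q =>
    ENNReal.ofReal ((2 : ℝ) ^ (-(ε / (4 * p) * ((q.1 : ℝ) + q.2)))) with hw
  have hw0 : ∀ q, w q ≠ 0 := fun q => by
    simp only [hw, ne_eq, ENNReal.ofReal_eq_zero, not_le]
    positivity
  have hwt : ∀ q, w q ≠ ⊤ := fun q => ENNReal.ofReal_ne_top
  have hwW : ∑' q, w q ^ (p / (p - 1)) = W := by
    refine tsum_congr fun q => ?_
    simp only [hw]
    rw [ENNReal.ofReal_rpow_of_pos (by positivity), ← Real.rpow_mul (by norm_num)]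
    congr 2
    have : p - 1 ≠ 0 := by intro h; linarith
    field_simp
  have hwp : ∀ q, w q ^ (-p) = ENNReal.ofReal ((2 : ℝ) ^ (ε / 4 * ((q.1 : ℝ) + q.2))) := by
    intro q
    simp only [hw]
    rw [ENNReal.ofReal_rpow_of_pos (by positivity), ← Real.rpow_mul (by norm_num)]
    congr 2
    field_simp
  -- the pointwise bound
  have hpt : ∀ z, ‖mult k n m f z‖ₑ ^ p ≤
      W ^ (p - 1) * ∑' q : ℕ × ℕ, w q ^ (-p) * ‖T k n (g q.1) (Mi k q.2) (pft k n f) z‖ₑ ^ p := by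
    intro z
    rw [(h3 z).2]
    have a1 : ‖∑' q : ℕ × ℕ, T k n (g q.1) (Mi k q.2) (pft k n f) z‖ₑ ≤
        ∑' q : ℕ × ℕ, ‖T k n (g q.1) (Mi k q.2) (pft k n f) z‖ₑ := enorm_tsum_le_tsum_enorm
    refine (ENNReal.rpow_le_rpow a1 hp0.le).trans ?_
    have := hold p (by linarith) w (fun q => ‖T k n (g q.1) (Mi k q.2) (pft k n f) z‖ₑ) hw0 hwt
    rw [hwW] at this
    exact this
  -- the bound for each piece
  have hpc : ∀ q : ℕ × ℕ, w q ^ (-p) * ∫⁻ z, ‖T k n (g q.1) (Mi k q.2) (pft k n f) z‖ₑ ^ p ≤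
      ENNReal.ofReal ((2 : ℝ) ^ (-(ε / 4 * ((q.1 : ℝ) + q.2)))) *
        (ENNReal.ofReal (C' * 2 ^ ε) * B) := by
    intro q
    by_cases hq : q.1 + 2 < q.2
    · have e0 : ∀ z, T k n (g q.1) (Mi k q.2) (pft k n f) z = 0 := (h4 q.1 q.2).2 hq
      have e1 : ∫⁻ z, ‖T k n (g q.1) (Mi k q.2) (pft k n f) z‖ₑ ^ p = 0 := by
        simp [e0, hp0]
      rw [e1, mul_zero]
      exact bot_le
    · push Not at hq
      refine (mul_le_mul_right (h4 q.1 q.2).1 _).trans ?_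
      rw [← mul_assoc, ← mul_assoc, hwp, ← ENNReal.ofReal_mul (by positivity),
        ← ENNReal.ofReal_mul (by positivity)]
      refine mul_le_mul_left (ENNReal.ofReal_le_ofReal ?_) _
      have b1 : (q.2 : ℝ) ≤ q.1 + 2 := by exact_mod_cast hq
      have b2 : (2 : ℝ) ^ (ε / 4 * ((q.1 : ℝ) + q.2)) * (2 : ℝ) ^ (-(ε * q.1)) ≤
          (2 : ℝ) ^ (-(ε / 4 * ((q.1 : ℝ) + q.2))) * (2 : ℝ) ^ ε := by
        rw [← Real.rpow_add (by norm_num), ← Real.rpow_add (by norm_num)]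
        refine Real.rpow_le_rpow_of_exponent_le (by norm_num) ?_
        nlinarith
      calc (2 : ℝ) ^ (ε / 4 * ((q.1 : ℝ) + q.2)) * (C' * (2 : ℝ) ^ (-(ε * q.1)))
          = C' * ((2 : ℝ) ^ (ε / 4 * ((q.1 : ℝ) + q.2)) * (2 : ℝ) ^ (-(ε * q.1))) := by ring
        _ ≤ C' * ((2 : ℝ) ^ (-(ε / 4 * ((q.1 : ℝ) + q.2))) * (2 : ℝ) ^ ε) := by gcongr
        _ = _ := by ring
  calc ∫⁻ z : E k × E n, ‖mult k n m f z‖ₑ ^ p
      ≤ ∫⁻ z : E k × E n, W ^ (p - 1) * ∑' q : ℕ × ℕ,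
          w q ^ (-p) * ‖T k n (g q.1) (Mi k q.2) (pft k n f) z‖ₑ ^ p := lintegral_mono hpt
    _ = W ^ (p - 1) * ∑' q : ℕ × ℕ,
          w q ^ (-p) * ∫⁻ z, ‖T k n (g q.1) (Mi k q.2) (pft k n f) z‖ₑ ^ p := by
        rw [lintegral_const_mul' _ _ (ENNReal.rpow_ne_top_of_nonneg (by linarith) hWt),
          lintegral_tsum fun q => (((hTm q).enorm.pow_const p).const_mul _).aemeasurable]
        congr 1
        refine tsum_congr fun q => ?_
        rw [lintegral_const_mul _ ((hTm q).enorm.pow_const p)]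
    _ ≤ W ^ (p - 1) * ∑' q : ℕ × ℕ,
          ENNReal.ofReal ((2 : ℝ) ^ (-(ε / 4 * ((q.1 : ℝ) + q.2)))) *
            (ENNReal.ofReal (C' * 2 ^ ε) * B) := by
        exact mul_le_mul_right (ENNReal.tsum_le_tsum hpc) _
    _ = K * B := by
        rw [ENNReal.tsum_mul_right, ← hV, hK]
        ring
    _ ≤ ENNReal.ofReal (K.toReal + 1) * B := by
        gcongr
        rw [ENNReal.ofReal_add (by positivity) (by norm_num), ENNReal.ofReal_toReal hKt]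
        exact le_self_add

end Pool.Agent.R245.WG
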