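import Pool.Agent.R245.WG.Stm

set_option autoImplicit false

/-!
# WG-SYM (helper451): derivatives of the symbols
-/

open MeasureTheory Set Filter Topology
open scoped ENNReal RealInnerProductSpace ContDiff

namespace Pool.Agent.R245.WG

namespace SYMaux

/-- `r ^ e (1 + 4 π² r²) ^ γ` -/
noncomputable def Ph (e γ : ℝ) (r : ℝ) : ℝ := r ^ e * (1 + 4 * Real.pi ^ 2 * r ^ 2) ^ γ

lemma pos1 (r : ℝ) : 0 < 1 + 4 * Real.pi ^ 2 * r ^ 2 := by positivity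

lemma Ph_contDiffAt (e γ : ℝ) {r : ℝ} (hr : 0 < r) (n : ℕ∞) : ContDiffAt ℝ n (Ph e γ) r := by
  unfold Ph
  refine ContDiffAt.mul ?_ ?_
  · exact Real.contDiffAt_rpow_const_of_ne hr.ne'
  · refine ContDiffAt.rpow_const_of_ne ?_ (pos1 r).ne'
    exact contDiffAt_const.add (contDiffAt_const.mul (contDiffAt_id.pow 2))

lemma Ph_deriv (e γ : ℝ) {r : ℝ} (hr : 0 < r) :
    deriv (Ph e γ) r = e * Ph (e - 1) γ r + (8 * Real.pi ^ 2 * γ) * Ph (e + 1) (γ - 1) r := by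
  have h1 : HasDerivAt (fun r : ℝ => r ^ e) (e * r ^ (e - 1)) r :=
    Real.hasDerivAt_rpow_const (Or.inl hr.ne')
  have h2 : HasDerivAt (fun r : ℝ => 1 + 4 * Real.pi ^ 2 * r ^ 2) (4 * Real.pi ^ 2 * (2 * r)) r := by
    have h := ((hasDerivAt_pow 2 r).const_mul (4 * Real.pi ^ 2)).const_add 1
    simpa using h
  have h3 := h2.rpow_const (p := γ) (Or.inl (pos1 r).ne')
  have h4 : deriv (Ph e γ) r = _ := (h1.mul h3).deriv
  rw [h4]
  unfold Ph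
  have h5 : r ^ (e + 1) = r ^ e * r := by rw [Real.rpow_add_one hr.ne']
  rw [h5]
  ring

lemma Ph_bound0 (e γ : ℝ) {r : ℝ} (hr : 1 ≤ r) :
    |Ph e γ r| ≤ (1 + 4 * Real.pi ^ 2) ^ |γ| * r ^ (e + 2 * γ) := by
  have hr0 : 0 < r := by linarith
  have hp : 0 < r ^ e := Real.rpow_pos_of_pos hr0 e
  have hb : 1 ≤ 1 + 4 * Real.pi ^ 2 := by nlinarith [sq_nonneg Real.pi]
  have hq : 0 < (1 + 4 * Real.pi ^ 2 * r ^ 2) ^ γ := Real.rpow_pos_of_pos (pos1 r) γ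
  unfold Ph
  rw [abs_of_pos (mul_pos hp hq), Real.rpow_add hr0]
  have h2 : r ^ (2 * γ) = (r ^ 2) ^ γ := by
    rw [Real.rpow_mul hr0.le]
    norm_num
  have key : (1 + 4 * Real.pi ^ 2 * r ^ 2) ^ γ ≤ (1 + 4 * Real.pi ^ 2) ^ |γ| * (r ^ 2) ^ γ := by
    rcases le_total 0 γ with h | h
    · rw [abs_of_nonneg h, ← Real.mul_rpow (by positivity) (by positivity)]
      apply Real.rpow_le_rpow (pos1 r).le _ h
      nlinarith
    · have h3 : (1 : ℝ) ≤ (1 + 4 * Real.pi ^ 2) ^ |γ| := Real.one_le_rpow hb (abs_nonneg _)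
      have h4 : (1 + 4 * Real.pi ^ 2 * r ^ 2) ^ γ ≤ (r ^ 2) ^ γ := by
        apply Real.rpow_le_rpow_of_nonpos (by positivity) _ h
        have h8 := Real.pi_gt_three
        have h9 : (1 : ℝ) ≤ 4 * Real.pi ^ 2 := by nlinarith
        have h10 := mul_le_mul_of_nonneg_right h9 (sq_nonneg r)
        linarith
      have h5 : 0 < (r ^ 2) ^ γ := Real.rpow_pos_of_pos (by positivity) γ
      nlinarith
  rw [h2]
  calc r ^ e * (1 + 4 * Real.pi ^ 2 * r ^ 2) ^ γ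
      ≤ r ^ e * ((1 + 4 * Real.pi ^ 2) ^ |γ| * (r ^ 2) ^ γ) :=
        mul_le_mul_of_nonneg_left key hp.le
    _ = _ := by ring

lemma Ph_bound (l : ℕ) : ∀ e γ : ℝ, ∃ C : ℝ, 0 ≤ C ∧ ∀ r, 1 ≤ r →
    |iteratedDeriv l (Ph e γ) r| ≤ C * r ^ (e + 2 * γ - l) := by
  induction l with
  | zero =>
    intro e γ
    refine ⟨(1 + 4 * Real.pi ^ 2) ^ |γ|, by positivity, fun r hr => ?_⟩
    simpa using Ph_bound0 e γ hr
  | succ l ih =>
    intro e γ
    obtain ⟨C1, h1, h2⟩ := ih (e - 1) γ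
    obtain ⟨C2, h3, h4⟩ := ih (e + 1) (γ - 1)
    refine ⟨|e| * C1 + |8 * Real.pi ^ 2 * γ| * C2, by positivity, fun r hr => ?_⟩
    have hr0 : 0 < r := by linarith
    have h5 : deriv (Ph e γ) =ᶠ[𝓝 r] fun r => e * Ph (e - 1) γ r +
        (8 * Real.pi ^ 2 * γ) * Ph (e + 1) (γ - 1) r := by
      filter_upwards [Ioi_mem_nhds hr0] with x hx using Ph_deriv e γ hx
    rw [iteratedDeriv_succ', h5.iteratedDeriv_eq l]
    have h6 : iteratedDeriv l (fun r => e * Ph (e - 1) γ r +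
        (8 * Real.pi ^ 2 * γ) * Ph (e + 1) (γ - 1) r) r =
        e * iteratedDeriv l (Ph (e - 1) γ) r +
          (8 * Real.pi ^ 2 * γ) * iteratedDeriv l (Ph (e + 1) (γ - 1)) r := by
      rw [← iteratedDeriv_const_mul_field, ← iteratedDeriv_const_mul_field,
        ← iteratedDeriv_fun_add]
      · exact contDiffAt_const.mul (Ph_contDiffAt _ _ hr0 l)
      · exact contDiffAt_const.mul (Ph_contDiffAt _ _ hr0 l)
    rw [h6]
    refine (abs_add_le _ _).trans ?_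
    rw [abs_mul, abs_mul]
    have e1 : e + 2 * γ - ((l + 1 : ℕ) : ℝ) = e - 1 + 2 * γ - l := by push_cast; ring
    have e2 : e + 1 + 2 * (γ - 1) - (l : ℝ) = e - 1 + 2 * γ - l := by ring
    have h7 := h2 r hr
    have h8 := h4 r hr
    rw [e2] at h8
    rw [e1]
    calc |e| * |iteratedDeriv l (Ph (e - 1) γ) r| +
        |8 * Real.pi ^ 2 * γ| * |iteratedDeriv l (Ph (e + 1) (γ - 1)) r|
        ≤ |e| * (C1 * r ^ (e - 1 + 2 * γ - l)) +
          |8 * Real.pi ^ 2 * γ| * (C2 * r ^ (e - 1 + 2 * γ - l)) :=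
          add_le_add (mul_le_mul_of_nonneg_left h7 (abs_nonneg _))
            (mul_le_mul_of_nonneg_left h8 (abs_nonneg _))
      _ = _ := by ring

/-- the third function -/
noncomputable def Ps (γ : ℝ) (ρ : ℝ) : ℝ := (1 + 4 * Real.pi ^ 2 * ρ) ^ γ

lemma Ps_deriv (γ : ℝ) {ρ : ℝ} (hρ : 0 < ρ) :
    deriv (Ps γ) ρ = (4 * Real.pi ^ 2 * γ) * Ps (γ - 1) ρ := by
  have hp : 0 < 1 + 4 * Real.pi ^ 2 * ρ := by positivity
  have h2 : HasDerivAt (fun ρ : ℝ => 1 + 4 * Real.pi ^ 2 * ρ) (4 * Real.pi ^ 2) ρ := by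
    have h := ((hasDerivAt_id ρ).const_mul (4 * Real.pi ^ 2)).const_add 1
    simpa using h
  have h3 : deriv (Ps γ) ρ = _ := (h2.rpow_const (p := γ) (Or.inl hp.ne')).deriv
  rw [h3]
  unfold Ps
  ring

lemma Ps_bound (l : ℕ) : ∀ γ : ℝ, ∃ C : ℝ, 0 ≤ C ∧ ∀ ρ, 0 < ρ → ρ ≤ 4 →
    |iteratedDeriv l (Ps γ) ρ| ≤ C := by
  induction l with
  | zero =>
    intro γ
    refine ⟨(1 + 16 * Real.pi ^ 2) ^ |γ|, by positivity, fun ρ h0 h4 => ?_⟩
    have hp : 0 < 1 + 4 * Real.pi ^ 2 * ρ := by positivity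
    have h1 : 1 ≤ 1 + 4 * Real.pi ^ 2 * ρ := by
      have : 0 < 4 * Real.pi ^ 2 * ρ := by positivity
      linarith
    rw [iteratedDeriv_zero]
    unfold Ps
    rw [abs_of_pos (Real.rpow_pos_of_pos hp _)]
    calc (1 + 4 * Real.pi ^ 2 * ρ) ^ γ ≤ (1 + 4 * Real.pi ^ 2 * ρ) ^ |γ| :=
          Real.rpow_le_rpow_of_exponent_le h1 (le_abs_self γ)
      _ ≤ (1 + 16 * Real.pi ^ 2) ^ |γ| := by
          apply Real.rpow_le_rpow hp.le _ (abs_nonneg _)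
          nlinarith [sq_nonneg Real.pi]
  | succ l ih =>
    intro γ
    obtain ⟨C, h1, h2⟩ := ih (γ - 1)
    refine ⟨|4 * Real.pi ^ 2 * γ| * C, by positivity, fun ρ h0 h4 => ?_⟩
    have h5 : deriv (Ps γ) =ᶠ[𝓝 ρ] fun ρ => (4 * Real.pi ^ 2 * γ) * Ps (γ - 1) ρ := by
      filter_upwards [Ioi_mem_nhds h0] with x hx using Ps_deriv γ hx
    rw [iteratedDeriv_succ', h5.iteratedDeriv_eq l, iteratedDeriv_const_mul_field, abs_mul]
    exact mul_le_mul_of_nonneg_left (h2 ρ h0 h4) (abs_nonneg _)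

end SYMaux

open SYMaux in
/-- SYM -/
theorem sym_thm : S_SYM := by
  intro γ l
  obtain ⟨C1, h1, h2⟩ := Ph_bound l 0 γ
  obtain ⟨C2, h3, h4⟩ := Ph_bound l (-1) γ
  obtain ⟨C3, h5, h6⟩ := Ps_bound l γ
  have hpi := Real.pi_pos
  refine ⟨C1 + (2 * Real.pi)⁻¹ * C2 + C3 + 1, by positivity, fun r hr => ⟨?_, ?_⟩,
    fun ρ h0 h7 => ?_⟩
  · have hr0 : 0 < r := by linarith
    have h8 : (fun r : ℝ => (1 + 4 * Real.pi ^ 2 * r ^ 2) ^ γ) =ᶠ[𝓝 r] Ph 0 γ := by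
      filter_upwards [Ioi_mem_nhds hr0] with x hx
      unfold Ph
      rw [Real.rpow_zero, one_mul]
    rw [h8.iteratedDeriv_eq l]
    have h9 := h2 r hr
    rw [zero_add] at h9
    refine h9.trans (mul_le_mul_of_nonneg_right ?_ (Real.rpow_nonneg hr0.le _))
    have : 0 ≤ (2 * Real.pi)⁻¹ * C2 := by positivity
    linarith
  · have hr0 : 0 < r := by linarith
    have h8 : (fun r : ℝ => (2 * Real.pi * r)⁻¹ * (1 + 4 * Real.pi ^ 2 * r ^ 2) ^ γ) =ᶠ[𝓝 r]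
        fun r => (2 * Real.pi)⁻¹ * Ph (-1) γ r := by
      filter_upwards [Ioi_mem_nhds hr0] with x hx
      unfold Ph
      rw [Real.rpow_neg_one, mul_inv]
      ring
    rw [h8.iteratedDeriv_eq l, iteratedDeriv_const_mul_field, abs_mul,
      abs_of_pos (show 0 < (2 * Real.pi)⁻¹ by positivity)]
    have h9 := h4 r hr
    have e1 : -1 + 2 * γ - (l : ℝ) = 2 * γ - 1 - l := by ring
    rw [e1] at h9
    calc (2 * Real.pi)⁻¹ * |iteratedDeriv l (Ph (-1) γ) r|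
        ≤ (2 * Real.pi)⁻¹ * (C2 * r ^ (2 * γ - 1 - (l : ℝ))) :=
          mul_le_mul_of_nonneg_left h9 (by positivity)
      _ = ((2 * Real.pi)⁻¹ * C2) * r ^ (2 * γ - 1 - (l : ℝ)) := by ring
      _ ≤ _ := by
          refine mul_le_mul_of_nonneg_right ?_ (Real.rpow_nonneg hr0.le _)
          linarith
  · refine (h6 ρ h0 h7).trans ?_
    have : 0 ≤ (2 * Real.pi)⁻¹ * C2 := by positivity
    linarith

end Pool.Agent.R245.WG
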