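import Pool.Agent.R245.WG.Stm
import Pool.Agent.R245.WB.Term

set_option autoImplicit false

/-!
# MP_ee74d2_an, project WG, step TERMG: the `L^p` bound for each piece, every `n ≥ 1`
-/

open MeasureTheory Set
open scoped ENNReal RealInnerProductSpace ContDiff

namespace Pool.Agent.R245.WG

open Pool.Agent.R245.WB

open TERMaux in
theorem termg_thm (h1 : S_OP) (h2 : S_QG) (h3 : S_BES) (h4 : S_ADM) : S_TERMG := by
  intro k n p s α hk hn hp hs hα hc1 hc2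
  have hp0 : 0 < p := by linarith
  obtain ⟨B, hB⟩ : ∃ B : ℝ, B = max 0 (((k : ℝ) + 1) * (p - 2) / 2 - α * p) := ⟨_, rfl⟩
  obtain ⟨ε, hε⟩ : ∃ ε : ℝ, ε = s * p - ((n : ℝ) - 1) * (p - 2) / 2 - B := ⟨_, rfl⟩
  have hεpos : 0 < ε := by
    have e1 : s * p - ((n : ℝ) - 1) * (p - 2) / 2 =
        p * (s - ((n : ℝ) - 1) * (1 / 2 - 1 / p)) := by field_simp
    have e2 : s * p - ((n : ℝ) - 1) * (p - 2) / 2 - (((k : ℝ) + 1) * (p - 2) / 2 - α * p) =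
        p * (s - (((k : ℝ) + n) * (1 / 2 - 1 / p) - α)) := by field_simp; ring
    have e3 : 0 < p * (s - ((n : ℝ) - 1) * (1 / 2 - 1 / p)) :=
      mul_pos hp0 (by linarith)
    have e4 : 0 < p * (s - (((k : ℝ) + n) * (1 / 2 - 1 / p) - α)) :=
      mul_pos hp0 (by linarith)
    rcases max_choice (0 : ℝ) (((k : ℝ) + 1) * (p - 2) / 2 - α * p) with h | h
    · rw [hε, hB, h]; linarith
    · rw [hε, hB, h]; linarith
  obtain ⟨CO, hCO, hOP⟩ := h1 p hp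
  obtain ⟨CQ, hCQ, hQ⟩ := h2 k n hk hn
  obtain ⟨CB, hCB, hBB⟩ := bes_bd h3 h4 k n α hk hn hα
  refine ⟨ε, hεpos, fun C hC => ?_⟩
  refine ⟨CO * CQ ^ (p - 2) * C ^ p * 5 ^ ((p - 2) / 2) * 2 ^ ((n : ℝ) * (p - 2) / 2) *
    CB ^ (p / 2) * 2 ^ (2 * B), by positivity, fun t m g ht1 ht2 hD f j i => ?_⟩
  obtain ⟨d1, d2, d3, d4, d5, d6⟩ := hD
  by_cases hij : j + 2 < i
  · have hz : ∀ z, T k n (g j) (Mi k i) (pft k n f) z = 0 := fun z =>
      T_zero k n (g j) i j hij (d5 j) _ z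
    refine ⟨?_, fun _ => hz⟩
    have h0 : ∀ z, ‖T k n (g j) (Mi k i) (pft k n f) z‖ₑ ^ p = 0 := fun z => by
      rw [hz z, enorm_zero, ENNReal.zero_rpow_of_pos hp0]
    simp only [h0, lintegral_zero]
    exact zero_le
  · refine ⟨?_, fun h => absurd h hij⟩
    have hij' : i ≤ j + 2 := by omega
    have hA : 0 < C * (2 : ℝ) ^ (-(s * j)) := by positivity
    have h2i : (1 : ℝ) ≤ 2 ^ i := one_le_pow₀ (by norm_num)
    have h2j : (0 : ℝ) < 2 ^ j := by positivity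
    have h2ij : (2 : ℝ) ^ i ≤ 4 * 2 ^ j := by
      have h0 : (2 : ℝ) ^ i ≤ 2 ^ (j + 2) := pow_le_pow_right₀ (by norm_num) hij'
      have h5 : (2 : ℝ) ^ (j + 2) = 4 * 2 ^ j := by ring
      linarith
    have hδ : (0 : ℝ) < 5 * 2 ^ i / 2 ^ j := by positivity
    have hδ20 : (5 * 2 ^ i / 2 ^ j : ℝ) ≤ 20 := by
      rw [div_le_iff₀ h2j]; linarith
    have hH : ∀ a r, 0 < a → a < (2 : ℝ) ^ i → a ≤ r →
        |(H n t a)^[n] (g j) r| ≤ C * (2 : ℝ) ^ (-(s * j)) * (5 * 2 ^ i / 2 ^ j) ^ n := by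
      intro a r ha haR har
      refine (d6 n le_rfl j a r ha har).trans ?_
      refine mul_le_mul_of_nonneg_left ?_ hA.le
      have h5 : a ^ 2 ≤ (2 : ℝ) ^ i * (4 * 2 ^ j) := by
        calc a ^ 2 = a * a := by ring
          _ ≤ 2 ^ i * 2 ^ i := mul_le_mul haR.le haR.le ha.le (by positivity)
          _ ≤ 2 ^ i * (4 * 2 ^ j) := by gcongr
      have h6 : a ^ 2 / ((2 : ℝ) ^ j) ^ 2 ≤ 4 * 2 ^ i / 2 ^ j := by
        rw [div_le_div_iff₀ (by positivity) h2j]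
        nlinarith
      have h7 : (1 : ℝ) / 2 ^ j ≤ 2 ^ i / 2 ^ j := by gcongr
      refine pow_le_pow_left₀ (by positivity) ?_ n
      calc a ^ 2 / ((2 : ℝ) ^ j) ^ 2 + 1 / 2 ^ j ≤ 4 * 2 ^ i / 2 ^ j + 2 ^ i / 2 ^ j :=
            add_le_add h6 h7
        _ = 5 * 2 ^ i / 2 ^ j := by ring
    have hg3 : ∀ r, 0 < r → |g j r| ≤ C * (2 : ℝ) ^ (-(s * j)) := fun r hr => d3 r hr j
    have hQ' := hQ t (C * (2 : ℝ) ^ (-(s * j))) (5 * 2 ^ i / 2 ^ j) (2 * 2 ^ j) (2 ^ i) (g j)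
      (Mi k i) ht1 ht2 hδ hδ20 hA.le (by positivity) (by positivity) (d1 j) (d5 j) hg3 hH
      (Mi_meas k i) (Mi_bd k i)
    have hO := hOP k n (C * (2 : ℝ) ^ (-(s * j))) (2 * 2 ^ j) (2 ^ i) _ (g j) (Mi k i) hk hn
      ⟨hA.le, by positivity, (d1 j).continuousOn, d5 j, hg3, Mi_meas k i, Mi_bd k i⟩ hA
      (by positivity) (pft k n f) (h4 k n f hk hn).1 hQ'
    refine hO.trans ?_
    have hin : ∫⁻ x, (∫⁻ η in Mi k i, ‖pft k n f (η, x)‖ₑ ^ 2) ^ (p / 2) ≤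
        ENNReal.ofReal ((CB * ((2 : ℝ) ^ i) ^ (-(2 * α))) ^ (p / 2)) *
          ∫⁻ x, (bes k α fun y => f (y, x)) ^ (p / 2) := by
      rw [← lintegral_const_mul' _ _ ENNReal.ofReal_ne_top]
      refine lintegral_mono fun x => ?_
      calc (∫⁻ η in Mi k i, ‖pft k n f (η, x)‖ₑ ^ 2) ^ (p / 2)
          ≤ (ENNReal.ofReal (CB * ((2 : ℝ) ^ i) ^ (-(2 * α))) *
            bes k α (fun y => f (y, x))) ^ (p / 2) :=
            ENNReal.rpow_le_rpow (hBB f i x) (by positivity)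
        _ = _ := by
          rw [ENNReal.mul_rpow_of_nonneg _ _ (by positivity),
            ENNReal.ofReal_rpow_of_pos (by positivity)]
    refine (mul_le_mul_right hin _).trans ?_
    rw [← mul_assoc, ← ENNReal.ofReal_mul (by positivity)]
    refine mul_le_mul_left (ENNReal.ofReal_le_ofReal ?_) _
    exact real_ineq k n p s α CO CQ C CB B ε i j hij' hCO hCQ hC hCB hB hε

end Pool.Agent.R245.WG
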