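import Pool.Agent.R245.WG.Stm
import Pool.Agent.R245.WB.Wt

set_option autoImplicit false

/-!
# MP_ee74d2_an, project WG, piece WTG: the integral of the inverse of the weight (helper179)
-/

open MeasureTheory Set
open scoped ENNReal RealInnerProductSpace

namespace Pool.Agent.R245.WG

open Pool.Agent.R245.WB Pool.Agent.R245.WB.WTaux

namespace WTGaux

lemma mix {a z : ℝ} (ha : 0 ≤ a) (hz : 0 ≤ z) (M : ℕ) :
    z * a ^ M ≤ a ^ (M + 1) + z ^ (M + 1) := by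
  rcases le_total a z with h | h
  · have : a ^ M ≤ z ^ M := pow_le_pow_left₀ ha h M
    calc z * a ^ M ≤ z * z ^ M := by gcongr
      _ = z ^ (M + 1) := by ring
      _ ≤ _ := by linarith [pow_nonneg ha (M + 1)]
  · calc z * a ^ M ≤ a * a ^ M := by gcongr
      _ = a ^ (M + 1) := by ring
      _ ≤ _ := by linarith [pow_nonneg hz (M + 1)]

lemma keyN {n M : ℕ} (hn : n - 1 ≤ 4 * M + 2) {y t δ : ℝ} (hy : 0 < y) (ht1 : 1 ≤ t)
    (ht2 : t ≤ 2) (hδ : 0 < δ) (hδ' : δ ≤ 20) :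
    y ^ (n - 1) * (δ ^ 2 + (y - t) ^ 2) * (δ ^ 2) ^ M ≤
      (2 * 4 ^ (n - 1) + 26 * 400 ^ M * 2 ^ (M + 1)) *
        ((δ ^ 2) ^ (M + 1) + ((y ^ 2 - t ^ 2) ^ 2) ^ (M + 1)) := by
  have ha0 : 0 ≤ δ ^ 2 := sq_nonneg _
  have hz0 : 0 ≤ (y ^ 2 - t ^ 2) ^ 2 := sq_nonneg _
  have hx0 : 0 ≤ (y - t) ^ 2 := sq_nonneg _
  have hxz : (y - t) ^ 2 ≤ (y ^ 2 - t ^ 2) ^ 2 := by
    have e : (y ^ 2 - t ^ 2) ^ 2 = (y + t) ^ 2 * (y - t) ^ 2 := by ring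
    rw [e]
    have h : 1 ≤ (y + t) ^ 2 := by nlinarith
    nlinarith
  have ha400 : δ ^ 2 ≤ 400 := by nlinarith
  set a : ℝ := δ ^ 2 with ha
  set x : ℝ := (y - t) ^ 2 with hx
  set z : ℝ := (y ^ 2 - t ^ 2) ^ 2 with hz
  have hS : 0 ≤ a ^ (M + 1) + z ^ (M + 1) := by positivity
  rcases le_total y 4 with h4 | h4
  · have h1 : y ^ (n - 1) ≤ 4 ^ (n - 1) := pow_le_pow_left₀ hy.le h4 _
    have h2 : (a + x) * a ^ M ≤ 2 * (a ^ (M + 1) + z ^ (M + 1)) := by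
      have h3 := mix ha0 hz0 M
      have h5 : x * a ^ M ≤ z * a ^ M := by gcongr
      have h6 : a * a ^ M = a ^ (M + 1) := by ring
      have h7 : 0 ≤ z ^ (M + 1) := by positivity
      nlinarith
    calc y ^ (n - 1) * (a + x) * a ^ M = y ^ (n - 1) * ((a + x) * a ^ M) := by ring
      _ ≤ 4 ^ (n - 1) * (2 * (a ^ (M + 1) + z ^ (M + 1))) :=
          mul_le_mul h1 h2 (by positivity) (by positivity)
      _ = (2 * 4 ^ (n - 1)) * (a ^ (M + 1) + z ^ (M + 1)) := by ring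
      _ ≤ _ := by
          apply mul_le_mul_of_nonneg_right _ hS
          have : (0 : ℝ) ≤ 26 * 400 ^ M * 2 ^ (M + 1) := by positivity
          linarith
  · have h1 : y ^ (n - 1) ≤ y ^ (4 * M + 2) := pow_le_pow_right₀ (by linarith) hn
    have hxy : x ≤ y ^ 2 := by
      rw [hx]
      nlinarith
    have h2 : a + x ≤ 26 * y ^ 2 := by nlinarith
    have h3 : a ^ M ≤ 400 ^ M := pow_le_pow_left₀ ha0 ha400 M
    have h5 : y ^ 4 ≤ 2 * z := by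
      have h6 : 3 / 4 * y ^ 2 ≤ y ^ 2 - t ^ 2 := by nlinarith
      have h7 : (3 / 4 * y ^ 2) ^ 2 ≤ (y ^ 2 - t ^ 2) ^ 2 :=
        pow_le_pow_left₀ (by positivity) h6 2
      rw [← hz] at h7
      nlinarith [sq_nonneg (y ^ 2)]
    have h8 : (y ^ 4) ^ (M + 1) ≤ (2 * z) ^ (M + 1) := pow_le_pow_left₀ (by positivity) h5 _
    calc y ^ (n - 1) * (a + x) * a ^ M ≤ y ^ (4 * M + 2) * (26 * y ^ 2) * 400 ^ M := by
          gcongr
      _ = 26 * 400 ^ M * (y ^ 4) ^ (M + 1) := by ring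
      _ ≤ 26 * 400 ^ M * (2 * z) ^ (M + 1) := by gcongr
      _ = (26 * 400 ^ M * 2 ^ (M + 1)) * z ^ (M + 1) := by rw [mul_pow]; ring
      _ ≤ (26 * 400 ^ M * 2 ^ (M + 1)) * (a ^ (M + 1) + z ^ (M + 1)) := by
          gcongr
          have : 0 ≤ a ^ (M + 1) := by positivity
          linarith
      _ ≤ _ := by
          apply mul_le_mul_of_nonneg_right _ hS
          have : (0 : ℝ) ≤ 2 * 4 ^ (n - 1) := by positivity
          linarith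

/-- the integrand in one variable -/
noncomputable def ph (N : ℕ) (t δ y : ℝ) : ℝ := (δ ^ (2 * N) + (y ^ 2 - t ^ 2) ^ (2 * N))⁻¹

lemma den_pos (N : ℕ) {t δ : ℝ} (hδ : 0 < δ) (y : ℝ) :
    0 < δ ^ (2 * N) + (y ^ 2 - t ^ 2) ^ (2 * N) := by
  have h1 : 0 < δ ^ (2 * N) := by positivity
  have h2 : 0 ≤ (y ^ 2 - t ^ 2) ^ (2 * N) := by
    rw [pow_mul]; positivity
  linarith

lemma ph_pos (N : ℕ) {t δ : ℝ} (hδ : 0 < δ) (y : ℝ) : 0 < ph N t δ y :=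
  inv_pos.2 (den_pos N hδ y)

/-- the constant -/
noncomputable def cst (n M : ℕ) : ℝ := 2 * 4 ^ (n - 1) + 26 * 400 ^ M * 2 ^ (M + 1)

lemma cst_pos (n M : ℕ) : 0 < cst n M := by
  unfold cst; positivity

lemma bound {n M : ℕ} (hn : n - 1 ≤ 4 * M + 2) {y t δ : ℝ} (hy : 0 < y) (ht1 : 1 ≤ t)
    (ht2 : t ≤ 2) (hδ : 0 < δ) (hδ' : δ ≤ 20) :
    y ^ (n - 1) * ph (M + 1) t δ y ≤ cst n M * ((δ ^ 2) ^ M)⁻¹ * psi t δ y := by
  have h1 := den_pos (M + 1) (t := t) hδ y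
  have h2 : 0 < δ ^ 2 + (y - t) ^ 2 := by positivity
  have h3 : 0 < (δ ^ 2) ^ M := by positivity
  have hk := keyN hn hy ht1 ht2 hδ hδ'
  unfold ph psi
  have e : cst n M * ((δ ^ 2) ^ M)⁻¹ * (δ ^ 2 + (y - t) ^ 2)⁻¹ =
      cst n M / ((δ ^ 2) ^ M * (δ ^ 2 + (y - t) ^ 2)) := by
    rw [div_eq_mul_inv, mul_inv]; ring
  rw [e, ← div_eq_mul_inv, div_le_div_iff₀ h1 (by positivity)]
  have e2 : δ ^ (2 * (M + 1)) + (y ^ 2 - t ^ 2) ^ (2 * (M + 1)) =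
      (δ ^ 2) ^ (M + 1) + ((y ^ 2 - t ^ 2) ^ 2) ^ (M + 1) := by
    rw [pow_mul, pow_mul]
  rw [e2]
  calc y ^ (n - 1) * ((δ ^ 2) ^ M * (δ ^ 2 + (y - t) ^ 2)) =
      y ^ (n - 1) * (δ ^ 2 + (y - t) ^ 2) * (δ ^ 2) ^ M := by ring
    _ ≤ _ := hk

lemma ph_meas (N : ℕ) (t δ : ℝ) : Measurable (ph N t δ) := by
  unfold ph
  fun_prop

lemma int1 {n M : ℕ} (hn : n - 1 ≤ 4 * M + 2) {t δ : ℝ} (ht1 : 1 ≤ t)
    (ht2 : t ≤ 2) (hδ : 0 < δ) (hδ' : δ ≤ 20) :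
    IntegrableOn (fun y : ℝ => y ^ (n - 1) * ph (M + 1) t δ y) (Ioi 0) := by
  have h1 : IntegrableOn (fun y : ℝ => cst n M * ((δ ^ 2) ^ M)⁻¹ * psi t δ y) (Ioi 0) :=
    ((psi_int hδ).const_mul _).integrableOn
  refine Integrable.mono' h1 ?_ ?_
  · exact ((measurable_id.pow_const _).mul (ph_meas _ t δ)).aestronglyMeasurable
  · refine (ae_restrict_iff' measurableSet_Ioi).2 (Filter.Eventually.of_forall fun y hy => ?_)
    have hy' : 0 < y := hy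
    rw [Real.norm_of_nonneg (mul_nonneg (pow_nonneg hy'.le _) (ph_pos _ hδ y).le)]
    exact bound hn hy' ht1 ht2 hδ hδ'

lemma int2 {n M : ℕ} (hn : n - 1 ≤ 4 * M + 2) {t δ : ℝ} (ht1 : 1 ≤ t)
    (ht2 : t ≤ 2) (hδ : 0 < δ) (hδ' : δ ≤ 20) :
    ∫ y in Ioi (0 : ℝ), y ^ (n - 1) * ph (M + 1) t δ y ≤
      cst n M * ((δ ^ 2) ^ M)⁻¹ * (Real.pi / δ) := by
  have h1 : Integrable (fun y : ℝ => cst n M * ((δ ^ 2) ^ M)⁻¹ * psi t δ y) :=
    (psi_int hδ).const_mul _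
  have hc := cst_pos n M
  calc ∫ y in Ioi (0 : ℝ), y ^ (n - 1) * ph (M + 1) t δ y
      ≤ ∫ y in Ioi (0 : ℝ), cst n M * ((δ ^ 2) ^ M)⁻¹ * psi t δ y :=
        setIntegral_mono_on (int1 hn ht1 ht2 hδ hδ') h1.integrableOn measurableSet_Ioi
          (fun y hy => bound hn hy ht1 ht2 hδ hδ')
    _ ≤ ∫ y : ℝ, cst n M * ((δ ^ 2) ^ M)⁻¹ * psi t δ y :=
        setIntegral_le_integral h1 (Filter.Eventually.of_forall fun y =>
          mul_nonneg (by positivity) (psi_pos hδ y).le)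
    _ = cst n M * ((δ ^ 2) ^ M)⁻¹ * (Real.pi / δ) := by rw [integral_const_mul, psi_integral hδ]

end WTGaux

open WTGaux

theorem wtg_thm : S_WTG := by
  intro n N hn hnN
  obtain ⟨M, rfl⟩ : ∃ M, N = M + 1 := ⟨N - 1, by omega⟩
  have hn' : n - 1 ≤ 4 * M + 2 := by omega
  have hfr : Module.finrank ℝ (E n) = n := finrank_euclideanSpace_fin
  have : Nontrivial (E n) := Module.nontrivial_of_finrank_pos (R := ℝ) (by rw [hfr]; omega)
  set c : ℝ := (n : ℝ) * (volume : Measure (E n)).real (Metric.ball 0 1) with hc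
  have hc0 : 0 ≤ c := by positivity
  have hcst := cst_pos n M
  refine ⟨c * (cst n M * Real.pi) + 1, by positivity, ?_⟩
  intro t δ ht1 ht2 hδ hδ'
  have hint : Integrable (fun u : E n => ph (M + 1) t δ ‖u‖) := by
    rw [integrable_fun_norm_addHaar (volume : Measure (E n)) (f := ph (M + 1) t δ), hfr]
    simpa [smul_eq_mul] using int1 hn' ht1 ht2 hδ hδ'
  have hI : ∫ u : E n, ph (M + 1) t δ ‖u‖ ≤
      c * (cst n M * ((δ ^ 2) ^ M)⁻¹ * (Real.pi / δ)) := by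
    rw [integral_fun_norm_addHaar (volume : Measure (E n)) (ph (M + 1) t δ), hfr]
    simp only [nsmul_eq_mul, smul_eq_mul]
    rw [← mul_assoc]
    exact mul_le_mul_of_nonneg_left (int2 hn' ht1 ht2 hδ hδ') hc0
  have h1 : ∫⁻ u : E n, (ENNReal.ofReal (δ ^ (2 * (M + 1)) +
      (‖u‖ ^ 2 - t ^ 2) ^ (2 * (M + 1))))⁻¹ =
      ∫⁻ u : E n, ENNReal.ofReal (ph (M + 1) t δ ‖u‖) := by
    refine lintegral_congr fun u => ?_
    unfold ph
    rw [ENNReal.ofReal_inv_of_pos (den_pos _ hδ _)]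
  rw [h1, ← ofReal_integral_eq_lintegral_ofReal hint
    (Filter.Eventually.of_forall fun u => (ph_pos _ hδ _).le)]
  apply ENNReal.ofReal_le_ofReal
  refine hI.trans ?_
  have e1 : δ / δ ^ (2 * (M + 1)) = ((δ ^ 2) ^ M)⁻¹ * (1 / δ) := by
    rw [← pow_mul]
    field_simp
    ring
  have h2 : 0 ≤ δ / δ ^ (2 * (M + 1)) := by positivity
  calc c * (cst n M * ((δ ^ 2) ^ M)⁻¹ * (Real.pi / δ)) =
      c * (cst n M * Real.pi) * (((δ ^ 2) ^ M)⁻¹ * (1 / δ)) := by ring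
    _ = c * (cst n M * Real.pi) * (δ / δ ^ (2 * (M + 1))) := by rw [e1]
    _ ≤ (c * (cst n M * Real.pi) + 1) * (δ / δ ^ (2 * (M + 1))) := by linarith
    _ = _ := by rw [mul_div_assoc]

end Pool.Agent.R245.WG
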